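import Pool.Agent.Helper55.Vote.Defs

/-! Local events: measurability, independence, shift invariance; monotonicity of the process. -/

namespace Pool.Agent.Helper55.Vote

open MeasureTheory Set ProbabilityTheory

instance (μ₀ : Measure (Option Bool)) [IsProbabilityMeasure μ₀] : IsProbabilityMeasure (Pm μ₀) := by
  unfold Pm; infer_instance

lemma law_prob {ε δ : ℝ} (hε : 0 ≤ ε) (hδ : 0 ≤ δ) (h : ε + δ ≤ 1) :
    IsProbabilityMeasure (law ε δ) := by
  constructor
  simp only [law, Measure.coe_add, Measure.coe_smul, Pi.add_apply, Pi.smul_apply, measure_univ,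
    smul_eq_mul, mul_one]
  rw [← ENNReal.ofReal_add (by linarith) hδ, ← ENNReal.ofReal_add (by linarith) hε]
  norm_num

lemma law_true {ε δ : ℝ} (hδ : 0 ≤ δ) : (law ε δ).real {some true} = δ := by
  simp [law, Measure.real, hδ]

lemma law_false {ε δ : ℝ} (hε : 0 ≤ ε) : (law ε δ).real {some false} = ε := by
  simp [law, Measure.real, hε]

section FL

variable {R R' : Set (ℤ × ℤ)} {A B : Set Om}

lemma FL.mono (h : FL R A) (hR : R ⊆ R') : FL R' A := by
  obtain ⟨J, h1, h2⟩ := h
  exact ⟨J, h1.trans hR, h2⟩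

lemma FL.univ (R : Set (ℤ × ℤ)) : FL R Set.univ := ⟨∅, by simp, fun _ _ _ _ => trivial⟩

lemma FL.empty (R : Set (ℤ × ℤ)) : FL R ∅ := ⟨∅, by simp, fun _ _ _ h => h⟩

lemma FL.compl (h : FL R A) : FL R Aᶜ := by
  obtain ⟨J, h1, h2⟩ := h
  exact ⟨J, h1, fun ω ω' hc hA hA' => hA (h2 ω' ω (fun c hc' => (hc c hc').symm) hA')⟩

lemma FL.inter (h : FL R A) (h' : FL R B) : FL R (A ∩ B) := by
  classical
  obtain ⟨J, h1, h2⟩ := h
  obtain ⟨J', h1', h2'⟩ := h'
  refine ⟨J ∪ J', by simp [h1, h1'], ?_⟩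
  rintro ω ω' hc ⟨hA, hB⟩
  exact ⟨h2 ω ω' (fun c hc' => hc c (Finset.mem_union_left _ hc')) hA,
    h2' ω ω' (fun c hc' => hc c (Finset.mem_union_right _ hc')) hB⟩

lemma FL.union (h : FL R A) (h' : FL R B) : FL R (A ∪ B) := by
  have := (h.compl.inter h'.compl).compl
  rwa [← compl_union, compl_compl] at this

lemma FL.biInter {ι : Type*} (s : Finset ι) (f : ι → Set Om) (h : ∀ i ∈ s, FL R (f i)) :
    FL R (⋂ i ∈ s, f i) := by
  classical
  induction s using Finset.induction_on with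
  | empty => simpa using FL.univ R
  | insert a s ha ih =>
    rw [Finset.set_biInter_insert]
    exact (h a (Finset.mem_insert_self _ _)).inter
      (ih fun i hi => h i (Finset.mem_insert_of_mem hi))

lemma FL.biUnion {ι : Type*} (s : Finset ι) (f : ι → Set Om) (h : ∀ i ∈ s, FL R (f i)) :
    FL R (⋃ i ∈ s, f i) := by
  classical
  induction s using Finset.induction_on with
  | empty => simpa using FL.empty R
  | insert a s ha ih =>
    rw [Finset.set_biUnion_insert]
    exact (h a (Finset.mem_insert_self _ _)).union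
      (ih fun i hi => h i (Finset.mem_insert_of_mem hi))

/-- one coordinate -/
lemma FL.single (c : ℤ × ℤ) (hc : c ∈ R) (s : Set (Option Bool)) : FL R {ω | ω c ∈ s} :=
  ⟨{c}, by simpa using hc, fun ω ω' h hA => by
    have := h c (by simp)
    simp only [mem_ofPred_eq] at hA ⊢
    rwa [← this]⟩

/-- a local event is the preimage of a set of restricted noise fields -/
lemma exists_preimage {J : Finset (ℤ × ℤ)}
    (h : ∀ ω ω' : Om, (∀ c ∈ J, ω c = ω' c) → ω ∈ A → ω' ∈ A) :
    A = (fun ω : Om => fun c : J => ω c) ⁻¹' ((fun ω : Om => fun c : J => ω c) '' A) := by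
  ext ω
  constructor
  · intro hω
    exact ⟨ω, hω, rfl⟩
  · rintro ⟨ω', hω', he⟩
    exact h ω' ω (fun c hc => congrFun he ⟨c, hc⟩) hω'

lemma FL.meas (h : FL R A) : MeasurableSet A := by
  obtain ⟨J, -, h2⟩ := h
  rw [exists_preimage h2]
  refine measurableSet_preimage ?_ (Set.toFinite _).measurableSet
  exact measurable_pi_lambda _ fun c => measurable_pi_apply _

variable (μ₀ : Measure (Option Bool)) [IsProbabilityMeasure μ₀]

lemma iIndep_coord : iIndepFun (fun (c : ℤ × ℤ) (ω : Om) => ω c) (Pm μ₀) := by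
  have := iIndepFun_infinitePi (P := fun _ : ℤ × ℤ => μ₀) (X := fun _ x => x)
    (fun _ => measurable_id)
  exact this

lemma FL.indep (h : FL R A) (h' : FL R' B) (hd : Disjoint R R') :
    (Pm μ₀).real (A ∩ B) = (Pm μ₀).real A * (Pm μ₀).real B := by
  obtain ⟨J, h1, h2⟩ := h
  obtain ⟨J', h1', h2'⟩ := h'
  have hJ : Disjoint J J' := by
    rw [← Finset.disjoint_coe]
    exact hd.mono h1 h1'
  have hi := (iIndep_coord μ₀).indepFun_finset J J' hJ fun c => measurable_pi_apply c
  have h3 := hi.measure_inter_preimage_eq_mul ((fun ω : Om => fun c : J => ω c) '' A)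
    ((fun ω : Om => fun c : J' => ω c) '' B) (Set.toFinite _).measurableSet
    (Set.toFinite _).measurableSet
  have e1 := exists_preimage h2
  have e2 := exists_preimage h2'
  rw [← e1, ← e2] at h3
  rw [Measure.real, h3, ENNReal.toReal_mul]
  rfl

/-- one coordinate -/
lemma prob_single (c : ℤ × ℤ) (s : Set (Option Bool)) :
    (Pm μ₀).real {ω | ω c ∈ s} = μ₀.real s := by
  have h := measurePreserving_eval_infinitePi (fun _ : ℤ × ℤ => μ₀) c
  have h2 := h.measure_preimage (s := s) (Set.toFinite _).measurableSet.nullMeasurableSet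
  rw [Measure.real, Measure.real, ← h2]
  rfl

/-- the law of the noise is invariant under bijections of the index set -/
lemma map_perm (e : (ℤ × ℤ) ≃ (ℤ × ℤ)) : (Pm μ₀).map (fun ω c => ω (e c)) = Pm μ₀ := by
  have h := Measure.infinitePi_map_piCongrLeft (fun _ : ℤ × ℤ => μ₀) e.symm
  unfold Pm
  convert h using 2
  funext ω c
  rw [MeasurableEquiv.coe_piCongrLeft]
  have := Equiv.piCongrLeft_apply (P := fun _ : ℤ × ℤ => Option Bool) e.symm ω c
  rw [this]
  simp

lemma measure_perm (e : (ℤ × ℤ) ≃ (ℤ × ℤ)) (hA : MeasurableSet A) :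
    (Pm μ₀).real ((fun (ω : Om) c => ω (e c)) ⁻¹' A) = (Pm μ₀).real A := by
  have hm : Measurable (fun (ω : Om) c => ω (e c)) :=
    measurable_pi_lambda _ fun c => measurable_pi_apply _
  rw [Measure.real, ← Measure.map_apply hm hA, map_perm μ₀ e]
  rfl

lemma measure_shift (v : ℤ × ℤ) (hA : MeasurableSet A) :
    (Pm μ₀).real (shift v ⁻¹' A) = (Pm μ₀).real A :=
  measure_perm μ₀ (Equiv.addRight v) hA

lemma FL.shift (h : FL R A) (v : ℤ × ℤ) :
    FL {c | c - v ∈ R} (shift v ⁻¹' A) := by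
  classical
  obtain ⟨J, h1, h2⟩ := h
  refine ⟨J.image (· + v), ?_, ?_⟩
  · intro c hc
    simp only [Finset.coe_image, mem_image] at hc
    obtain ⟨c', hc', rfl⟩ := hc
    simpa using h1 hc'
  · intro ω ω' hc hA
    refine h2 _ _ (fun c hc' => ?_) hA
    exact hc _ (Finset.mem_image_of_mem _ hc')

end FL

section Process

variable (N : Finset ℤ)

lemma run_zero (ω : Om) (t₀ : ℤ) (x : ℤ → Bool) : run N ω t₀ x 0 = x := rfl

lemma run_succ (ω : Om) (t₀ : ℤ) (x : ℤ → Bool) (n : ℕ) :
    run N ω t₀ x (n + 1) = step N (fun s => ω (s, t₀ + n)) (run N ω t₀ x n) := rfl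

lemma run_add (ω : Om) (t₀ : ℤ) (x : ℤ → Bool) (m n : ℕ) :
    run N ω t₀ x (m + n) = run N ω (t₀ + m) (run N ω t₀ x m) n := by
  induction n with
  | zero => rfl
  | succ n ih =>
    rw [← add_assoc, run_succ, run_succ, ih]
    congr 1
    funext s
    push_cast
    rw [add_assoc]

lemma run_shift (ω : Om) (u k t₀ : ℤ) (x : ℤ → Bool) (n : ℕ) (s : ℤ) :
    run N (shift (u, k) ω) t₀ x n s = run N ω (t₀ + k) (fun r => x (r - u)) n (s + u) := by
  induction n generalizing s with
  | zero => simp [run_zero]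
  | succ n ih =>
    rw [run_succ, run_succ]
    unfold step
    have h1 : shift (u, k) ω (s, t₀ + n) = ω (s + u, t₀ + k + n) := by
      unfold shift
      congr 1
      simp only [Prod.mk_add_mk, Prod.mk.injEq, true_and]
      ring
    have h2 : maj N (run N (shift (u, k) ω) t₀ x n) s =
        maj N (run N ω (t₀ + k) (fun r => x (r - u)) n) (s + u) := by
      unfold maj
      congr 4
      refine Finset.filter_congr fun j _ => ?_
      rw [ih]
      have : s + j + u = s + u + j := by ring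
      rw [this]
    beta_reduce
    rw [h1, h2]

lemma maj_mono {x y : ℤ → Bool} (h : ∀ s, x s ≤ y s) (s : ℤ) : maj N x s ≤ maj N y s := by
  unfold maj
  rw [Bool.le_iff_imp]
  intro h1
  rw [decide_eq_true_eq] at h1 ⊢
  refine h1.trans_le (Nat.mul_le_mul_left _ (Finset.card_le_card ?_))
  intro j hj
  rw [Finset.mem_filter] at hj ⊢
  exact ⟨hj.1, Bool.le_iff_imp.1 (h _) hj.2⟩

lemma step_mono (w : ℤ → Option Bool) {x y : ℤ → Bool} (h : ∀ s, x s ≤ y s) (s : ℤ) :
    step N w x s ≤ step N w y s := by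
  unfold step
  cases w s with
  | none => exact maj_mono N h s
  | some b => exact le_rfl

lemma run_mono (ω : Om) (t₀ : ℤ) {x y : ℤ → Bool} (h : ∀ s, x s ≤ y s) (n : ℕ) (s : ℤ) :
    run N ω t₀ x n s ≤ run N ω t₀ y n s := by
  induction n generalizing s with
  | zero => exact h s
  | succ n ih => exact step_mono N _ ih s

/-- the value at one site depends on finitely many noise variables -/
lemma FL.run (t₀ : ℤ) (x : ℤ → Bool) (n : ℕ) (s : ℤ) (b : Bool) :
    FL {c : ℤ × ℤ | t₀ ≤ c.2 ∧ c.2 < t₀ + n} {ω | run N ω t₀ x n s = b} := by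
  classical
  induction n generalizing s b with
  | zero =>
    simp only [run_zero]
    by_cases h : x s = b
    · simp only [h, ofPred_true]; exact FL.univ _
    · simp only [h, ofPred_false]; exact FL.empty _
  | succ n ih =>
    have hmono : {c : ℤ × ℤ | t₀ ≤ c.2 ∧ c.2 < t₀ + n} ⊆
        {c : ℤ × ℤ | t₀ ≤ c.2 ∧ c.2 < t₀ + (n + 1 : ℕ)} := by
      intro c hc
      simp only [mem_ofPred_eq, Nat.cast_add, Nat.cast_one] at hc ⊢
      omega
    have hmem : ((s, t₀ + n) : ℤ × ℤ) ∈ {c : ℤ × ℤ | t₀ ≤ c.2 ∧ c.2 < t₀ + (n + 1 : ℕ)} := by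
      simp only [mem_ofPred_eq, Nat.cast_add, Nat.cast_one]
      omega
    have hJ : ∀ j ∈ N, ∃ J : Finset (ℤ × ℤ), (J : Set (ℤ × ℤ)) ⊆
        {c : ℤ × ℤ | t₀ ≤ c.2 ∧ c.2 < t₀ + (n + 1 : ℕ)} ∧
        ∀ ω ω' : Om, (∀ c ∈ J, ω c = ω' c) → Vote.run N ω t₀ x n (s + j) = true →
          Vote.run N ω' t₀ x n (s + j) = true := fun j _ => (ih (s + j) true).mono hmono
    choose! J hJ1 hJ2 using hJ
    refine ⟨insert (s, t₀ + n) (N.biUnion J), ?_, ?_⟩
    · intro c hc
      rw [Finset.mem_coe, Finset.mem_insert, Finset.mem_biUnion] at hc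
      rcases hc with rfl | ⟨j, hj, hc⟩
      · exact hmem
      · exact hJ1 j hj hc
    · intro ω ω' hc hA
      have h1 : ω (s, t₀ + n) = ω' (s, t₀ + n) := hc _ (Finset.mem_insert_self _ _)
      have h2 : maj N (Vote.run N ω t₀ x n) s = maj N (Vote.run N ω' t₀ x n) s := by
        unfold maj
        congr 4
        refine Finset.filter_congr fun j hj => ?_
        have hc' : ∀ c ∈ J j, ω c = ω' c := fun c hc' =>
          hc c (Finset.mem_insert_of_mem (Finset.mem_biUnion.2 ⟨j, hj, hc'⟩))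
        exact ⟨hJ2 j hj ω ω' hc', hJ2 j hj ω' ω fun c hc'' => (hc' c hc'').symm⟩
      simp only [mem_ofPred_eq, run_succ, step] at hA ⊢
      rw [← h1, ← h2]
      exact hA

end Process

end Pool.Agent.Helper55.Vote
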