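import Pool.Agent.Helper55.Vote.Zone

/-! The block criterion: if a block carries a wall with sufficiently high probability, then the
noisy voting forgets its initial state. -/

namespace Pool.Agent.Helper55.Vote

open MeasureTheory Set ProbabilityTheory

/-- the space-time box of the block `0` -/
def box (w L T : ℕ) : Set (ℤ × ℤ) :=
  {c | -((w : ℤ) * L) ≤ c.1 ∧ c.1 < (w + 1) * L ∧ 0 ≤ c.2 ∧ c.2 < T}

/-- the good event of the block `i` in the layer `k` -/
def good (L T : ℕ) (g : Set Om) (k : ℕ) (i : ℤ) : Set Om := shift (i * L, 1 + k * T) ⁻¹' g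

/-- the events determined by the layers `k, k + 1, …` -/
def futur (T : ℕ) (k : ℕ) : Set (Set Om) := {F | FL {c : ℤ × ℤ | 1 + (k : ℤ) * T ≤ c.2} F}

variable (μ₀ : Measure (Option Bool)) [IsProbabilityMeasure μ₀]

lemma good_FL {w L T : ℕ} {g : Set Om} (hg : FL (box w L T) g) (k : ℕ) (i : ℤ) :
    FL {c | c - ((i * L, 1 + (k : ℤ) * T) : ℤ × ℤ) ∈ box w L T} (good L T g k i) := hg.shift _

lemma prod_bad {w L T : ℕ} (hL : 1 ≤ L) {g : Set Om} (hg : FL (box w L T) g) (k : ℕ) (F : Set Om)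
    (hF : FL {c : ℤ × ℤ | 1 + ((k + 1 : ℕ) : ℤ) * T ≤ c.2} F) (S : Finset ℤ)
    (hS : ∀ i ∈ S, ∀ j ∈ S, i ≠ j → ((2 * w + 1 : ℕ) : ℤ) ≤ |i - j|) :
    (Pm μ₀).real ({ω | ∀ i ∈ S, ω ∉ good L T g k i} ∩ F) =
      ((Pm μ₀).real gᶜ) ^ S.card * (Pm μ₀).real F := by
  classical
  induction S using Finset.induction_on with
  | empty => simp
  | insert a S ha ih =>
    have ih' := ih fun i hi j hj => hS i (Finset.mem_insert_of_mem hi) j
      (Finset.mem_insert_of_mem hj)
    set Ra : Set (ℤ × ℤ) := {c | c - ((a * L, 1 + (k : ℤ) * T) : ℤ × ℤ) ∈ box w L T} with hRa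
    have h1 : FL Ra (good L T g k a)ᶜ := (good_FL hg k a).compl
    have h2 : FL Raᶜ ({ω | ∀ i ∈ S, ω ∉ good L T g k i} ∩ F) := by
      refine FL.inter ?_ (hF.mono ?_)
      · have h3 := FL.biInter (R := Raᶜ) S (fun i => (good L T g k i)ᶜ) fun i hi =>
          ((good_FL hg k i).compl).mono ?_
        · convert h3 using 1
          ext ω
          simp
        · intro c hc hca
          have h4 := hS a (Finset.mem_insert_self _ _) i (Finset.mem_insert_of_mem hi)
            (fun h => ha (h ▸ hi))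
          simp only [mem_ofPred_eq, box, Prod.fst_sub, Prod.snd_sub] at hc
          simp only [hRa, mem_ofPred_eq, box, Prod.fst_sub, Prod.snd_sub] at hca
          have hL' : (1 : ℤ) ≤ L := by exact_mod_cast hL
          have h5 : |a - i| < ((2 * w + 1 : ℕ) : ℤ) := by
            rw [abs_lt]
            push_cast
            constructor <;> nlinarith
          omega
      · intro c hc hca
        simp only [mem_ofPred_eq] at hc
        simp only [hRa, mem_ofPred_eq, box, Prod.fst_sub, Prod.snd_sub] at hca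
        have h4 := hca.2.2.2
        push_cast at hc
        nlinarith
    have e : {ω | ∀ i ∈ insert a S, ω ∉ good L T g k i} ∩ F =
        (good L T g k a)ᶜ ∩ ({ω | ∀ i ∈ S, ω ∉ good L T g k i} ∩ F) := by
      ext ω
      simp only [mem_inter_iff, mem_ofPred_eq, Finset.mem_insert, forall_eq_or_imp, mem_compl_iff]
      tauto
    rw [e, h1.indep μ₀ h2 disjoint_compl_right, ih', Finset.card_insert_of_notMem ha, pow_succ]
    have h5 : (Pm μ₀).real (good L T g k a)ᶜ = (Pm μ₀).real gᶜ := by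
      have : (good L T g k a)ᶜ = shift (a * L, 1 + k * T) ⁻¹' gᶜ := rfl
      rw [this, measure_shift μ₀ _ hg.compl.meas]
    rw [h5]
    ring

lemma exists_class (S : Finset ℤ) (M : ℕ) (hM : 0 < M) :
    ∃ S' ⊆ S, S.card ≤ M * S'.card ∧ ∀ i ∈ S', ∀ j ∈ S', i ≠ j → (M : ℤ) ≤ |i - j| := by
  classical
  have hM' : (0 : ℤ) < M := by exact_mod_cast hM
  have hex : ∃ r ∈ Finset.Ico (0 : ℤ) M, S.card ≤ M * (S.filter fun i => i % M = r).card := by
    by_contra hcon
    push Not at hcon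
    have h1 := Finset.card_eq_sum_card_fiberwise (f := fun i : ℤ => i % M) (s := S)
      (t := Finset.Ico (0 : ℤ) M) (fun i _ => by
        rw [Finset.mem_coe, Finset.mem_Ico]
        exact ⟨Int.emod_nonneg _ hM'.ne', Int.emod_lt_of_pos _ hM'⟩)
    have h2 : ∑ r ∈ Finset.Ico (0 : ℤ) M, M * (S.filter fun i => i % M = r).card <
        ∑ _r ∈ Finset.Ico (0 : ℤ) M, S.card :=
      Finset.sum_lt_sum_of_nonempty ⟨0, by simpa using hM⟩ hcon
    rw [← Finset.mul_sum, ← h1, Finset.sum_const, smul_eq_mul] at h2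
    simp at h2
  obtain ⟨r, -, hr⟩ := hex
  refine ⟨S.filter fun i => i % M = r, Finset.filter_subset _ _, hr, ?_⟩
  intro i hi j hj hij
  rw [Finset.mem_filter] at hi hj
  have h1 : (M : ℤ) ∣ i - j := by
    apply Int.dvd_of_emod_eq_zero
    rw [Int.sub_emod, hi.2, hj.2]
    simp
  have h2 : (M : ℤ) ∣ |i - j| := (dvd_abs _ _).2 h1
  exact Int.le_of_dvd (abs_pos.2 (sub_ne_zero.2 hij)) h2

lemma field_good {w L T : ℕ} (hL : 1 ≤ L) {g : Set Om} (hg : FL (box w L T) g)
    (hgP : (Pm μ₀).real gᶜ ≤ (3 / 64) ^ (2 * w + 1)) :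
    Field (Pm μ₀) (good L T g) (futur T) where
  meas := fun k F hF => FL.meas hF
  mono := fun k F hF => FL.mono hF fun c hc => by
    simp only [mem_ofPred_eq] at hc ⊢
    push_cast at hc
    nlinarith
  univ := fun k => FL.univ _
  compl := fun k F hF => FL.compl hF
  inter := fun k F hF F' hF' => FL.inter hF hF'
  good := fun k i => (good_FL hg k i).mono fun c hc => by
    simp only [mem_ofPred_eq, box, Prod.fst_sub, Prod.snd_sub] at hc ⊢
    omega
  bound := by
    intro k S F hF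
    obtain ⟨S', hS1, hS2, hS3⟩ := exists_class S (2 * w + 1) (by omega)
    have h1 := prod_bad μ₀ hL hg k F hF S' hS3
    have h2 : (Pm μ₀).real ({ω | ∀ i ∈ S, ω ∉ good L T g k i} ∩ F) ≤
        (Pm μ₀).real ({ω | ∀ i ∈ S', ω ∉ good L T g k i} ∩ F) := by
      refine measureReal_mono ?_ (measure_ne_top _ _)
      rintro ω ⟨h, h'⟩
      exact ⟨fun i hi => h i (hS1 hi), h'⟩
    refine h2.trans (h1.le.trans ?_)
    refine mul_le_mul_of_nonneg_right ?_ ENNReal.toReal_nonneg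
    have h3 : (0 : ℝ) ≤ (Pm μ₀).real gᶜ := ENNReal.toReal_nonneg
    calc ((Pm μ₀).real gᶜ) ^ S'.card ≤ ((3 / 64 : ℝ) ^ (2 * w + 1)) ^ S'.card :=
          pow_le_pow_left₀ h3 hgP _
      _ = (3 / 64 : ℝ) ^ ((2 * w + 1) * S'.card) := by rw [pow_mul]
      _ ≤ (3 / 64 : ℝ) ^ S.card := pow_le_pow_of_le_one (by norm_num) (by norm_num) hS2

lemma prob_all (b : Bool) (S : Finset ℤ) :
    (Pm μ₀).real {ω | ∀ s ∈ S, ω (s, 0) = some b} = (μ₀.real {some b}) ^ S.card := by
  classical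
  induction S using Finset.induction_on with
  | empty => simp
  | insert a S ha ih =>
    have h1 : FL {((a, 0) : ℤ × ℤ)} {ω | ω (a, 0) ∈ ({some b} : Set (Option Bool))} :=
      FL.single _ (by simp) _
    have h2 : FL ({((a, 0) : ℤ × ℤ)} : Set (ℤ × ℤ))ᶜ {ω | ∀ s ∈ S, ω (s, 0) = some b} := by
      have h3 := FL.biInter (R := ({((a, 0) : ℤ × ℤ)} : Set (ℤ × ℤ))ᶜ) S
        (fun s => {ω | ω (s, 0) ∈ ({some b} : Set (Option Bool))}) fun s hs =>
          FL.single _ (by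
            simp only [mem_compl_iff, mem_singleton_iff, Prod.mk.injEq, and_true]
            rintro rfl
            exact ha hs) _
      convert h3 using 1
      ext ω
      simp
    have e : {ω : Om | ∀ s ∈ insert a S, ω (s, 0) = some b} =
        {ω | ω (a, 0) ∈ ({some b} : Set (Option Bool))} ∩ {ω | ∀ s ∈ S, ω (s, 0) = some b} := by
      ext ω
      simp [Finset.forall_mem_insert]
    rw [e, h1.indep μ₀ h2 disjoint_compl_right, ih, prob_single, Finset.card_insert_of_notMem ha,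
      pow_succ]
    ring

/-- the seed number `j` -/
def seed (b : Bool) (m L : ℕ) (j : ℕ) : Set Om :=
  {ω | ∀ s ∈ Finset.Ico ((j : ℤ) * (m * L)) ((j + 1) * (m * L)), ω (s, 0) = some b}

lemma seed_FL (b : Bool) (m L : ℕ) (j : ℕ) :
    FL {c : ℤ × ℤ | c.2 = 0 ∧ (j : ℤ) * (m * L) ≤ c.1 ∧ c.1 < (j + 1) * (m * L)}
      (seed b m L j) := by
  have h3 := FL.biInter (R := {c : ℤ × ℤ | c.2 = 0 ∧ (j : ℤ) * (m * L) ≤ c.1 ∧
    c.1 < (j + 1) * (m * L)}) (Finset.Ico ((j : ℤ) * (m * L)) ((j + 1) * (m * L)))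
    (fun s => {ω | ω (s, 0) ∈ ({some b} : Set (Option Bool))}) fun s hs =>
      FL.single _ (by
        rw [Finset.mem_Ico] at hs
        exact ⟨rfl, hs.1, hs.2⟩) _
  convert h3 using 1
  ext ω
  simp [seed]

lemma prob_seed (b : Bool) (m L : ℕ) (j : ℕ) :
    (Pm μ₀).real (seed b m L j) = (μ₀.real {some b}) ^ (m * L) := by
  unfold seed
  rw [prob_all]
  congr 1
  rw [Int.card_Ico]
  have : ((j : ℤ) + 1) * (m * L) - j * (m * L) = ((m * L : ℕ) : ℤ) := by push_cast; ring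
  rw [this, Int.toNat_natCast]

lemma prob_no_seed (b : Bool) (m L : ℕ) (M : ℕ) :
    (Pm μ₀).real {ω | ∀ j < M, ω ∉ seed b m L j} = (1 - (μ₀.real {some b}) ^ (m * L)) ^ M := by
  induction M with
  | zero => simp
  | succ M ih =>
    have h1 : FL {c : ℤ × ℤ | (M : ℤ) * (m * L) ≤ c.1} (seed b m L M)ᶜ :=
      (seed_FL b m L M).compl.mono fun c hc => hc.2.1
    have h2 : FL {c : ℤ × ℤ | c.1 < (M : ℤ) * (m * L)} {ω | ∀ j < M, ω ∉ seed b m L j} := by
      have h3 := FL.biInter (R := {c : ℤ × ℤ | c.1 < (M : ℤ) * (m * L)}) (Finset.range M)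
        (fun j => (seed b m L j)ᶜ) fun j hj => (seed_FL b m L j).compl.mono fun c hc => by
          rw [Finset.mem_range] at hj
          have h4 := hc.2.2
          simp only [mem_ofPred_eq]
          have h5 : ((j : ℤ) + 1) ≤ M := by exact_mod_cast hj
          have h6 : (0 : ℤ) ≤ (m : ℤ) * L := by positivity
          nlinarith
      convert h3 using 1
      ext ω
      simp
    have e : {ω : Om | ∀ j < M + 1, ω ∉ seed b m L j} =
        (seed b m L M)ᶜ ∩ {ω | ∀ j < M, ω ∉ seed b m L j} := by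
      ext ω
      simp only [mem_ofPred_eq, mem_inter_iff, mem_compl_iff]
      constructor
      · intro h
        exact ⟨h M (by omega), fun j hj => h j (by omega)⟩
      · rintro ⟨h, h'⟩ j hj
        by_cases hjM : j = M
        · rw [hjM]; exact h
        · exact h' j (by omega)
    rw [e, h1.indep μ₀ h2 ?_, ih, probReal_compl_eq_one_sub (seed_FL b m L M).meas, prob_seed,
      pow_succ]
    · ring
    · rw [Set.disjoint_left]
      intro c hc hc'
      simp only [mem_ofPred_eq] at hc hc'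
      omega

/-- the key estimate -/
lemma D_le {N : Finset ℤ} {b : Bool} {D₁ L T w : ℕ} (hD : ∀ v ∈ N, |v| ≤ D₁) (hL : 1 ≤ L)
    {g : Set Om} (hg : FL (box w L T) g) (hgW : ∀ ω ∈ g, Wall N b D₁ L T ω 0 0)
    (hgP : (Pm μ₀).real gᶜ ≤ (3 / 64) ^ (2 * w + 1)) (m M n : ℕ) (hn : (M + 1) * m ≤ n) :
    D μ₀ N (1 + n * T) ≤ (1 - (μ₀.real {some b}) ^ (m * L)) ^ M +
      M * ((μ₀.real {some b}) ^ (m * L) * (8 * (1 / 2) ^ m)) := by
  classical
  have hF := field_good μ₀ hL hg hgP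
  set dR : ℕ → Set Om := fun j => {ω | ∀ i, (j : ℤ) * m ≤ i → i < j * m + m →
    ω ∈ dead (good L T g) 2 n 0 i} with hdR
  set dL : ℕ → Set Om := fun j => {ω | ∀ i, (j : ℤ) * m ≤ i → i < j * m + m →
    ω ∈ dead (good L T g) (-2) n 0 i} with hdL
  have hsub : {ω | run N ω 0 (fun _ => true) (1 + n * T) 0 ≠
      run N ω 0 (fun _ => false) (1 + n * T) 0} ⊆ {ω | ∀ j < M, ω ∉ seed b m L j} ∪
        ⋃ j ∈ Finset.range M, (seed b m L j ∩ dR j ∪ seed b m L j ∩ dL j) := by
    intro ω hω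
    by_contra hcon
    rw [mem_union, not_or, mem_iUnion₂] at hcon
    obtain ⟨hc1, hc2⟩ := hcon
    simp only [mem_ofPred_eq, not_forall, not_not] at hc1
    obtain ⟨j, hj, hseed⟩ := hc1
    push Not at hc2
    have h3 := hc2 j (Finset.mem_range.2 hj)
    rw [mem_union, not_or] at h3
    have h4 : ω ∉ dR j := fun h => h3.1 ⟨hseed, h⟩
    have h5 : ω ∉ dL j := fun h => h3.2 ⟨hseed, h⟩
    simp only [hdR, mem_ofPred_eq, not_forall] at h4
    simp only [hdL, mem_ofPred_eq, not_forall] at h5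
    obtain ⟨iR, hR1, hR2, hR3⟩ := h4
    obtain ⟨iL, hL1, hL2, hL3⟩ := h5
    have hW : ∀ k i, ω ∈ good L T g k i → Wall N b D₁ L T ω i (1 + k * T) := fun k i h =>
      Wall.of_shift (hgW _ h)
    have hval : ∀ x : ℤ → Bool, ∀ s, (j : ℤ) * (m * L) ≤ s → s < (j + 1) * (m * L) →
        run N ω 0 x 1 s = b := by
      intro x s hs1 hs2
      have h6 := hseed s (Finset.mem_Ico.2 ⟨hs1, hs2⟩)
      change step N (fun s => ω (s, 0 + ((0 : ℕ) : ℤ))) x s = b
      unfold step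
      simp only [Nat.cast_zero, add_zero, h6, Option.getD_some]
    have hLn : (0 : ℤ) ≤ L := Int.natCast_nonneg L
    have hjm : (j : ℤ) * (m * L) = (j * m) * L := by ring
    have hjm' : ((j : ℤ) + 1) * (m * L) = (j * m + m) * L := by ring
    apply hω
    have h0 : (0 : ℤ) ≤ (j : ℤ) * m := by positivity
    have hjM : ((j : ℤ) * m + m) ≤ n := by
      have : (j + 1) * m ≤ n := (Nat.mul_le_mul_right m (by omega : j + 1 ≤ M + 1)).trans hn
      have h7 : (((j + 1) * m : ℕ) : ℤ) ≤ n := by exact_mod_cast this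
      push_cast at h7
      nlinarith
    have hz := zone_layers hD (t₀ := 1) hW n 0 iL iR (run N ω 0 (fun _ => true) 1)
      (run N ω 0 (fun _ => false) 1) hL3 hR3
      (fun s hs1 hs2 => hval _ s (by rw [hjm]; nlinarith) (by rw [hjm']; nlinarith))
      (fun s hs1 hs2 => hval _ s (by rw [hjm]; nlinarith) (by rw [hjm']; nlinarith))
      (fun s hs1 hs2 => hval _ s (by rw [hjm]; nlinarith) (by rw [hjm']; nlinarith))
      (fun s hs1 hs2 => hval _ s (by rw [hjm]; nlinarith) (by rw [hjm']; nlinarith))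
      (fun s hs1 hs2 => by
        rw [hval _ s (by rw [hjm]; nlinarith) (by rw [hjm']; nlinarith),
          hval _ s (by rw [hjm]; nlinarith) (by rw [hjm']; nlinarith)]) 0
      (by nlinarith) (by
        have hL' : (1 : ℤ) ≤ L := by exact_mod_cast hL
        nlinarith)
    rw [run_add, run_add]
    simpa using hz
  have hindep : ∀ (j : ℕ) (c : ℤ), (Pm μ₀).real (seed b m L j ∩ {ω | ∀ i, (j : ℤ) * m ≤ i →
      i < j * m + m → ω ∈ dead (good L T g) c n 0 i}) ≤
        (μ₀.real {some b}) ^ (m * L) * (4 * (1 / 2) ^ m) := by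
    intro j c
    have h1 : FL {c : ℤ × ℤ | 1 ≤ c.2} {ω | ∀ i, (j : ℤ) * m ≤ i →
        i < j * m + m → ω ∈ dead (good L T g) c n 0 i} := by
      have h2 := hF.forall_mem 0 (Finset.Ico ((j : ℤ) * m) (j * m + m))
        (fun i => dead (good L T g) c n 0 i) fun i _ => hF.dead_mem c n 0 i
      have h3 : FL {c : ℤ × ℤ | 1 + ((0 : ℕ) : ℤ) * T ≤ c.2} _ := h2
      simp only [Finset.mem_Ico, and_imp, Nat.cast_zero, zero_mul, add_zero] at h3
      exact h3
    have h4 : FL {c : ℤ × ℤ | c.2 = 0} (seed b m L j) := (seed_FL b m L j).mono fun c hc => hc.1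
    rw [h4.indep μ₀ h1 ?_, prob_seed]
    · refine mul_le_mul_of_nonneg_left (dead_bound hF c n 0 _ m) ?_
      have : (0 : ℝ) ≤ μ₀.real {some b} := ENNReal.toReal_nonneg
      positivity
    · rw [Set.disjoint_left]
      intro c hc hc'
      simp only [mem_ofPred_eq] at hc hc'
      omega
  unfold D
  refine (measureReal_mono hsub (measure_ne_top _ _)).trans ?_
  refine (measureReal_union_le _ _).trans ?_
  refine add_le_add (prob_no_seed μ₀ b m L M).le ?_
  refine (measureReal_biUnion_finset_le _ _).trans ?_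
  have h1 : ∀ j ∈ Finset.range M, (Pm μ₀).real (seed b m L j ∩ dR j ∪ seed b m L j ∩ dL j) ≤
      (μ₀.real {some b}) ^ (m * L) * (8 * (1 / 2) ^ m) := by
    intro j _
    refine (measureReal_union_le _ _).trans ?_
    have h2 := hindep j 2
    have h3 := hindep j (-2)
    calc _ ≤ (μ₀.real {some b}) ^ (m * L) * (4 * (1 / 2) ^ m) +
          (μ₀.real {some b}) ^ (m * L) * (4 * (1 / 2) ^ m) := add_le_add h2 h3
      _ = _ := by ring
  refine (Finset.sum_le_sum h1).trans ?_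
  rw [Finset.sum_const, Finset.card_range, nsmul_eq_mul]

/-- The block criterion. -/
theorem decay_of_blocks {N : Finset ℤ} (hanti : Antitone (D μ₀ N)) {b : Bool} {D₁ L T w : ℕ}
    (hD : ∀ v ∈ N, |v| ≤ D₁) (hL : 1 ≤ L) (hb : 0 < μ₀.real {some b})
    {g : Set Om} (hg : FL (box w L T) g) (hgW : ∀ ω ∈ g, Wall N b D₁ L T ω 0 0)
    (hgP : (Pm μ₀).real gᶜ ≤ (3 / 64) ^ (2 * w + 1)) :
    Filter.Tendsto (D μ₀ N) Filter.atTop (nhds 0) := by
  have h0 : ∀ t, 0 ≤ D μ₀ N t := fun t => ENNReal.toReal_nonneg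
  have hlim : Filter.Tendsto (fun m : ℕ => Real.exp (-(m : ℝ)) + (m + 1) * (8 * (1 / 2 : ℝ) ^ m))
      Filter.atTop (nhds 0) := by
    have h1 : Filter.Tendsto (fun m : ℕ => Real.exp (-(m : ℝ))) Filter.atTop (nhds 0) :=
      Real.tendsto_exp_neg_atTop_nhds_zero.comp tendsto_natCast_atTop_atTop
    have h2 : Filter.Tendsto (fun m : ℕ => (m : ℝ) ^ 1 * (1 / 2 : ℝ) ^ m) Filter.atTop (nhds 0) :=
      tendsto_pow_const_mul_const_pow_of_abs_lt_one 1 (by rw [abs_of_pos] <;> norm_num)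
    have h3 : Filter.Tendsto (fun m : ℕ => (1 / 2 : ℝ) ^ m) Filter.atTop (nhds 0) :=
      tendsto_pow_atTop_nhds_zero_of_lt_one (by norm_num) (by norm_num)
    have h4 := h1.add ((h2.const_mul 8).add (h3.const_mul 8))
    simp only [mul_zero, add_zero] at h4
    refine h4.congr fun m => ?_
    rw [pow_one]
    ring
  rw [Metric.tendsto_atTop]
  intro e he
  rw [Metric.tendsto_atTop] at hlim
  obtain ⟨m, hm⟩ := hlim e he
  have hm' := hm m le_rfl
  rw [Real.dist_eq, sub_zero] at hm'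
  set σ : ℝ := (μ₀.real {some b}) ^ (m * L) with hσ
  have hσ0 : 0 < σ := by positivity
  have hσ1 : σ ≤ 1 := pow_le_one₀ hb.le measureReal_le_one
  obtain ⟨M, hM1, hM2⟩ : ∃ M : ℕ, (m : ℝ) ≤ σ * M ∧ σ * M ≤ m + 1 := by
    refine ⟨⌈(m : ℝ) / σ⌉₊, ?_, ?_⟩
    · have := Nat.le_ceil ((m : ℝ) / σ)
      rw [div_le_iff₀ hσ0] at this
      linarith
    · have := (Nat.ceil_lt_add_one (show 0 ≤ (m : ℝ) / σ by positivity)).le
      calc σ * (⌈(m : ℝ) / σ⌉₊ : ℝ) ≤ σ * ((m : ℝ) / σ + 1) :=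
            mul_le_mul_of_nonneg_left this hσ0.le
        _ = m + σ := by field_simp
        _ ≤ _ := by linarith
  refine ⟨1 + ((M + 1) * m) * T, fun t ht => ?_⟩
  rw [Real.dist_eq, sub_zero, abs_of_nonneg (h0 t)]
  have h1 := D_le μ₀ hD hL hg hgW hgP m M ((M + 1) * m) le_rfl
  rw [← hσ] at h1
  have h2 : (1 - σ) ^ M ≤ Real.exp (-(m : ℝ)) := by
    have h3 : 1 - σ ≤ Real.exp (-σ) := by
      have := Real.add_one_le_exp (-σ)
      linarith
    calc (1 - σ) ^ M ≤ (Real.exp (-σ)) ^ M := pow_le_pow_left₀ (by linarith) h3 M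
      _ = Real.exp (-(σ * M)) := by rw [← Real.exp_nat_mul]; congr 1; ring
      _ ≤ _ := Real.exp_le_exp.2 (by linarith)
  have h3 : (M : ℝ) * (σ * (8 * (1 / 2) ^ m)) ≤ (m + 1) * (8 * (1 / 2 : ℝ) ^ m) := by
    calc (M : ℝ) * (σ * (8 * (1 / 2) ^ m)) = (σ * M) * (8 * (1 / 2) ^ m) := by ring
      _ ≤ _ := mul_le_mul_of_nonneg_right hM2 (by positivity)
  calc D μ₀ N t ≤ D μ₀ N (1 + ((M + 1) * m) * T) := hanti ht
    _ ≤ Real.exp (-(m : ℝ)) + (m + 1) * (8 * (1 / 2 : ℝ) ^ m) := by linarith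
    _ ≤ |Real.exp (-(m : ℝ)) + (m + 1) * (8 * (1 / 2 : ℝ) ^ m)| := le_abs_self _
    _ < e := hm'

end Pool.Agent.Helper55.Vote
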