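import Pool.Agent.Helper55.Vote.Basic

/-! The decay of `D` gives ergodicity; monotonicity and shear invariance of `D`. -/

namespace Pool.Agent.Helper55.Vote

open MeasureTheory Set ProbabilityTheory

section Dlemmas

variable (μ₀ : Measure (Option Bool)) [IsProbabilityMeasure μ₀] (N : Finset ℤ)

lemma le_T (x : ℤ → Bool) (s : ℤ) : x s ≤ (fun _ : ℤ => true) s := Bool.le_true _

lemma F_le (x : ℤ → Bool) (s : ℤ) : (fun _ : ℤ => false) s ≤ x s := Bool.false_le _

/-- The disagreement event of the two extremal processes at the site `s`. -/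
def Dis (N : Finset ℤ) (t : ℕ) (s : ℤ) : Set Om :=
  {ω | run N ω 0 (fun _ => true) t s ≠ run N ω 0 (fun _ => false) t s}

lemma FL_ne (t₀ : ℤ) (x y : ℤ → Bool) (n : ℕ) (s : ℤ) :
    FL {c : ℤ × ℤ | t₀ ≤ c.2 ∧ c.2 < t₀ + n}
      {ω | run N ω t₀ x n s ≠ run N ω t₀ y n s} := by
  have h := ((FL.run N t₀ x n s true).inter (FL.run N t₀ y n s false)).union
    ((FL.run N t₀ x n s false).inter (FL.run N t₀ y n s true))
  convert h using 1
  ext ω
  simp only [mem_ofPred_eq, mem_union, mem_inter_iff]
  cases run N ω t₀ x n s <;> cases run N ω t₀ y n s <;> simp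

lemma Dis_meas (t : ℕ) (s : ℤ) : MeasurableSet (Dis N t s) := (FL_ne N 0 _ _ t s).meas

lemma shift_Dis (u k : ℤ) (t : ℕ) (s : ℤ) : shift (u, k) ⁻¹' (Dis N t s) =
    {ω | run N ω (0 + k) (fun _ => true) t (s + u) ≠
      run N ω (0 + k) (fun _ => false) t (s + u)} := by
  ext ω
  simp only [Dis, mem_preimage, mem_ofPred_eq, run_shift]

lemma prob_Dis (t : ℕ) (s : ℤ) : (Pm μ₀).real (Dis N t s) = D μ₀ N t := by
  have h := measure_shift μ₀ (s, 0) (Dis_meas N t 0)
  rw [shift_Dis] at h
  rw [show D μ₀ N t = (Pm μ₀).real (Dis N t 0) from rfl, ← h]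
  simp [Dis]

/-- `D` is nonincreasing. -/
theorem D_antitone : Antitone (D μ₀ N) := by
  refine antitone_nat_of_succ_le fun t => ?_
  have h := measure_shift μ₀ (0, 1) (Dis_meas N t 0)
  rw [shift_Dis] at h
  rw [← prob_Dis μ₀ N t 0, ← h]
  refine measureReal_mono ?_
  intro ω hω
  simp only [mem_ofPred_eq] at hω ⊢
  intro he
  apply hω
  rw [add_comm t 1, run_add, run_add]
  have h1 := run_mono N ω (0 + 1) (le_T (run N ω 0 (fun _ => true) 1)) t 0
  have h2 := run_mono N ω (0 + 1) (F_le (run N ω 0 (fun _ => false) 1)) t 0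
  have h3 := run_mono N ω (0 + 1) (fun s => run_mono N ω 0
    (x := fun _ => false) (y := fun _ => true) (fun _ => Bool.le_true _) 1 s) t 0
  rw [add_zero] at he
  have hc : ((1 : ℕ) : ℤ) = 1 := rfl
  rw [hc]
  refine le_antisymm ?_ h3
  exact h1.trans (he.le.trans h2)

/-- The shear of the set of space-time points. -/
def shearE (c : ℤ) : (ℤ × ℤ) ≃ (ℤ × ℤ) where
  toFun p := (p.1 - c * (p.2 + 1), p.2)
  invFun p := (p.1 + c * (p.2 + 1), p.2)
  left_inv p := by simp
  right_inv p := by simp

lemma run_shear (c : ℤ) (ω : Om) (x : ℤ → Bool) (n : ℕ) (u : ℤ) :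
    run (N.image fun v => v - c) (fun p => ω (shearE c p)) 0 x n u =
      run N ω 0 x n (u - c * n) := by
  induction n generalizing u with
  | zero => simp [run_zero]
  | succ n ih =>
    rw [run_succ, run_succ]
    unfold step
    have h1 : ω (shearE c (u, 0 + (n : ℤ))) = ω (u - c * ((n + 1 : ℕ) : ℤ), 0 + (n : ℤ)) := by
      simp [shearE]
    have h2 : maj (N.image fun v => v - c)
        (run (N.image fun v => v - c) (fun p => ω (shearE c p)) 0 x n) u =
        maj N (run N ω 0 x n) (u - c * ((n + 1 : ℕ) : ℤ)) := by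
      unfold maj
      have hinj : Function.Injective (fun v : ℤ => v - c) := sub_left_injective
      rw [Finset.card_image_of_injective _ hinj, Finset.filter_image,
        Finset.card_image_of_injective _ hinj]
      congr 4
      refine Finset.filter_congr fun j _ => ?_
      rw [ih]
      have : u + (j - c) - c * (n : ℤ) = u - c * ((n + 1 : ℕ) : ℤ) + j := by
        push_cast; ring
      rw [this]
    beta_reduce
    rw [h1, h2]

theorem D_shear (c : ℤ) (t : ℕ) : D μ₀ (N.image fun v => v - c) t = D μ₀ N t := by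
  have h := measure_perm μ₀ (shearE c) (Dis_meas (N.image fun v => v - c) t 0)
  rw [← prob_Dis μ₀ (N.image fun v => v - c) t 0, ← h, ← prob_Dis μ₀ N t (0 - c * t)]
  congr 1
  ext ω
  simp only [Dis, mem_preimage, mem_ofPred_eq, run_shear]

end Dlemmas

section Prod

variable (μ₀ : Measure (Option Bool)) [IsProbabilityMeasure μ₀]

lemma prob_prod (S : Finset ℤ) (k : ℤ) (s : ℤ → Set (Option Bool)) :
    (Pm μ₀).real {ω | ∀ i ∈ S, ω (i, k) ∈ s i} = ∏ i ∈ S, μ₀.real (s i) := by
  classical
  induction S using Finset.induction_on with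
  | empty => simp
  | insert i S hi ih =>
    have h1 : {ω : Om | ∀ j ∈ insert i S, ω (j, k) ∈ s j} =
        {ω | ω (i, k) ∈ s i} ∩ {ω | ∀ j ∈ S, ω (j, k) ∈ s j} := by
      ext ω; simp
    have hA : FL {(i, k)} {ω : Om | ω (i, k) ∈ s i} := FL.single _ (mem_singleton _) _
    have hB : FL ((fun j => (j, k)) '' (S : Set ℤ)) {ω : Om | ∀ j ∈ S, ω (j, k) ∈ s j} := by
      have := FL.biInter S (fun j => {ω : Om | ω (j, k) ∈ s j})
        (fun j hj => FL.single _ (mem_image_of_mem (fun j => (j, k)) (Finset.mem_coe.2 hj)) _)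
      convert this using 1
      ext ω; simp
    have hd : Disjoint ({(i, k)} : Set (ℤ × ℤ)) ((fun j => (j, k)) '' (S : Set ℤ)) := by
      rw [Set.disjoint_singleton_left]
      rintro ⟨j, hj, he⟩
      simp only [Prod.mk.injEq, and_true] at he
      exact hi (he ▸ hj)
    rw [h1, FL.indep μ₀ hA hB hd, prob_single, ih, Finset.prod_insert hi]

lemma FL_cyl {N : Finset ℤ} (t₀ : ℤ) (x : ℤ → Bool) (n : ℕ) (S : Finset ℤ) (a : ℤ → Bool) :
    FL {c : ℤ × ℤ | t₀ ≤ c.2 ∧ c.2 < t₀ + n} {ω | ∀ i ∈ S, run N ω t₀ x n i = a i} := by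
  have := FL.biInter S (fun i => {ω : Om | run N ω t₀ x n i = a i})
    (fun i _ => FL.run N t₀ x n i (a i))
  convert this using 1
  ext ω; simp

end Prod

lemma law_getD {ε δ : ℝ} (hε : 0 ≤ ε) (hδ : 0 ≤ δ) (h : ε + δ ≤ 1) (m b : Bool) :
    (law ε δ).real {o | o.getD m = b} =
      if m then (if b then 1 - ε else ε) else (if b then δ else 1 - δ) := by
  have : IsProbabilityMeasure (law ε δ) := law_prob hε hδ h
  cases m <;> cases b
  · have h1 : {o : Option Bool | o.getD false = false} = {some true}ᶜ := by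
      ext o; rcases o with _ | _ | _ <;> simp
    rw [h1, probReal_compl_eq_one_sub (Set.toFinite _).measurableSet, law_true hδ]; simp
  · have h1 : {o : Option Bool | o.getD false = true} = {some true} := by
      ext o; rcases o with _ | _ | _ <;> simp
    rw [h1, law_true hδ]; simp
  · have h1 : {o : Option Bool | o.getD true = false} = {some false} := by
      ext o; rcases o with _ | _ | _ <;> simp
    rw [h1, law_false hε]; simp
  · have h1 : {o : Option Bool | o.getD true = true} = {some false}ᶜ := by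
      ext o; rcases o with _ | _ | _ <;> simp
    rw [h1, probReal_compl_eq_one_sub (Set.toFinite _).measurableSet, law_false hε]; simp

section Patterns

/-- indicator configuration of a finite set -/
def pat (U : Finset ℤ) : ℤ → Bool := fun j => decide (j ∈ U)

/-- the cylinder of a configuration -/
def cyl (S : Finset ℤ) (a : ℤ → Bool) : Set (ℤ → Bool) := {y | ∀ i ∈ S, y i = a i}

lemma cyl_meas (S : Finset ℤ) (a : ℤ → Bool) : MeasurableSet (cyl S a) := by
  have : cyl S a = ⋂ i ∈ S, (fun y : ℤ → Bool => y i) ⁻¹' {a i} := by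
    ext y; simp [cyl]
  rw [this]
  exact Finset.measurableSet_biInter _ fun i _ => (measurable_pi_apply i) (measurableSet_singleton _)

lemma pat_filter (S : Finset ℤ) (x : ℤ → Bool) : x ∈ cyl S (pat (S.filter fun j => x j = true)) := by
  intro i hi
  simp only [pat, Finset.mem_filter, hi, true_and]
  cases x i <;> simp

lemma pat_unique {S U : Finset ℤ} (hU : U ⊆ S) {x : ℤ → Bool} (h : x ∈ cyl S (pat U)) :
    U = S.filter fun j => x j = true := by
  ext j
  rw [Finset.mem_filter]
  constructor
  · intro hj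
    refine ⟨hU hj, ?_⟩
    rw [h j (hU hj)]
    simp [pat, hj]
  · rintro ⟨hj, hx⟩
    rw [h j hj] at hx
    simpa [pat] using hx

/-- a function which depends only on the coordinates in `S` -/
def DepOn (S : Finset ℤ) {β : Type*} (f : (ℤ → Bool) → β) : Prop :=
  ∀ x y : ℤ → Bool, (∀ i ∈ S, x i = y i) → f x = f y

lemma DepOn.eq_sum {S : Finset ℤ} {f : (ℤ → Bool) → ℝ} (hf : DepOn S f) (x : ℤ → Bool) :
    f x = ∑ U ∈ S.powerset, f (pat U) * (cyl S (pat U)).indicator 1 x := by
  rw [Finset.sum_eq_single (S.filter fun j => x j = true)]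
  · rw [Set.indicator_of_mem (pat_filter S x)]
    simp only [Pi.one_apply, mul_one]
    exact hf _ _ (pat_filter S x)
  · intro U hU hne
    rw [Set.indicator_of_notMem, mul_zero]
    intro h
    exact hne (pat_unique (Finset.mem_powerset.1 hU) h)
  · intro h
    exact absurd (Finset.mem_powerset.2 (Finset.filter_subset _ _)) h

lemma DepOn.measurable {S : Finset ℤ} {f : (ℤ → Bool) → ℝ} (hf : DepOn S f) : Measurable f := by
  have : f = fun x => ∑ U ∈ S.powerset, f (pat U) * (cyl S (pat U)).indicator 1 x :=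
    funext hf.eq_sum
  rw [this]
  refine Finset.measurable_fun_sum _ fun U _ => ?_
  exact (measurable_one.indicator (cyl_meas S _)).const_mul _

lemma DepOn.integral {S : Finset ℤ} {f : (ℤ → Bool) → ℝ} (hf : DepOn S f)
    (μ : Measure (ℤ → Bool)) [IsProbabilityMeasure μ] :
    ∫ x, f x ∂μ = ∑ U ∈ S.powerset, f (pat U) * μ.real (cyl S (pat U)) := by
  calc ∫ x, f x ∂μ = ∫ x, ∑ U ∈ S.powerset, f (pat U) * (cyl S (pat U)).indicator 1 x ∂μ :=
        integral_congr_ae (Filter.Eventually.of_forall hf.eq_sum)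
    _ = ∑ U ∈ S.powerset, ∫ x, f (pat U) * (cyl S (pat U)).indicator 1 x ∂μ := by
        refine integral_finsetSum _ fun U _ => ?_
        refine Integrable.const_mul ?_ _
        exact (integrable_const (1 : ℝ)).indicator (cyl_meas S _)
    _ = ∑ U ∈ S.powerset, f (pat U) * μ.real (cyl S (pat U)) := by
        refine Finset.sum_congr rfl fun U _ => ?_
        rw [integral_const_mul, integral_indicator_one (cyl_meas S _)]

/-- The process at time `n` on `S` depends on finitely many initial values. -/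
lemma exists_dep (N : Finset ℤ) (n : ℕ) (S : Finset ℤ) : ∃ T : Finset ℤ,
    ∀ x y : ℤ → Bool, (∀ i ∈ T, x i = y i) → ∀ (ω : Om) (t₀ : ℤ), ∀ i ∈ S,
      run N ω t₀ x n i = run N ω t₀ y n i := by
  classical
  induction n generalizing S with
  | zero => exact ⟨S, fun x y h ω t₀ i hi => h i hi⟩
  | succ n ih =>
    obtain ⟨T, hT⟩ := ih (S.biUnion fun i => N.image fun j => i + j)
    refine ⟨T, fun x y h ω t₀ i hi => ?_⟩
    rw [run_succ, run_succ]
    unfold step
    congr 1
    unfold maj
    congr 4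
    refine Finset.filter_congr fun j hj => ?_
    rw [hT x y h ω t₀ (i + j) (Finset.mem_biUnion.2 ⟨i, hi, Finset.mem_image_of_mem _ hj⟩)]

end Patterns

section Main

variable {N : Finset ℤ} {ε δ : ℝ}

/-- the transition probabilities -/
noncomputable def gker (N : Finset ℤ) (ε δ : ℝ) (S : Finset ℤ) (a x : ℤ → Bool) : ℝ :=
  ∏ i ∈ S, (if N.card < 2 * (N.filter (fun j => x (i + j) = true)).card
    then (if a i then 1 - ε else ε) else (if a i then δ else 1 - δ))

lemma gker_dep (S : Finset ℤ) (a : ℤ → Bool) :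
    DepOn (S.biUnion fun i => N.image fun j => i + j) (gker N ε δ S a) := by
  classical
  intro x y h
  unfold gker
  refine Finset.prod_congr rfl fun i hi => ?_
  have : N.filter (fun j => x (i + j) = true) = N.filter (fun j => y (i + j) = true) := by
    refine Finset.filter_congr fun j hj => ?_
    rw [h (i + j) (Finset.mem_biUnion.2 ⟨i, hi, Finset.mem_image_of_mem _ hj⟩)]
  rw [this]

/-- probability of a cylinder at time `t` for the process started from `x` -/
noncomputable def pc (N : Finset ℤ) (μ₀ : Measure (Option Bool)) (t : ℕ) (S : Finset ℤ)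
    (a x : ℤ → Bool) : ℝ := (Pm μ₀).real {ω | ∀ i ∈ S, run N ω 0 x t i = a i}

lemma pc_step (hε : 0 ≤ ε) (hδ : 0 ≤ δ) (h : ε + δ ≤ 1) (t : ℕ) (S : Finset ℤ)
    (a x : ℤ → Bool) :
    pc N (law ε δ) (t + 1) S a x = ∑ U ∈ (S.biUnion fun i => N.image fun j => i + j).powerset,
      gker N ε δ S a (pat U) *
        pc N (law ε δ) t (S.biUnion fun i => N.image fun j => i + j) (pat U) x := by
  classical
  have : IsProbabilityMeasure (law ε δ) := law_prob hε hδ h
  set S' := S.biUnion fun i => N.image fun j => i + j with hS'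
  -- the conditional event
  have hev : ∀ U ∈ S'.powerset,
      gker N ε δ S a (pat U) * pc N (law ε δ) t S' (pat U) x =
        (Pm (law ε δ)).real ({ω | ∀ i ∈ S', run N ω 0 x t i = pat U i} ∩
          {ω | ∀ i ∈ S, run N ω 0 x (t + 1) i = a i}) := by
    intro U _
    have h1 : {ω | ∀ i ∈ S', run N ω 0 x t i = pat U i} ∩
          {ω | ∀ i ∈ S, run N ω 0 x (t + 1) i = a i} =
        {ω | ∀ i ∈ S', run N ω 0 x t i = pat U i} ∩
          {ω | ∀ i ∈ S, ω (i, (t : ℤ)) ∈ {o : Option Bool | o.getD (maj N (pat U) i) = a i}} := by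
      ext ω
      simp only [mem_inter_iff, mem_ofPred_eq, and_congr_right_iff]
      intro hU
      refine forall₂_congr fun i hi => ?_
      rw [run_succ]
      unfold step
      have h2 : maj N (run N ω 0 x t) i = maj N (pat U) i := by
        unfold maj
        congr 4
        refine Finset.filter_congr fun j hj => ?_
        rw [hU (i + j) (Finset.mem_biUnion.2 ⟨i, hi, Finset.mem_image_of_mem _ hj⟩)]
      rw [h2, zero_add]
    have hA := FL_cyl (N := N) 0 x t S' (pat U)
    have hB : FL {c : ℤ × ℤ | c.2 = t} {ω : Om | ∀ i ∈ S, ω (i, (t : ℤ)) ∈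
        {o : Option Bool | o.getD (maj N (pat U) i) = a i}} := by
      have := FL.biInter S (fun i => {ω : Om | ω (i, (t : ℤ)) ∈
          {o : Option Bool | o.getD (maj N (pat U) i) = a i}})
        (fun i _ => FL.single (R := {c : ℤ × ℤ | c.2 = t}) (i, (t : ℤ)) (by simp) _)
      convert this using 1
      ext ω; simp
    have hd : Disjoint {c : ℤ × ℤ | 0 ≤ c.2 ∧ c.2 < 0 + (t : ℤ)} {c : ℤ × ℤ | c.2 = t} := by
      rw [Set.disjoint_left]
      rintro c ⟨-, hc⟩ hc'
      simp only [mem_ofPred_eq] at hc'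
      omega
    rw [h1, FL.indep _ hA hB hd, prob_prod, mul_comm]
    congr 1
    unfold gker
    refine Finset.prod_congr rfl fun i _ => ?_
    rw [law_getD hε hδ h]
    unfold maj
    simp only [decide_eq_true_eq]
  rw [Finset.sum_congr rfl hev]
  have hpart : {ω | ∀ i ∈ S, run N ω 0 x (t + 1) i = a i} =
      ⋃ U ∈ S'.powerset, ({ω | ∀ i ∈ S', run N ω 0 x t i = pat U i} ∩
          {ω | ∀ i ∈ S, run N ω 0 x (t + 1) i = a i}) := by
    ext ω
    simp only [mem_iUnion, mem_inter_iff, exists_prop]
    constructor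
    · intro hω
      exact ⟨S'.filter fun j => run N ω 0 x t j = true,
        Finset.mem_powerset.2 (Finset.filter_subset _ _), pat_filter S' (run N ω 0 x t), hω⟩
    · rintro ⟨U, _, _, hω⟩
      exact hω
  unfold pc
  conv_lhs => rw [hpart]
  rw [measureReal_biUnion_finset]
  · intro U hU V hV hne
    rw [Function.onFun, Set.disjoint_left]
    rintro ω ⟨h1, -⟩ ⟨h2, -⟩
    exact hne ((pat_unique (Finset.mem_powerset.1 hU) h1).trans
      (pat_unique (Finset.mem_powerset.1 hV) h2).symm)
  · intro U _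
    exact (FL_cyl 0 x t S' (pat U)).meas.inter (FL_cyl 0 x (t + 1) S a).meas

lemma pc_dep (μ₀ : Measure (Option Bool)) (t : ℕ) (S : Finset ℤ) (a : ℤ → Bool) :
    ∃ T : Finset ℤ, DepOn T (pc N μ₀ t S a) := by
  obtain ⟨T, hT⟩ := exists_dep N t S
  refine ⟨T, fun x y h => ?_⟩
  unfold pc
  congr 1
  ext ω
  simp only [mem_ofPred_eq]
  refine forall₂_congr fun i hi => ?_
  rw [hT x y h ω 0 i hi]

lemma pc_nonneg (μ₀ : Measure (Option Bool)) (t : ℕ) (S : Finset ℤ) (a x : ℤ → Bool) :
    0 ≤ pc N μ₀ t S a x := measureReal_nonneg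

lemma pc_le_one (μ₀ : Measure (Option Bool)) [IsProbabilityMeasure μ₀] (t : ℕ) (S : Finset ℤ)
    (a x : ℤ → Bool) : pc N μ₀ t S a x ≤ 1 := measureReal_le_one

lemma pc_integrable (μ₀ : Measure (Option Bool)) [IsProbabilityMeasure μ₀] (t : ℕ)
    (S : Finset ℤ) (a : ℤ → Bool) (μ : Measure (ℤ → Bool)) [IsProbabilityMeasure μ] :
    Integrable (pc N μ₀ t S a) μ := by
  obtain ⟨T, hT⟩ := pc_dep (N := N) μ₀ t S a
  refine Integrable.of_bound hT.measurable.aestronglyMeasurable 1 ?_
  refine Filter.Eventually.of_forall fun x => ?_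
  rw [Real.norm_eq_abs, abs_of_nonneg (pc_nonneg _ _ _ _ _)]
  exact pc_le_one _ _ _ _ _

/-- The law at time `t` of the chain is the law of the driven process. -/
lemma law_eq (hε : 0 ≤ ε) (hδ : 0 ≤ δ) (h : ε + δ ≤ 1) (μ : ℕ → Measure (ℤ → Bool))
    (hμ : ∀ t, IsProbabilityMeasure (μ t))
    (hrec : ∀ (t : ℕ) (S : Finset ℤ) (a : ℤ → Bool),
        (μ (t + 1)).real (cyl S a) = ∫ x, gker N ε δ S a x ∂(μ t))
    (t : ℕ) (S : Finset ℤ) (a : ℤ → Bool) :
    (μ t).real (cyl S a) = ∫ x, pc N (law ε δ) t S a x ∂(μ 0) := by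
  have hp : IsProbabilityMeasure (law ε δ) := law_prob hε hδ h
  induction t generalizing S a with
  | zero =>
    have : ∀ x, pc N (law ε δ) 0 S a x = (cyl S a).indicator 1 x := by
      intro x
      unfold pc
      simp only [run_zero]
      by_cases hx : x ∈ cyl S a
      · rw [Set.indicator_of_mem hx]
        have : {ω : Om | ∀ i ∈ S, x i = a i} = Set.univ := by
          ext ω
          simp only [mem_ofPred_eq, mem_univ, iff_true]
          exact hx
        rw [this]; simp
      · rw [Set.indicator_of_notMem hx]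
        have : {ω : Om | ∀ i ∈ S, x i = a i} = ∅ := by
          ext ω
          simp only [mem_ofPred_eq, mem_empty_iff_false, iff_false]
          exact hx
        rw [this]; simp
    simp only [this]
    rw [integral_indicator_one (cyl_meas S a)]
  | succ t ih =>
    rw [hrec, (gker_dep S a).integral (μ t)]
    simp only [pc_step hε hδ h]
    rw [integral_finsetSum]
    · refine Finset.sum_congr rfl fun U _ => ?_
      rw [integral_const_mul, ih]
    · intro U _
      exact (pc_integrable _ _ _ _ _).const_mul _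

lemma pc_diff (μ₀ : Measure (Option Bool)) [IsProbabilityMeasure μ₀] (t : ℕ) (S : Finset ℤ)
    (a x : ℤ → Bool) :
    |pc N μ₀ t S a x - pc N μ₀ t S a (fun _ => false)| ≤ S.card * D μ₀ N t := by
  have key : ∀ x y : ℤ → Bool, {ω : Om | ∀ i ∈ S, run N ω 0 x t i = a i} ⊆
      {ω : Om | ∀ i ∈ S, run N ω 0 y t i = a i} ∪ ⋃ i ∈ S, Dis N t i := by
    intro x y ω hω
    by_cases h : ∀ i ∈ S, run N ω 0 x t i = run N ω 0 y t i
    · left
      intro i hi
      rw [← h i hi]
      exact hω i hi
    · right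
      push Not at h
      obtain ⟨i, hi, hne⟩ := h
      simp only [mem_iUnion, exists_prop]
      refine ⟨i, hi, ?_⟩
      intro he
      apply hne
      have h1 := run_mono N ω 0 (le_T x) t i
      have h2 := run_mono N ω 0 (F_le x) t i
      have h3 := run_mono N ω 0 (le_T y) t i
      have h4 := run_mono N ω 0 (F_le y) t i
      exact le_antisymm (h1.trans (he.le.trans h4)) (h3.trans (he.le.trans h2))
  have hb : (Pm μ₀).real (⋃ i ∈ S, Dis N t i) ≤ S.card * D μ₀ N t := by
    refine (measureReal_biUnion_finset_le S _).trans ?_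
    simp only [prob_Dis, Finset.sum_const, nsmul_eq_mul, le_refl]
  have key2 : ∀ x y : ℤ → Bool, pc N μ₀ t S a x ≤ pc N μ₀ t S a y + S.card * D μ₀ N t := by
    intro x y
    refine (measureReal_mono (key x y)).trans ((measureReal_union_le _ _).trans ?_)
    exact add_le_add le_rfl hb
  rw [abs_le]
  constructor
  · have := key2 (fun _ => false) x
    linarith
  · have := key2 x (fun _ => false)
    linarith

/-- the limit of the processes started from all zeros at time `-t` -/
noncomputable def Yinf (N : Finset ℤ) (ω : Om) (s : ℤ) : Bool := by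
  classical
  exact decide (∃ t : ℕ, run N ω (-t) (fun _ => false) t s = true)

lemma back_mono (ω : Om) (s : ℤ) :
    Monotone fun t : ℕ => run N ω (-t) (fun _ => false) t s := by
  refine monotone_nat_of_le_succ fun t => ?_
  rw [show t + 1 = 1 + t by omega, run_add]
  have h := run_mono N ω (-(t : ℤ))
    (F_le (run N ω (-((1 + t : ℕ) : ℤ)) (fun _ => false) 1)) t s
  have : -((1 + t : ℕ) : ℤ) + ((1 : ℕ) : ℤ) = -(t : ℤ) := by push_cast; ring
  rw [this]
  exact h

lemma back_eventually (ω : Om) (s : ℤ) :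
    ∀ᶠ t : ℕ in Filter.atTop, run N ω (-t) (fun _ => false) t s = Yinf N ω s := by
  classical
  by_cases h : ∃ t : ℕ, run N ω (-t) (fun _ => false) t s = true
  · obtain ⟨t₀, ht₀⟩ := h
    filter_upwards [Filter.eventually_ge_atTop t₀] with t ht
    have h1 : run N ω (-t) (fun _ => false) t s = true := by
      have := back_mono (N := N) ω s ht
      simp only at this
      rw [ht₀] at this
      exact top_le_iff.1 this
    rw [h1, Yinf, eq_comm, decide_eq_true_eq]
    exact ⟨t₀, ht₀⟩
  · refine Filter.Eventually.of_forall fun t => ?_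
    have h1 : run N ω (-t) (fun _ => false) t s = false := by
      rw [← Bool.not_eq_true]
      exact fun h2 => h ⟨t, h2⟩
    rw [h1, Yinf, eq_comm, decide_eq_false_iff_not]
    exact h

lemma Yinf_meas : Measurable (Yinf N) := by
  classical
  refine measurable_pi_lambda _ fun s => ?_
  refine measurable_to_bool ?_
  have : (fun ω => Yinf N ω s) ⁻¹' {true} =
      ⋃ t : ℕ, {ω | run N ω (-t) (fun _ => false) t s = true} := by
    ext ω
    simp [Yinf]
  rw [this]
  exact MeasurableSet.iUnion fun t => (FL.run N _ _ _ _ _).meas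

lemma pc_shift (μ₀ : Measure (Option Bool)) [IsProbabilityMeasure μ₀] (t : ℕ) (S : Finset ℤ)
    (a : ℤ → Bool) : pc N μ₀ t S a (fun _ => false) =
      (Pm μ₀).real {ω | ∀ i ∈ S, run N ω (-t) (fun _ => false) t i = a i} := by
  have h := measure_shift μ₀ (0, -(t : ℤ)) (FL_cyl (N := N) 0 (fun _ => false) t S a).meas
  unfold pc
  rw [← h]
  congr 1
  ext ω
  simp only [mem_preimage, mem_ofPred_eq, run_shift, zero_add, add_zero]

lemma pc_tendsto (μ₀ : Measure (Option Bool)) [IsProbabilityMeasure μ₀] (S : Finset ℤ)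
    (a : ℤ → Bool) : Filter.Tendsto (fun t => pc N μ₀ t S a (fun _ => false)) Filter.atTop
      (nhds (((Pm μ₀).map (Yinf N)).real (cyl S a))) := by
  have h1 : ((Pm μ₀).map (Yinf N)).real (cyl S a) =
      (Pm μ₀).real {ω | ∀ i ∈ S, Yinf N ω i = a i} := by
    rw [Measure.real, Measure.map_apply Yinf_meas (cyl_meas S a)]
    rfl
  have hmeas : MeasurableSet {ω : Om | ∀ i ∈ S, Yinf N ω i = a i} :=
    Yinf_meas (cyl_meas S a)
  rw [h1]
  simp only [pc_shift]
  refine (ENNReal.tendsto_toReal (measure_ne_top _ _)).comp ?_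
  refine tendsto_measure_of_tendsto_indicator_of_isFiniteMeasure Filter.atTop (Pm μ₀)
    (fun t : ℕ => (FL_cyl (N := N) (-(t : ℤ)) (fun _ => false) t S a).meas) fun ω => ?_
  have h2 : ∀ᶠ t : ℕ in Filter.atTop, ∀ i ∈ S, run N ω (-t) (fun _ => false) t i = Yinf N ω i :=
    (Filter.eventually_all_finset S).2 fun i _ => back_eventually ω i
  filter_upwards [h2] with t ht
  exact forall₂_congr fun i hi => by rw [ht i hi]

end Main

/-- Criterion. -/
theorem ergodic_of_decay (N : Finset ℤ) (ε δ : ℝ) (hε : 0 < ε) (hδ : 0 < δ) (h1 : ε + δ ≤ 1)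
    (hD : Filter.Tendsto (fun t => D (law ε δ) N t) Filter.atTop (nhds 0)) :
    Ergodic N ε δ := by
  have hp : IsProbabilityMeasure (law ε δ) := law_prob hε.le hδ.le h1
  refine ⟨(Pm (law ε δ)).map (Yinf N), Measure.isProbabilityMeasure_map Yinf_meas.aemeasurable,
    ?_⟩
  intro μ hμ hrec S a
  have hlaw := law_eq (N := N) hε.le hδ.le h1 μ hμ hrec
  have hlim := pc_tendsto (N := N) (law ε δ) S a
  have hdiff : Filter.Tendsto (fun t => (μ t).real (cyl S a) -
      pc N (law ε δ) t S a (fun _ => false)) Filter.atTop (nhds 0) := by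
    have hbound : ∀ t, |(μ t).real (cyl S a) - pc N (law ε δ) t S a (fun _ => false)| ≤
        S.card * D (law ε δ) N t := by
      intro t
      have h0 := hμ 0
      have h2 : (μ t).real (cyl S a) - pc N (law ε δ) t S a (fun _ => false) =
          ∫ x, (pc N (law ε δ) t S a x - pc N (law ε δ) t S a (fun _ => false)) ∂(μ 0) := by
        rw [integral_sub (pc_integrable _ _ _ _ _) (integrable_const _), hlaw t S a]
        simp
      rw [h2, ← Real.norm_eq_abs]
      have h3 := norm_integral_le_of_norm_le_const (μ := μ 0)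
        (f := fun x => pc N (law ε δ) t S a x - pc N (law ε δ) t S a (fun _ => false))
        (C := S.card * D (law ε δ) N t)
        (Filter.Eventually.of_forall fun x => by
          rw [Real.norm_eq_abs]
          exact pc_diff _ t S a x)
      simpa using h3
    refine squeeze_zero_norm hbound ?_
    simpa using hD.const_mul (S.card : ℝ)
  have := hdiff.add hlim
  simp only [sub_add_cancel, zero_add] at this
  exact this

end Pool.Agent.Helper55.Vote
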