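import Mathlib

/-! Noisy one-dimensional majority voting: the process driven by a noise field. -/

namespace Pool.Agent.Helper55.Vote

open MeasureTheory Set

instance instMeasOptionBool : MeasurableSpace (Option Bool) := ⊤

instance : DiscreteMeasurableSpace (Option Bool) := ⟨fun _ => trivial⟩

/-- Noise fields: `ω (s, k)` is the noise at the site `s` in the step from time `k` to time
`k + 1` (`none`: no noise, `some b`: the site is set to `b`). -/
abbrev Om := ℤ × ℤ → Option Bool

/-- the majority rule with neighbourhood `N` -/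
def maj (N : Finset ℤ) (x : ℤ → Bool) (s : ℤ) : Bool :=
  decide (N.card < 2 * (N.filter fun j => x (s + j) = true).card)

/-- one step with noise `w` -/
def step (N : Finset ℤ) (w : ℤ → Option Bool) (x : ℤ → Bool) (s : ℤ) : Bool :=
  (w s).getD (maj N x s)

/-- the state at time `t₀ + n` of the process started from `x` at time `t₀` -/
def run (N : Finset ℤ) (ω : Om) (t₀ : ℤ) (x : ℤ → Bool) : ℕ → ℤ → Bool
  | 0 => x
  | n + 1 => step N (fun s => ω (s, t₀ + n)) (run N ω t₀ x n)

/-- the law of the noise at one site: `1` with probability `δ`, `0` with probability `ε` -/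
noncomputable def law (ε δ : ℝ) : Measure (Option Bool) :=
  ENNReal.ofReal (1 - ε - δ) • Measure.dirac none + ENNReal.ofReal δ • Measure.dirac (some true) +
    ENNReal.ofReal ε • Measure.dirac (some false)

/-- the law of an i.i.d. noise field -/
noncomputable def Pm (μ₀ : Measure (Option Bool)) : Measure Om := Measure.infinitePi fun _ => μ₀

/-- the probability that the processes started from all ones and from all zeros at time `0`
differ at the origin at time `t` -/
noncomputable def D (μ₀ : Measure (Option Bool)) (N : Finset ℤ) (t : ℕ) : ℝ :=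
  (Pm μ₀).real {ω | run N ω 0 (fun _ => true) t 0 ≠ run N ω 0 (fun _ => false) t 0}

/-- Ergodicity of the noisy voting, in the form of the frozen statement. -/
def Ergodic (N : Finset ℤ) (ε δ : ℝ) : Prop :=
  ∃ ν : MeasureTheory.Measure (ℤ → Bool), MeasureTheory.IsProbabilityMeasure ν ∧
    ∀ μ : ℕ → MeasureTheory.Measure (ℤ → Bool),
      (∀ t, MeasureTheory.IsProbabilityMeasure (μ t)) →
      (∀ (t : ℕ) (S : Finset ℤ) (a : ℤ → Bool),
        (μ (t + 1)).real {y : ℤ → Bool | ∀ i ∈ S, y i = a i} =
          ∫ x, (∏ i ∈ S,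
            (if N.card < 2 * (N.filter (fun j => x (i + j) = true)).card
              then (if a i then 1 - ε else ε)
              else (if a i then δ else 1 - δ))) ∂(μ t)) →
      ∀ (S : Finset ℤ) (a : ℤ → Bool),
        Filter.Tendsto (fun t => (μ t).real {y : ℤ → Bool | ∀ i ∈ S, y i = a i})
          Filter.atTop (nhds (ν.real {y : ℤ → Bool | ∀ i ∈ S, y i = a i}))

/-- the event `A` depends only on the noise at finitely many points of `R` -/
def FL (R : Set (ℤ × ℤ)) (A : Set Om) : Prop :=
  ∃ J : Finset (ℤ × ℤ), (J : Set (ℤ × ℤ)) ⊆ R ∧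
    ∀ ω ω' : Om, (∀ c ∈ J, ω c = ω' c) → ω ∈ A → ω' ∈ A

/-- shift of a noise field -/
def shift (v : ℤ × ℤ) (ω : Om) : Om := fun c => ω (c + v)

end Pool.Agent.Helper55.Vote
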