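import Pool.Agent.Helper55.Vote.Basic

/-! The boundary walks: definitions. -/

namespace Pool.Agent.Helper55.Vote

open MeasureTheory Set ProbabilityTheory

/-- the increment of the boundary walk at the position `x` and the time index `i` -/
def xi (b : Bool) (A B : Finset ℤ) (ω : Om) (i x : ℤ) : ℤ :=
  if ∃ v ∈ A, ω (x + v, i) = some (!b) then -1
  else if ∃ v ∈ B, ω (x + v, i) = some b then 1 else 0

/-- the boundary walk started at `x` at the time index `i` -/
def walk (b : Bool) (σ : ℤ) (A B : Finset ℤ) (ω : Om) (i x : ℤ) : ℕ → ℤ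
  | 0 => x
  | n + 1 => walk b σ A B ω i x n + σ * xi b A B ω (i + n) (walk b σ A B ω i x n)

/-- no two noises at the same time within distance `d` in `[lo, hi) × [0, T)` -/
def Sparse (d : ℕ) (lo hi : ℤ) (T : ℕ) : Set Om :=
  {ω | ∀ i, 0 ≤ i → i < (T : ℤ) → ∀ s s', lo ≤ s → s < hi → lo ≤ s' → s' < hi → s ≠ s' →
    |s - s'| ≤ d → ω (s, i) = none ∨ ω (s', i) = none}

end Pool.Agent.Helper55.Vote
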