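import Pool.Agent.Helper55.Vote.Zone
import Pool.Agent.Helper55.Vote.WalkDefs

/-! The weakly biased regime, deterministic part: if the noise is sparse, the two boundary walks
carry a wall. -/

namespace Pool.Agent.Helper55.Vote.MB

open MeasureTheory Set

variable {N : Finset ℤ} {n D₁ : ℕ} {b : Bool}

lemma maj_eq (hn : N.card = 2 * n + 1) {x : ℤ → Bool} {s : ℤ} (S : Finset ℤ) (hS : S ⊆ N)
    (hc : n + 1 ≤ S.card) (hx : ∀ v ∈ S, x (s + v) = b) : maj N x s = b := by
  unfold maj
  cases b with
  | true =>
    have h1 : S ⊆ N.filter fun j => x (s + j) = true := fun v hv =>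
      Finset.mem_filter.2 ⟨hS hv, hx v hv⟩
    have h2 := Finset.card_le_card h1
    rw [decide_eq_true_iff]
    omega
  | false =>
    have h1 : S ⊆ N.filter fun j => ¬ x (s + j) = true := fun v hv =>
      Finset.mem_filter.2 ⟨hS hv, by rw [hx v hv]; simp⟩
    have h2 := Finset.card_le_card h1
    have h3 := Finset.card_filter_add_card_filter_not (s := N) (fun j => x (s + j) = true)
    rw [decide_eq_false_iff_not]
    omega

/-- the hypotheses on the neighbourhood: median `0` and `-1, 1 ∈ N` -/
structure Mid (N : Finset ℤ) (n D₁ : ℕ) : Prop where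
  card : N.card = 2 * n + 1
  bd : ∀ v ∈ N, |v| ≤ D₁
  zero : (0 : ℤ) ∈ N
  one : (1 : ℤ) ∈ N
  neg : (-1 : ℤ) ∈ N
  right : (N.filter fun v => 0 ≤ v).card = n + 1
  left : (N.filter fun v => v ≤ 0).card = n + 1

/-- one step of the evolution of a run -/
lemma step_run (h : Mid N n D₁) {x : ℤ → Bool} {u : ℤ → Option Bool} {p q p' q' : ℤ}
    (hlen : p + 2 * D₁ + 2 ≤ q)
    (hx : ∀ s, p ≤ s → s ≤ q → x s = b ∨ u s = some (!b))
    (hu : ∀ s, u s = some b → x s = b)
    (hsp : ∀ s s', p - D₁ - 1 ≤ s → s ≤ q + D₁ + 1 → p - D₁ - 1 ≤ s' → s' ≤ q + D₁ + 1 → s ≠ s' →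
      |s - s'| ≤ 2 * D₁ + 1 → u s = none ∨ u s' = none)
    (hq1 : q' ≤ q + 1) (hq2 : q' = q + 1 → ∃ v ∈ N, 0 ≤ v ∧ u (q + 1 + v) = some b)
    (hq3 : (∃ v ∈ N, v ≤ 0 ∧ u (q + v) = some (!b)) → q' ≤ q - 1)
    (hp1 : p - 1 ≤ p') (hp2 : p' = p - 1 → ∃ v ∈ N, v ≤ 0 ∧ u (p - 1 + v) = some b)
    (hp3 : (∃ v ∈ N, 0 ≤ v ∧ u (p + v) = some (!b)) → p + 1 ≤ p')
    {s : ℤ} (hs1 : p' ≤ s) (hs2 : s ≤ q') : maj N x s = b := by
  have hD : ∀ v ∈ N, -(D₁ : ℤ) ≤ v ∧ v ≤ D₁ := fun v hv => abs_le.1 (h.bd v hv)
  have hD1 : (1 : ℤ) ≤ D₁ := (hD 1 h.one).2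
  have c1 : (N.filter fun v => v < 0).card = n := by
    have e : N.filter (fun v => v ≤ 0) = insert 0 (N.filter fun v => v < 0) := by
      ext v
      simp only [Finset.mem_filter, Finset.mem_insert]
      constructor
      · rintro ⟨h1, h2⟩
        rcases h2.lt_or_eq with h3 | h3
        · exact Or.inr ⟨h1, h3⟩
        · exact Or.inl h3
      · rintro (h1 | ⟨h1, h2⟩)
        · rw [h1]; exact ⟨h.zero, le_rfl⟩
        · exact ⟨h1, h2.le⟩
    have h1 := h.left
    rw [e, Finset.card_insert_of_notMem (by simp)] at h1
    omega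
  have c2 : (N.filter fun v => 0 < v).card = n := by
    have e : N.filter (fun v => 0 ≤ v) = insert 0 (N.filter fun v => 0 < v) := by
      ext v
      simp only [Finset.mem_filter, Finset.mem_insert]
      constructor
      · rintro ⟨h1, h2⟩
        rcases h2.lt_or_eq with h3 | h3
        · exact Or.inr ⟨h1, h3⟩
        · exact Or.inl h3.symm
      · rintro (h1 | ⟨h1, h2⟩)
        · rw [h1]; exact ⟨h.zero, le_rfl⟩
        · exact ⟨h1, h2.le⟩
    have h1 := h.right
    rw [e, Finset.card_insert_of_notMem (by simp)] at h1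
    omega
  rcases lt_or_ge q s with hqs | hqs
  · -- `s = q + 1`
    have hsq : s = q + 1 := by omega
    obtain ⟨v₀, hv0, hv1, hv2⟩ := hq2 (by omega)
    have hv3 := hD v₀ hv0
    refine maj_eq h.card (insert v₀ (N.filter fun v => v < 0)) ?_ ?_ ?_
    · intro v hv
      rcases Finset.mem_insert.1 hv with h1 | h1
      · rw [h1]; exact hv0
      · exact (Finset.mem_filter.1 h1).1
    · rw [Finset.card_insert_of_notMem (by simp [hv1]), c1]
    · intro v hv
      rcases Finset.mem_insert.1 hv with h1 | h1
      · rw [h1, hsq]; exact hu _ hv2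
      · obtain ⟨h2, h3⟩ := Finset.mem_filter.1 h1
        have h4 := hD v h2
        rcases hx (s + v) (by omega) (by omega) with h5 | h5
        · exact h5
        · exfalso
          rcases hsp (s + v) (q + 1 + v₀) (by omega) (by omega) (by omega) (by omega) (by omega)
            (by rw [abs_le]; omega) with h6 | h6
          · rw [h6] at h5; simp at h5
          · rw [h6] at hv2; simp at hv2
  · rcases lt_or_ge s p with hps | hps
    · -- `s = p - 1`
      have hsq : s = p - 1 := by omega
      obtain ⟨v₀, hv0, hv1, hv2⟩ := hp2 (by omega)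
      have hv3 := hD v₀ hv0
      refine maj_eq h.card (insert v₀ (N.filter fun v => 0 < v)) ?_ ?_ ?_
      · intro v hv
        rcases Finset.mem_insert.1 hv with h1 | h1
        · rw [h1]; exact hv0
        · exact (Finset.mem_filter.1 h1).1
      · rw [Finset.card_insert_of_notMem (by simp [hv1]), c2]
      · intro v hv
        rcases Finset.mem_insert.1 hv with h1 | h1
        · rw [h1, hsq]; exact hu _ hv2
        · obtain ⟨h2, h3⟩ := Finset.mem_filter.1 h1
          have h4 := hD v h2
          rcases hx (s + v) (by omega) (by omega) with h5 | h5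
          · exact h5
          · exfalso
            rcases hsp (s + v) (p - 1 + v₀) (by omega) (by omega) (by omega) (by omega) (by omega)
              (by rw [abs_le]; omega) with h6 | h6
            · rw [h6] at h5; simp at h5
            · rw [h6] at hv2; simp at hv2
    · rcases le_or_gt s (q - D₁) with hs3 | hs3
      · -- the right half is in the run
        by_cases hex : ∃ v ∈ N, 0 ≤ v ∧ u (s + v) = some (!b)
        · obtain ⟨v₀, hv0, hv1, hv2⟩ := hex
          have hv3 := hD v₀ hv0
          have hsp1 : p + 1 ≤ s := by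
            by_contra hcon
            have h1 : s = p := by omega
            rw [h1] at hv2
            have := hp3 ⟨v₀, hv0, hv1, hv2⟩
            omega
          have key : ∀ y, p ≤ y → y ≤ q → y ≠ s + v₀ → |y - (s + v₀)| ≤ 2 * D₁ + 1 → x y = b := by
            intro y hy1 hy2 hy3 hy4
            rcases hx y hy1 hy2 with h5 | h5
            · exact h5
            · exfalso
              rcases hsp y (s + v₀) (by omega) (by omega) (by omega) (by omega) hy3 hy4 with h6 | h6
              · rw [h6] at h5; simp at h5
              · rw [h6] at hv2; simp at hv2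
          refine maj_eq h.card (insert (-1) ((N.filter fun v => 0 ≤ v).erase v₀)) ?_ ?_ ?_
          · intro v hv
            rcases Finset.mem_insert.1 hv with h1 | h1
            · rw [h1]; exact h.neg
            · exact (Finset.mem_filter.1 (Finset.mem_of_mem_erase h1)).1
          · rw [Finset.card_insert_of_notMem (by simp), Finset.card_erase_of_mem
              (Finset.mem_filter.2 ⟨hv0, hv1⟩), h.right]
            omega
          · intro v hv
            rcases Finset.mem_insert.1 hv with h1 | h1
            · rw [h1]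
              exact key _ (by omega) (by omega) (by omega) (by rw [abs_le]; omega)
            · obtain ⟨h2, h3⟩ := Finset.mem_erase.1 h1
              obtain ⟨h4, h5⟩ := Finset.mem_filter.1 h3
              have h6 := hD v h4
              exact key _ (by omega) (by omega) (by omega) (by rw [abs_le]; omega)
        · push Not at hex
          refine maj_eq h.card (N.filter fun v => 0 ≤ v) (Finset.filter_subset _ _) h.right.ge ?_
          intro v hv
          obtain ⟨h4, h5⟩ := Finset.mem_filter.1 hv
          have h6 := hD v h4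
          rcases hx (s + v) (by omega) (by omega) with h7 | h7
          · exact h7
          · exact absurd h7 (hex v h4 h5)
      · -- the left half is in the run
        by_cases hex : ∃ v ∈ N, v ≤ 0 ∧ u (s + v) = some (!b)
        · obtain ⟨v₀, hv0, hv1, hv2⟩ := hex
          have hv3 := hD v₀ hv0
          have hsp1 : s ≤ q - 1 := by
            by_contra hcon
            have h1 : s = q := by omega
            rw [h1] at hv2
            have := hq3 ⟨v₀, hv0, hv1, hv2⟩
            omega
          have key : ∀ y, p ≤ y → y ≤ q → y ≠ s + v₀ → |y - (s + v₀)| ≤ 2 * D₁ + 1 → x y = b := by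
            intro y hy1 hy2 hy3 hy4
            rcases hx y hy1 hy2 with h5 | h5
            · exact h5
            · exfalso
              rcases hsp y (s + v₀) (by omega) (by omega) (by omega) (by omega) hy3 hy4 with h6 | h6
              · rw [h6] at h5; simp at h5
              · rw [h6] at hv2; simp at hv2
          refine maj_eq h.card (insert 1 ((N.filter fun v => v ≤ 0).erase v₀)) ?_ ?_ ?_
          · intro v hv
            rcases Finset.mem_insert.1 hv with h1 | h1
            · rw [h1]; exact h.one
            · exact (Finset.mem_filter.1 (Finset.mem_of_mem_erase h1)).1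
          · rw [Finset.card_insert_of_notMem (by simp), Finset.card_erase_of_mem
              (Finset.mem_filter.2 ⟨hv0, hv1⟩), h.left]
            omega
          · intro v hv
            rcases Finset.mem_insert.1 hv with h1 | h1
            · rw [h1]
              exact key _ (by omega) (by omega) (by omega) (by rw [abs_le]; omega)
            · obtain ⟨h2, h3⟩ := Finset.mem_erase.1 h1
              obtain ⟨h4, h5⟩ := Finset.mem_filter.1 h3
              have h6 := hD v h4
              exact key _ (by omega) (by omega) (by omega) (by rw [abs_le]; omega)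
        · push Not at hex
          refine maj_eq h.card (N.filter fun v => v ≤ 0) (Finset.filter_subset _ _) h.left.ge ?_
          intro v hv
          obtain ⟨h4, h5⟩ := Finset.mem_filter.1 hv
          have h6 := hD v h4
          rcases hx (s + v) (by omega) (by omega) with h7 | h7
          · exact h7
          · exact absurd h7 (hex v h4 h5)

/-- offsets of the noises that push the right end back -/
def Ar (N : Finset ℤ) : Finset ℤ := N.filter fun v => v ≤ 0
/-- offsets of the noises that push the right end forward -/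
def Br (N : Finset ℤ) : Finset ℤ := (N.filter fun v => 0 ≤ v).image fun v => 1 + v
/-- offsets of the noises that push the left end back -/
def Al (N : Finset ℤ) : Finset ℤ := N.filter fun v => 0 ≤ v
/-- offsets of the noises that push the left end forward -/
def Bl (N : Finset ℤ) : Finset ℤ := (N.filter fun v => v ≤ 0).image fun v => -1 + v

/-- the right end -/
abbrev WR (N : Finset ℤ) (b : Bool) (L : ℕ) (ω : Om) : ℕ → ℤ := walk b 1 (Ar N) (Br N) ω 0 (L - 1)
/-- the left end -/
abbrev WL (N : Finset ℤ) (b : Bool) (ω : Om) : ℕ → ℤ := walk b (-1) (Al N) (Bl N) ω 0 0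

lemma xi_facts (A B : Finset ℤ) (ω : Om) (i x : ℤ) : xi b A B ω i x ≤ 1 ∧ -1 ≤ xi b A B ω i x ∧
    (xi b A B ω i x = 1 → ∃ v ∈ B, ω (x + v, i) = some b) ∧
    ((∃ v ∈ A, ω (x + v, i) = some (!b)) → xi b A B ω i x = -1) := by
  unfold xi
  split_ifs with h1 h2
  · exact ⟨by norm_num, le_rfl, by norm_num, fun _ => rfl⟩
  · exact ⟨le_rfl, by norm_num, fun _ => h2, fun h => absurd h h1⟩
  · exact ⟨by norm_num, by norm_num, by norm_num, fun h => absurd h h1⟩

/-- the deterministic part: the two walks carry a wall -/
theorem wall_of_walks (h : Mid N n D₁) {L m : ℕ} {lo hi : ℤ} {ω : Om}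
    (hL : 16 * (D₁ + 2) ≤ L)
    (hsp : ω ∈ Sparse (2 * D₁ + 1) lo hi (m + 1))
    (hR : ∀ j ≤ m, 3 * (L : ℤ) ≤ 4 * WR N b L ω j + 8 ∧ WR N b L ω j + D₁ + 1 < hi)
    (hLf : ∀ j ≤ m, 4 * WL N b ω j ≤ L + 4 ∧ lo ≤ WL N b ω j - D₁ - 1)
    (hRe : 4 * (L : ℤ) - 1 ≤ WR N b L ω m) (hLe : WL N b ω m ≤ -3 * (L : ℤ))
    (hlast : ∀ s, -3 * (L : ℤ) ≤ s → s < 4 * L → ω (s, (m : ℤ)) ≠ some (!b)) :
    Wall N b D₁ L (m + 1) ω 0 0 := by
  have hL' : 16 * ((D₁ : ℤ) + 2) ≤ L := by exact_mod_cast hL
  have inv : ∀ x : ℤ → Bool, (∀ s, 0 ≤ s → s < (L : ℤ) → x s = b) → ∀ j ≤ m + 1, ∀ s,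
      WL N b ω (j - 1) ≤ s → s ≤ WR N b L ω (j - 1) → run N ω 0 x j s = b ∨
        ∃ j', j = j' + 1 ∧ ω (s, (j' : ℤ)) = some (!b) := by
    intro x hx j
    induction j with
    | zero =>
      intro _ s hs1 hs2
      left
      rw [run_zero]
      exact hx s hs1 (by
        change s ≤ (L : ℤ) - 1 at hs2
        omega)
    | succ j ih =>
      intro hj s hs1 hs2
      have ih' := ih (by omega)
      rw [Nat.add_sub_cancel] at hs1 hs2
      have hmaj : maj N (run N ω 0 x j) s = b := by
        rcases j with _ | j
        · -- first step: no fresh noise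
          rw [run_zero]
          change (0 : ℤ) ≤ s at hs1
          change s ≤ (L : ℤ) - 1 at hs2
          refine step_run (p := 0) (q := L - 1) (p' := 0) (q' := L - 1) (u := fun _ => none) h
            (by omega) (fun s hs1 hs2 => Or.inl (hx s hs1 (by omega))) (fun s hs => by simp at hs)
            (fun _ _ _ _ _ _ _ _ => Or.inl rfl) (by omega) (fun hh => by omega)
            (fun ⟨v, _, _, hv⟩ => by simp at hv) (by omega) (fun hh => by omega)
            (fun ⟨v, _, _, hv⟩ => by simp at hv) hs1 hs2
        · simp only [Nat.add_sub_cancel] at ih' hs1 hs2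
          have hRj := hR j (by omega)
          have hLj := hLf j (by omega)
          obtain ⟨r1, r2, r3, r4⟩ := xi_facts (b := b) (Ar N) (Br N) ω (0 + (j : ℤ))
            (WR N b L ω j)
          obtain ⟨l1, l2, l3, l4⟩ := xi_facts (b := b) (Al N) (Bl N) ω (0 + (j : ℤ))
            (WL N b ω j)
          have eR : WR N b L ω (j + 1) = WR N b L ω j +
            1 * xi b (Ar N) (Br N) ω (0 + (j : ℤ)) (WR N b L ω j) := rfl
          have eL : WL N b ω (j + 1) = WL N b ω j +
            (-1) * xi b (Al N) (Bl N) ω (0 + (j : ℤ)) (WL N b ω j) := rfl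
          rw [zero_add] at r1 r2 r3 r4 l1 l2 l3 l4 eR eL
          refine step_run (p := WL N b ω j) (q := WR N b L ω j) (p' := WL N b ω (j + 1))
            (q' := WR N b L ω (j + 1)) (u := fun s => ω (s, (j : ℤ))) h
            (by omega) ?_ ?_ ?_ (by omega) ?_ ?_ (by omega) ?_ ?_ hs1 hs2
          · intro s hs1 hs2
            rcases ih' s hs1 hs2 with h1 | ⟨j', h1, h2⟩
            · exact Or.inl h1
            · right
              rw [show j = j' by omega]
              exact h2
          · intro s hs
            rw [run_succ]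
            unfold step
            simp only [zero_add, hs, Option.getD_some]
          · intro s s' h1 h2 h3 h4 h5 h6
            exact hsp j (by omega) (by push_cast; omega) s s' (by omega) (by omega) (by omega)
              (by omega) h5 (by push_cast; exact h6)
          · intro hq
            obtain ⟨v, hv, hv'⟩ := r3 (by omega)
            obtain ⟨w, hw, rfl⟩ := Finset.mem_image.1 hv
            obtain ⟨hw1, hw2⟩ := Finset.mem_filter.1 hw
            exact ⟨w, hw1, hw2, by rw [add_assoc]; exact hv'⟩
          · rintro ⟨v, hv1, hv2, hv3⟩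
            have := r4 ⟨v, Finset.mem_filter.2 ⟨hv1, hv2⟩, hv3⟩
            omega
          · intro hq
            obtain ⟨v, hv, hv'⟩ := l3 (by omega)
            obtain ⟨w, hw, rfl⟩ := Finset.mem_image.1 hv
            obtain ⟨hw1, hw2⟩ := Finset.mem_filter.1 hw
            refine ⟨w, hw1, hw2, ?_⟩
            rw [show WL N b ω j - 1 + w = WL N b ω j + (-1 + w) by ring]
            exact hv'
          · rintro ⟨v, hv1, hv2, hv3⟩
            have := l4 ⟨v, Finset.mem_filter.2 ⟨hv1, hv2⟩, hv3⟩
            omega
      cases hw : ω (s, (j : ℤ)) with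
      | none =>
        left
        rw [run_succ]
        unfold step
        simp only [zero_add, hw, Option.getD_none]
        exact hmaj
      | some c =>
        by_cases hc : c = b
        · left
          rw [run_succ]
          unfold step
          simp only [zero_add, hw, Option.getD_some]
          exact hc
        · right
          refine ⟨j, rfl, ?_⟩
          rw [hw]
          congr 1
          cases c <;> cases b <;> simp_all
  have hstepR : ∀ j, WR N b L ω (j + 1) ≤ WR N b L ω j + 1 ∧ WR N b L ω j - 1 ≤ WR N b L ω (j + 1) := by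
    intro j
    obtain ⟨r1, r2, -, -⟩ := xi_facts (b := b) (Ar N) (Br N) ω (0 + (j : ℤ)) (WR N b L ω j)
    have eR : WR N b L ω (j + 1) = WR N b L ω j +
      1 * xi b (Ar N) (Br N) ω (0 + (j : ℤ)) (WR N b L ω j) := rfl
    omega
  have hstepL : ∀ j, WL N b ω (j + 1) ≤ WL N b ω j + 1 ∧ WL N b ω j - 1 ≤ WL N b ω (j + 1) := by
    intro j
    obtain ⟨r1, r2, -, -⟩ := xi_facts (b := b) (Al N) (Bl N) ω (0 + (j : ℤ)) (WL N b ω j)
    have eL : WL N b ω (j + 1) = WL N b ω j +
      (-1) * xi b (Al N) (Bl N) ω (0 + (j : ℤ)) (WL N b ω j) := rfl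
    omega
  refine ⟨fun j => WL N b ω (j - 1), fun j => WR N b L ω (j - 1), ?_, ?_, ?_, ?_, ?_, ?_⟩
  · simp [walk]
  · simp [walk]
  · intro j hj
    simp only [Nat.add_sub_cancel]
    have h1 := hR j (by omega)
    have h2 := hLf j (by omega)
    have h3 := hR (j - 1) (by omega)
    have h4 := hLf (j - 1) (by omega)
    omega
  · simp only [Nat.add_sub_cancel]
    omega
  · simp only [Nat.add_sub_cancel]
    omega
  · intro x hx
    have hx' : ∀ s, 0 ≤ s → s < (L : ℤ) → x s = b := fun s h1 h2 =>
      hx s (by rw [zero_mul]; exact h1) (by rw [zero_mul, zero_add]; exact h2)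
    refine ⟨?_, ?_⟩
    · intro j hj s hs1 hs2
      rcases inv x hx' j hj s hs1 hs2 with h1 | ⟨j', h1, h2⟩
      · exact Or.inl h1
      · right
        refine ⟨j', h1, ?_⟩
        rw [zero_add, h2]
        simp
    · intro s hs1 hs2
      rcases inv x hx' (m + 1) le_rfl s (by rw [Nat.add_sub_cancel]; omega)
        (by rw [Nat.add_sub_cancel]; omega) with h1 | ⟨j', h1, h2⟩
      · exact h1
      · exfalso
        rw [show j' = m by omega] at h2
        exact hlast s (by omega) (by omega) h2

end Pool.Agent.Helper55.Vote.MB
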