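import Pool.Agent.Helper55.Vote.WalkDefs

set_option autoImplicit false

/-! The boundary walk: exponential-moment bounds; sparse noises (module WALK + SPARSE). -/

namespace Pool.Agent.Helper55.Vote

open MeasureTheory Set ProbabilityTheory

namespace WK

/-- no noise of the type `e` at the sites `x + v`, `v ∈ A`, at the time index `i` -/
def clearAt (e : Bool) (A : Finset ℤ) (i x : ℤ) : Set Om := {ω | ∀ v ∈ A, ω (x + v, i) ≠ some e}

lemma clearAt_FL (e : Bool) (A : Finset ℤ) (i x : ℤ) :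
    FL {c : ℤ × ℤ | c.2 = i ∧ c.1 - x ∈ A} (clearAt e A i x) := by
  classical
  refine ⟨A.image fun v => (x + v, i), ?_, ?_⟩
  · intro c hc
    simp only [Finset.coe_image, mem_image, Finset.mem_coe] at hc
    obtain ⟨v, hv, rfl⟩ := hc
    simpa using hv
  · intro ω ω' hc hA v hv
    rw [← hc _ (Finset.mem_image_of_mem _ hv)]
    exact hA v hv

lemma prob_clearAt (μ₀ : Measure (Option Bool)) [IsProbabilityMeasure μ₀] (e : Bool)
    (A : Finset ℤ) (i x : ℤ) :
    (Pm μ₀).real (clearAt e A i x) = (1 - μ₀.real {some e}) ^ A.card := by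
  classical
  induction A using Finset.induction_on with
  | empty => simp [clearAt]
  | insert v A hv ih =>
    have h1 : clearAt e (insert v A) i x = {ω | ω (x + v, i) ∈ ({some e}ᶜ : Set (Option Bool))} ∩
        clearAt e A i x := by
      ext ω
      simp [clearAt]
    rw [h1, FL.indep μ₀ (FL.single (R := {(x + v, i)}) (x + v, i) rfl _) (clearAt_FL e A i x) ?_,
      prob_single, ih, Finset.card_insert_of_notMem hv, pow_succ, mul_comm]
    · congr 1
      exact probReal_compl_eq_one_sub (measurableSet_singleton _)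
    · rw [Set.disjoint_singleton_left]
      rintro ⟨-, h2⟩
      apply hv
      simpa using h2

lemma xi_mem (b : Bool) (A B : Finset ℤ) (ω : Om) (i x : ℤ) :
    (xi b A B ω i x = -1 ∧ ω ∉ clearAt (!b) A i x) ∨
    (xi b A B ω i x = 0 ∧ ω ∈ clearAt (!b) A i x ∧ ω ∈ clearAt b B i x) ∨
    (xi b A B ω i x = 1 ∧ ω ∈ clearAt (!b) A i x ∧ ω ∉ clearAt b B i x) := by
  unfold xi clearAt
  by_cases h1 : ∃ v ∈ A, ω (x + v, i) = some (!b)
  · left
    rw [if_pos h1]
    refine ⟨rfl, fun h => ?_⟩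
    obtain ⟨v, hv, h2⟩ := h1
    exact h v hv h2
  · rw [if_neg h1]
    have h1' : ∀ v ∈ A, ω (x + v, i) ≠ some (!b) := fun v hv h => h1 ⟨v, hv, h⟩
    by_cases h2 : ∃ v ∈ B, ω (x + v, i) = some b
    · right; right
      rw [if_pos h2]
      refine ⟨rfl, h1', fun h => ?_⟩
      obtain ⟨v, hv, h3⟩ := h2
      exact h v hv h3
    · right; left
      rw [if_neg h2]
      exact ⟨rfl, h1', fun v hv h => h2 ⟨v, hv, h⟩⟩

lemma xi_split (b : Bool) (A B : Finset ℤ) (i x : ℤ) (E : ℤ → Set Om) :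
    {ω | ω ∈ E (xi b A B ω i x)} =
      ((clearAt (!b) A i x)ᶜ ∩ E (-1)) ∪
        (((clearAt (!b) A i x ∩ clearAt b B i x) ∩ E 0) ∪
          ((clearAt (!b) A i x ∩ (clearAt b B i x)ᶜ) ∩ E 1)) := by
  ext ω
  simp only [mem_ofPred_eq, mem_union, mem_inter_iff, mem_compl_iff]
  rcases xi_mem b A B ω i x with ⟨h, h1⟩ | ⟨h, h1, h2⟩ | ⟨h, h1, h2⟩ <;> rw [h] <;> simp [h1]
  · simp [h2]
  · simp [h2]

lemma clearAt_FL' (e : Bool) (A : Finset ℤ) (i x : ℤ) :
    FL {c : ℤ × ℤ | c.2 = i} (clearAt e A i x) :=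
  (clearAt_FL e A i x).mono fun _ hc => hc.1

lemma step_FL (b : Bool) (A B : Finset ℤ) (i x : ℤ) (E : ℤ → Set Om)
    (hE : ∀ d, FL {c : ℤ × ℤ | i + 1 ≤ c.2} (E d)) :
    FL {c : ℤ × ℤ | i ≤ c.2} {ω | ω ∈ E (xi b A B ω i x)} := by
  rw [xi_split]
  have h1 : ∀ (e : Bool) (A : Finset ℤ), FL {c : ℤ × ℤ | i ≤ c.2} (clearAt e A i x) :=
    fun e A => (clearAt_FL' e A i x).mono fun c hc => by
      simp only [mem_ofPred_eq] at hc ⊢; omega
  have h2 : ∀ d, FL {c : ℤ × ℤ | i ≤ c.2} (E d) := fun d => (hE d).mono fun c hc => by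
      simp only [mem_ofPred_eq] at hc ⊢; omega
  exact (((h1 _ _).compl).inter (h2 _)).union (((((h1 _ _).inter (h1 _ _)).inter (h2 _))).union
    (((h1 _ _).inter ((h1 _ _).compl)).inter (h2 _)))

lemma step_le (μ₀ : Measure (Option Bool)) [IsProbabilityMeasure μ₀] (b : Bool) {A B : Finset ℤ}
    {g : ℕ} (hd : Disjoint A B) (hA : A.card = g) (hB : B.card = g) {a c : ℝ}
    (ha : a = μ₀.real {some b}) (hc : c = μ₀.real {some (!b)}) (i x : ℤ) (E : ℤ → Set Om)
    (hE : ∀ d, FL {c : ℤ × ℤ | i + 1 ≤ c.2} (E d)) (f : ℤ → ℝ)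
    (hf : ∀ d, (Pm μ₀).real (E d) ≤ f d) :
    (Pm μ₀).real {ω | ω ∈ E (xi b A B ω i x)} ≤
      (1 - (1 - c) ^ g) * f (-1) + (1 - c) ^ g * (1 - a) ^ g * f 0 +
        (1 - c) ^ g * (1 - (1 - a) ^ g) * f 1 := by
  have hdis : Disjoint {c : ℤ × ℤ | c.2 = i} {c : ℤ × ℤ | i + 1 ≤ c.2} := by
    rw [Set.disjoint_left]
    intro c h1 h2
    simp only [mem_ofPred_eq] at h1 h2
    omega
  have hdAB : Disjoint {c : ℤ × ℤ | c.2 = i ∧ c.1 - x ∈ A} {c : ℤ × ℤ | c.2 = i ∧ c.1 - x ∈ B} := by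
    rw [Set.disjoint_left]
    intro c h1 h2
    exact Finset.disjoint_left.1 hd h1.2 h2.2
  have pA : (Pm μ₀).real (clearAt (!b) A i x) = (1 - c) ^ g := by rw [prob_clearAt, ← hc, hA]
  have pB : (Pm μ₀).real (clearAt b B i x) = (1 - a) ^ g := by rw [prob_clearAt, ← ha, hB]
  have mA : MeasurableSet (clearAt (!b) A i x) := (clearAt_FL' _ _ _ _).meas
  have mB : MeasurableSet (clearAt b B i x) := (clearAt_FL' _ _ _ _).meas
  have pA' : (Pm μ₀).real (clearAt (!b) A i x)ᶜ = 1 - (1 - c) ^ g := by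
    rw [probReal_compl_eq_one_sub mA, pA]
  have pB' : (Pm μ₀).real (clearAt b B i x)ᶜ = 1 - (1 - a) ^ g := by
    rw [probReal_compl_eq_one_sub mB, pB]
  have e1 : (Pm μ₀).real ((clearAt (!b) A i x)ᶜ ∩ E (-1)) =
      (1 - (1 - c) ^ g) * (Pm μ₀).real (E (-1)) := by
    rw [FL.indep μ₀ (clearAt_FL' _ _ _ _).compl (hE _) hdis, pA']
  have e2 : (Pm μ₀).real ((clearAt (!b) A i x ∩ clearAt b B i x) ∩ E 0) =
      (1 - c) ^ g * (1 - a) ^ g * (Pm μ₀).real (E 0) := by
    rw [FL.indep μ₀ ((clearAt_FL' _ _ _ _).inter (clearAt_FL' _ _ _ _)) (hE _) hdis,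
      FL.indep μ₀ (clearAt_FL _ _ _ _) (clearAt_FL _ _ _ _) hdAB, pA, pB]
  have e3 : (Pm μ₀).real ((clearAt (!b) A i x ∩ (clearAt b B i x)ᶜ) ∩ E 1) =
      (1 - c) ^ g * (1 - (1 - a) ^ g) * (Pm μ₀).real (E 1) := by
    rw [FL.indep μ₀ ((clearAt_FL' _ _ _ _).inter (clearAt_FL' _ _ _ _).compl) (hE _) hdis,
      FL.indep μ₀ (clearAt_FL _ _ _ _) (clearAt_FL _ _ _ _).compl hdAB, pA, pB']
  have n1 : 0 ≤ 1 - (1 - c) ^ g := by rw [← pA']; positivity
  have n2 : 0 ≤ (1 - c) ^ g := by rw [← pA]; positivity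
  have n3 : 0 ≤ (1 - a) ^ g := by rw [← pB]; positivity
  have n4 : 0 ≤ 1 - (1 - a) ^ g := by rw [← pB']; positivity
  rw [xi_split]
  calc _ ≤ _ := measureReal_union_le _ _
    _ ≤ _ := add_le_add le_rfl (measureReal_union_le _ _)
    _ = (1 - (1 - c) ^ g) * (Pm μ₀).real (E (-1)) +
        (1 - c) ^ g * (1 - a) ^ g * (Pm μ₀).real (E 0) +
        (1 - c) ^ g * (1 - (1 - a) ^ g) * (Pm μ₀).real (E 1) := by
      rw [e1, e2, e3]; ring
    _ ≤ _ := by
      have h1 := mul_le_mul_of_nonneg_left (hf (-1)) n1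
      have h2 := mul_le_mul_of_nonneg_left (hf 0) (mul_nonneg n2 n3)
      have h3 := mul_le_mul_of_nonneg_left (hf 1) (mul_nonneg n2 n4)
      linarith

/-! ### the recursion from the first step -/

lemma walk_succ' (b : Bool) (σ : ℤ) (A B : Finset ℤ) (ω : Om) (i x : ℤ) (n : ℕ) :
    walk b σ A B ω i x (n + 1) = walk b σ A B ω (i + 1) (x + σ * xi b A B ω i x) n := by
  induction n with
  | zero => simp [walk]
  | succ n ih =>
    rw [walk, ih]
    conv_rhs => rw [walk]
    have : i + ((n + 1 : ℕ) : ℤ) = i + 1 + n := by push_cast; ring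
    rw [this]

lemma hit_succ (b : Bool) (σ : ℤ) (A B : Finset ℤ) (ω : Om) (i x : ℤ) (n : ℕ) (Q : ℤ → Prop) :
    (∃ j ≤ n + 1, Q (walk b σ A B ω i x j)) ↔
      Q x ∨ ∃ j ≤ n, Q (walk b σ A B ω (i + 1) (x + σ * xi b A B ω i x) j) := by
  constructor
  · rintro ⟨j, hj, hQ⟩
    rcases j with _ | j
    · exact Or.inl hQ
    · right
      rw [walk_succ'] at hQ
      exact ⟨j, by omega, hQ⟩
  · rintro (h | ⟨j, hj, hQ⟩)
    · exact ⟨0, Nat.zero_le _, h⟩
    · exact ⟨j + 1, by omega, by rw [walk_succ']; exact hQ⟩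

lemma FL_hit (b : Bool) (σ : ℤ) (A B : Finset ℤ) (Q : ℤ → Prop) (n : ℕ) (i x : ℤ) :
    FL {c : ℤ × ℤ | i ≤ c.2} {ω | ∃ j ≤ n, Q (walk b σ A B ω i x j)} := by
  induction n generalizing i x with
  | zero =>
    by_cases h : Q x
    · have : {ω : Om | ∃ j ≤ 0, Q (walk b σ A B ω i x j)} = Set.univ := by
        ext ω; simp [walk, h]
      rw [this]; exact FL.univ _
    · have : {ω : Om | ∃ j ≤ 0, Q (walk b σ A B ω i x j)} = ∅ := by
        ext ω; simp [walk, h]
      rw [this]; exact FL.empty _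
  | succ n ih =>
    have h1 := step_FL b A B i x
      (fun d => {ω | ∃ j ≤ n, Q (walk b σ A B ω (i + 1) (x + σ * d) j)}) fun d => ih _ _
    by_cases h : Q x
    · have : {ω : Om | ∃ j ≤ n + 1, Q (walk b σ A B ω i x j)} = Set.univ := by
        ext ω
        simp only [mem_ofPred_eq, hit_succ, h, true_or, mem_univ]
      rw [this]; exact FL.univ _
    · have : {ω : Om | ∃ j ≤ n + 1, Q (walk b σ A B ω i x j)} =
          {ω | ω ∈ (fun d => {ω : Om | ∃ j ≤ n, Q (walk b σ A B ω (i + 1) (x + σ * d) j)})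
            (xi b A B ω i x)} := by
        ext ω
        simp only [mem_ofPred_eq, hit_succ, h, false_or]
      rw [this]; exact h1

lemma FL_end (b : Bool) (σ : ℤ) (A B : Finset ℤ) (Q : ℤ → Prop) (n : ℕ) (i x : ℤ) :
    FL {c : ℤ × ℤ | i ≤ c.2} {ω | Q (walk b σ A B ω i x n)} := by
  induction n generalizing i x with
  | zero =>
    by_cases h : Q x
    · have : {ω : Om | Q (walk b σ A B ω i x 0)} = Set.univ := by
        ext ω; simp [walk, h]
      rw [this]; exact FL.univ _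
    · have : {ω : Om | Q (walk b σ A B ω i x 0)} = ∅ := by
        ext ω; simp [walk, h]
      rw [this]; exact FL.empty _
  | succ n ih =>
    have h1 := step_FL b A B i x
      (fun d => {ω | Q (walk b σ A B ω (i + 1) (x + σ * d) n)}) fun d => ih _ _
    have : {ω : Om | Q (walk b σ A B ω i x (n + 1))} =
        {ω | ω ∈ (fun d => {ω : Om | Q (walk b σ A B ω (i + 1) (x + σ * d) n)})
          (xi b A B ω i x)} := by
      ext ω
      simp only [mem_ofPred_eq, walk_succ']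
    rw [this]; exact h1

/-! ### the exponential moments of one step -/

lemma pow_upper (c : ℝ) (h0 : 0 ≤ c) (h1 : c ≤ 1) (g : ℕ) :
    (1 - c) ^ g ≤ 1 - g * c + g ^ 2 * c ^ 2 / 2 := by
  induction g with
  | zero => simp
  | succ g ih =>
    rw [pow_succ]
    have h2 : 0 ≤ 1 - c := by linarith
    have h3 := mul_le_mul_of_nonneg_right ih h2
    have hg : (0 : ℝ) ≤ g := Nat.cast_nonneg g
    push_cast
    have h4 : 0 ≤ (g : ℝ) ^ 2 * c ^ 3 := by positivity
    have h5 : 0 ≤ c ^ 2 := by positivity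
    nlinarith

lemma pow_lower (c : ℝ) (h1 : c ≤ 1) (g : ℕ) : 1 - g * c ≤ (1 - c) ^ g := by
  have := one_add_mul_le_pow (a := -c) (by linarith) g
  have h2 : (1 + -c) = 1 - c := by ring
  rw [h2] at this
  linarith

/-- the one-step bounds, with `u = (1 - c) ^ g`, `w = (1 - a) ^ g` -/
lemma one_step (g : ℕ) (hg : 1 ≤ g) (a c : ℝ) (ha1 : a ≤ 1) (hc : 0 ≤ c) (hca : c < a)
    (h : 3 * g * a ^ 2 ≤ a - c) (lam θ : ℝ) (hlam : lam = (a - c) / (8 * a))
    (hθ : θ = g * (a - c) ^ 2 / (32 * a)) :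
    0 ≤ θ ∧ θ ≤ 1 ∧ 0 ≤ lam ∧
    (1 - (1 - c) ^ g) * Real.exp lam + (1 - c) ^ g * (1 - a) ^ g +
        (1 - c) ^ g * (1 - (1 - a) ^ g) * Real.exp (-lam) ≤ 1 - θ ∧
    (1 - (1 - c) ^ g) * Real.exp (-lam) + (1 - c) ^ g * (1 - a) ^ g +
        (1 - c) ^ g * (1 - (1 - a) ^ g) * Real.exp lam ≤ 1 + 9 * θ := by
  have ha : 0 < a := by linarith
  have hg1 : (1 : ℝ) ≤ g := by exact_mod_cast hg
  have hc1 : c ≤ 1 := by linarith
  set ρ := a - c with hρ
  have hρ0 : 0 < ρ := by linarith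
  have hρa : ρ ≤ a := by linarith
  set u := (1 - c) ^ g with hu
  set w := (1 - a) ^ g with hw
  have u1 : 1 - g * c ≤ u := pow_lower c hc1 g
  have u2 : u ≤ 1 - g * c + g ^ 2 * c ^ 2 / 2 := pow_upper c hc hc1 g
  have w1 : 1 - g * a ≤ w := pow_lower a ha1 g
  have w2 : w ≤ 1 - g * a + g ^ 2 * a ^ 2 / 2 := pow_upper a ha.le ha1 g
  have u0 : 0 ≤ u := pow_nonneg (by linarith) _
  have u3 : u ≤ 1 := pow_le_one₀ (by linarith) (by linarith)
  have w0 : 0 ≤ w := pow_nonneg (by linarith) _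
  have w3 : w ≤ 1 := pow_le_one₀ (by linarith) (by linarith)
  have hga : g * a ≤ 1 / 3 := by
    have h1 : 3 * g * a ^ 2 ≤ a := h.trans hρa
    have h2 : (3 * g * a) * a ≤ 1 * a := by
      calc (3 * g * a) * a = 3 * g * a ^ 2 := by ring
        _ ≤ a := h1
        _ = 1 * a := (one_mul a).symm
    have h3 := le_of_mul_le_mul_right h2 ha
    linarith
  have hlam0 : 0 < lam := by rw [hlam]; positivity
  have hlam1 : lam ≤ 1 / 8 := by
    rw [hlam, div_le_iff₀ (by positivity)]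
    linarith
  have hθ0 : 0 < θ := by rw [hθ]; positivity
  have hlρ : lam * (g * ρ) = 4 * θ := by
    rw [hlam, hθ]; field_simp; ring
  have hl2 : lam ^ 2 * (g * a) = θ / 2 := by
    rw [hlam, hθ]; field_simp; ring
  have hθ1 : θ ≤ 1 := by
    have h1 : lam ^ 2 * (g * a) ≤ (1 / 8) ^ 2 * (1 / 3) := by
      apply mul_le_mul _ hga (by positivity) (by positivity)
      exact pow_le_pow_left₀ hlam0.le hlam1 2
    rw [hl2] at h1
    linarith
  have e1 := abs_le.1 (Real.abs_exp_sub_one_sub_id_le (x := lam)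
    (by rw [abs_of_pos hlam0]; linarith))
  have e2 := abs_le.1 (Real.abs_exp_sub_one_sub_id_le (x := -lam)
    (by rw [abs_neg, abs_of_pos hlam0]; linarith))
  have e3 : Real.exp lam ≤ 1 + lam + lam ^ 2 := by linarith [e1.2]
  have e4 : Real.exp (-lam) ≤ 1 - lam + lam ^ 2 := by
    have := e2.2
    rw [neg_sq] at this
    linarith
  -- the two probabilities
  set pm := 1 - u with hpm
  set pp := u * (1 - w) with hpp
  have pm0 : 0 ≤ pm := by linarith
  have pp0 : 0 ≤ pp := mul_nonneg u0 (by linarith)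
  have pm1 : pm ≤ g * c := by linarith
  have pp1 : pp ≤ g * a := by
    have : pp ≤ 1 * (1 - w) := mul_le_mul_of_nonneg_right u3 (by linarith)
    linarith
  have hsum : pm + u * w + pp = 1 := by rw [hpm, hpp]; ring
  have hgc0 : 0 ≤ g * c := by positivity
  have hga0 : 0 < g * a := by positivity
  have hgca : g * c ≤ g * a := mul_le_mul_of_nonneg_left hca.le (by positivity)
  have hkey : g ^ 2 * a ^ 2 ≤ g * ρ / 3 := by
    have h1 : g * (3 * g * a ^ 2) ≤ g * ρ := mul_le_mul_of_nonneg_left h (by positivity)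
    have h2 : (g : ℝ) ^ 2 * a ^ 2 = g * (3 * g * a ^ 2) / 3 := by ring
    rw [h2]
    linarith
  have hsq : 0 ≤ g * a - g ^ 2 * a ^ 2 / 2 := by
    have h1 : (g * a) * (g * a) ≤ (g * a) * (1 / 3) := mul_le_mul_of_nonneg_left hga hga0.le
    have h2 : (g : ℝ) ^ 2 * a ^ 2 = (g * a) * (g * a) := by ring
    rw [h2]
    linarith
  have hcc : g ^ 2 * (a * c) ≤ g ^ 2 * a ^ 2 := by
    apply mul_le_mul_of_nonneg_left _ (by positivity)
    rw [pow_two]
    exact mul_le_mul_of_nonneg_left hca.le ha.le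
  have hcc2 : g ^ 2 * c ^ 2 ≤ g ^ 2 * a ^ 2 := by
    apply mul_le_mul_of_nonneg_left _ (by positivity)
    exact pow_le_pow_left₀ hc hca.le 2
  -- lower bound of the drift
  have d1 : g * ρ / 2 ≤ pp - pm := by
    have h1 : (1 - g * c) * (g * a - g ^ 2 * a ^ 2 / 2) ≤ pp := by
      rw [hpp]
      exact mul_le_mul u1 (by linarith) hsq u0
    have h2 : g * ρ = g * a - g * c := by rw [hρ]; ring
    have h4 : 0 ≤ (g * c) * (g ^ 2 * a ^ 2 / 2) := by positivity
    have h5 : (1 - g * c) * (g * a - g ^ 2 * a ^ 2 / 2) =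
      g * a - g ^ 2 * a ^ 2 / 2 - g ^ 2 * (a * c) + (g * c) * (g ^ 2 * a ^ 2 / 2) := by ring
    rw [h5] at h1
    linarith
  -- upper bound of the drift
  have d2 : pp - pm ≤ 3 / 2 * (g * ρ) := by
    have h2 : g * ρ = g * a - g * c := by rw [hρ]; ring
    have h5 : g * c - g ^ 2 * c ^ 2 / 2 ≤ pm := by linarith
    linarith
  have d3 : pp + pm ≤ 2 * (g * a) := by linarith
  have d4 : lam * (g * ρ / 2) ≤ lam * (pp - pm) := mul_le_mul_of_nonneg_left d1 hlam0.le
  have d5 : lam * (pp - pm) ≤ lam * (3 / 2 * (g * ρ)) := mul_le_mul_of_nonneg_left d2 hlam0.le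
  have d6 : lam ^ 2 * (pp + pm) ≤ lam ^ 2 * (2 * (g * a)) :=
    mul_le_mul_of_nonneg_left d3 (by positivity)
  have f1 : pm * Real.exp lam ≤ pm * (1 + lam + lam ^ 2) := mul_le_mul_of_nonneg_left e3 pm0
  have f2 : pp * Real.exp (-lam) ≤ pp * (1 - lam + lam ^ 2) := mul_le_mul_of_nonneg_left e4 pp0
  have f3 : pm * Real.exp (-lam) ≤ pm * (1 - lam + lam ^ 2) := mul_le_mul_of_nonneg_left e4 pm0
  have f4 : pp * Real.exp lam ≤ pp * (1 + lam + lam ^ 2) := mul_le_mul_of_nonneg_left e3 pp0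
  have g1 : pm * (1 + lam + lam ^ 2) + u * w + pp * (1 - lam + lam ^ 2) =
    (pm + u * w + pp) - lam * (pp - pm) + lam ^ 2 * (pp + pm) := by ring
  have g2 : pm * (1 - lam + lam ^ 2) + u * w + pp * (1 + lam + lam ^ 2) =
    (pm + u * w + pp) + lam * (pp - pm) + lam ^ 2 * (pp + pm) := by ring
  have g3 : lam * (g * ρ / 2) = lam * (g * ρ) / 2 := by ring
  have g4 : lam * (3 / 2 * (g * ρ)) = 3 / 2 * (lam * (g * ρ)) := by ring
  have g5 : lam ^ 2 * (2 * (g * a)) = 2 * (lam ^ 2 * (g * a)) := by ring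
  rw [g3, hlρ] at d4
  rw [g4, hlρ] at d5
  rw [g5, hl2] at d6
  rw [hsum] at g1 g2
  exact ⟨hθ0.le, hθ1, hlam0.le, by linarith, by linarith⟩

/-! ### the three bounds -/

section Bounds

variable (μ₀ : Measure (Option Bool)) [IsProbabilityMeasure μ₀] (b : Bool) (σ : ℤ) {A B : Finset ℤ}
  {g : ℕ}

lemma shift_eq (hσ : σ * σ = 1) (x y d : ℤ) : σ * (y - x) = σ * (y - (x + σ * d)) + d := by
  linear_combination d * hσ

lemma bound_low (hσ : σ * σ = 1) (hd : Disjoint A B) (hA : A.card = g) (hB : B.card = g)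
    {a c lam : ℝ} (ha : a = μ₀.real {some b}) (hc : c = μ₀.real {some (!b)}) (hlam : 0 ≤ lam)
    (hM : (1 - (1 - c) ^ g) * Real.exp lam + (1 - c) ^ g * (1 - a) ^ g +
        (1 - c) ^ g * (1 - (1 - a) ^ g) * Real.exp (-lam) ≤ 1) (n : ℕ) (i x m : ℤ) :
    (Pm μ₀).real {ω | ∃ j ≤ n, σ * (walk b σ A B ω i x j - x) ≤ -m} ≤
      Real.exp (-(lam * m)) := by
  have htriv : ∀ (n : ℕ) (i x m : ℤ), m ≤ 0 →
      (Pm μ₀).real {ω | ∃ j ≤ n, σ * (walk b σ A B ω i x j - x) ≤ -m} ≤
        Real.exp (-(lam * m)) := by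
    intro n i x m hm
    refine measureReal_le_one.trans (Real.one_le_exp ?_)
    have : (m : ℝ) ≤ 0 := by exact_mod_cast hm
    nlinarith
  induction n generalizing i x m with
  | zero =>
    rcases le_or_gt m 0 with hm | hm
    · exact htriv 0 i x m hm
    · have : {ω : Om | ∃ j ≤ 0, σ * (walk b σ A B ω i x j - x) ≤ -m} = ∅ := by
        ext ω
        simp only [mem_ofPred_eq, mem_empty_iff_false, iff_false, not_exists, not_and, not_le]
        intro j hj
        obtain rfl : j = 0 := by omega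
        simp only [walk, sub_self, mul_zero]
        omega
      rw [this, measureReal_empty]
      exact (Real.exp_pos _).le
  | succ n ih =>
    rcases le_or_gt m 0 with hm | hm
    · exact htriv _ i x m hm
    have hset : {ω : Om | ∃ j ≤ n + 1, σ * (walk b σ A B ω i x j - x) ≤ -m} =
        {ω | ω ∈ (fun d => {ω : Om | ∃ j ≤ n, σ * (walk b σ A B ω (i + 1) (x + σ * d) j -
          (x + σ * d)) ≤ -(m + d)}) (xi b A B ω i x)} := by
      ext ω
      have h1 := hit_succ b σ A B ω i x n (fun y => σ * (y - x) ≤ -m)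
      simp only [mem_ofPred_eq]
      rw [h1]
      have h2 : ¬ σ * (x - x) ≤ -m := by simp only [sub_self, mul_zero]; omega
      simp only [h2, false_or]
      refine exists_congr fun j => and_congr_right fun _ => ?_
      rw [shift_eq σ hσ x _ (xi b A B ω i x)]
      constructor <;> intro h <;> omega
    have h2 := step_le μ₀ b hd hA hB ha hc i x
      (fun d => {ω : Om | ∃ j ≤ n, σ * (walk b σ A B ω (i + 1) (x + σ * d) j -
          (x + σ * d)) ≤ -(m + d)}) (fun d => FL_hit b σ A B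
            (fun y => σ * (y - (x + σ * d)) ≤ -(m + d)) n (i + 1) (x + σ * d))
      (fun d => Real.exp (-(lam * (m + d : ℤ)))) (fun d => ih (i + 1) (x + σ * d) (m + d))
    rw [hset]
    refine h2.trans ?_
    have e1 : Real.exp (-(lam * (m + (-1) : ℤ))) = Real.exp (-(lam * m)) * Real.exp lam := by
      rw [← Real.exp_add]; congr 1; push_cast; ring
    have e2 : Real.exp (-(lam * (m + 0 : ℤ))) = Real.exp (-(lam * m)) := by
      rw [add_zero]
    have e3 : Real.exp (-(lam * (m + 1 : ℤ))) = Real.exp (-(lam * m)) * Real.exp (-lam) := by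
      rw [← Real.exp_add]; congr 1; push_cast; ring
    rw [e1, e2, e3]
    have h3 := mul_le_mul_of_nonneg_left hM (Real.exp_pos (-(lam * m))).le
    linarith

lemma bound_high (hσ : σ * σ = 1) (hd : Disjoint A B) (hA : A.card = g) (hB : B.card = g)
    {a c lam θ : ℝ} (ha : a = μ₀.real {some b}) (hc : c = μ₀.real {some (!b)}) (hlam : 0 ≤ lam)
    (hθ : 0 ≤ θ)
    (hM : (1 - (1 - c) ^ g) * Real.exp (-lam) + (1 - c) ^ g * (1 - a) ^ g +
        (1 - c) ^ g * (1 - (1 - a) ^ g) * Real.exp lam ≤ 1 + 9 * θ) (n : ℕ) (i x m : ℤ) :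
    (Pm μ₀).real {ω | ∃ j ≤ n, m ≤ σ * (walk b σ A B ω i x j - x)} ≤
      (1 + 9 * θ) ^ n * Real.exp (-(lam * m)) := by
  have hone : ∀ n : ℕ, 1 ≤ (1 + 9 * θ) ^ n := fun n => one_le_pow₀ (by linarith)
  have htriv : ∀ (n : ℕ) (i x m : ℤ), m ≤ 0 →
      (Pm μ₀).real {ω | ∃ j ≤ n, m ≤ σ * (walk b σ A B ω i x j - x)} ≤
        (1 + 9 * θ) ^ n * Real.exp (-(lam * m)) := by
    intro n i x m hm
    have h1 : 1 ≤ Real.exp (-(lam * m)) := by
      refine Real.one_le_exp ?_
      have : (m : ℝ) ≤ 0 := by exact_mod_cast hm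
      nlinarith
    exact measureReal_le_one.trans (one_le_mul_of_one_le_of_one_le (hone n) h1)
  induction n generalizing i x m with
  | zero =>
    rcases le_or_gt m 0 with hm | hm
    · exact htriv 0 i x m hm
    · have : {ω : Om | ∃ j ≤ 0, m ≤ σ * (walk b σ A B ω i x j - x)} = ∅ := by
        ext ω
        simp only [mem_ofPred_eq, mem_empty_iff_false, iff_false, not_exists, not_and, not_le]
        intro j hj
        obtain rfl : j = 0 := by omega
        simp only [walk, sub_self, mul_zero]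
        omega
      rw [this, measureReal_empty]
      exact mul_nonneg (zero_le_one.trans (hone 0)) (Real.exp_pos _).le
  | succ n ih =>
    rcases le_or_gt m 0 with hm | hm
    · exact htriv _ i x m hm
    have hset : {ω : Om | ∃ j ≤ n + 1, m ≤ σ * (walk b σ A B ω i x j - x)} =
        {ω | ω ∈ (fun d => {ω : Om | ∃ j ≤ n, m - d ≤ σ * (walk b σ A B ω (i + 1) (x + σ * d) j -
          (x + σ * d))}) (xi b A B ω i x)} := by
      ext ω
      have h1 := hit_succ b σ A B ω i x n (fun y => m ≤ σ * (y - x))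
      simp only [mem_ofPred_eq]
      rw [h1]
      have h2 : ¬ m ≤ σ * (x - x) := by simp only [sub_self, mul_zero]; omega
      simp only [h2, false_or]
      refine exists_congr fun j => and_congr_right fun _ => ?_
      rw [shift_eq σ hσ x _ (xi b A B ω i x)]
      constructor <;> intro h <;> omega
    have h2 := step_le μ₀ b hd hA hB ha hc i x
      (fun d => {ω : Om | ∃ j ≤ n, m - d ≤ σ * (walk b σ A B ω (i + 1) (x + σ * d) j -
          (x + σ * d))}) (fun d => FL_hit b σ A B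
            (fun y => m - d ≤ σ * (y - (x + σ * d))) n (i + 1) (x + σ * d))
      (fun d => (1 + 9 * θ) ^ n * Real.exp (-(lam * (m - d : ℤ))))
      (fun d => ih (i + 1) (x + σ * d) (m - d))
    rw [hset]
    refine h2.trans ?_
    have e1 : Real.exp (-(lam * (m - (-1) : ℤ))) = Real.exp (-(lam * m)) * Real.exp (-lam) := by
      rw [← Real.exp_add]; congr 1; push_cast; ring
    have e2 : Real.exp (-(lam * (m - 0 : ℤ))) = Real.exp (-(lam * m)) := by
      rw [sub_zero]
    have e3 : Real.exp (-(lam * (m - 1 : ℤ))) = Real.exp (-(lam * m)) * Real.exp lam := by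
      rw [← Real.exp_add]; congr 1; push_cast; ring
    rw [e1, e2, e3]
    have h3 := mul_le_mul_of_nonneg_left hM
      (mul_nonneg (zero_le_one.trans (hone n)) (Real.exp_pos (-(lam * m))).le)
    rw [pow_succ]
    linarith

lemma bound_end (hσ : σ * σ = 1) (hd : Disjoint A B) (hA : A.card = g) (hB : B.card = g)
    {a c lam θ : ℝ} (ha : a = μ₀.real {some b}) (hc : c = μ₀.real {some (!b)}) (hlam : 0 ≤ lam)
    (hθ : θ ≤ 1)
    (hM : (1 - (1 - c) ^ g) * Real.exp lam + (1 - c) ^ g * (1 - a) ^ g +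
        (1 - c) ^ g * (1 - (1 - a) ^ g) * Real.exp (-lam) ≤ 1 - θ) (n : ℕ) (i x m : ℤ) :
    (Pm μ₀).real {ω | σ * (walk b σ A B ω i x n - x) ≤ m} ≤
      (1 - θ) ^ n * Real.exp (lam * m) := by
  have hone : ∀ n : ℕ, 0 ≤ (1 - θ) ^ n := fun n => pow_nonneg (by linarith) n
  induction n generalizing i x m with
  | zero =>
    rcases lt_or_ge m 0 with hm | hm
    · have : {ω : Om | σ * (walk b σ A B ω i x 0 - x) ≤ m} = ∅ := by
        ext ω
        simp only [mem_ofPred_eq, mem_empty_iff_false, iff_false, not_le]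
        simp only [walk, sub_self, mul_zero]
        omega
      rw [this, measureReal_empty]
      exact mul_nonneg (hone 0) (Real.exp_pos _).le
    · rw [pow_zero, one_mul]
      refine measureReal_le_one.trans (Real.one_le_exp ?_)
      have : (0 : ℝ) ≤ m := by exact_mod_cast hm
      positivity
  | succ n ih =>
    have hset : {ω : Om | σ * (walk b σ A B ω i x (n + 1) - x) ≤ m} =
        {ω | ω ∈ (fun d => {ω : Om | σ * (walk b σ A B ω (i + 1) (x + σ * d) n -
          (x + σ * d)) ≤ m - d}) (xi b A B ω i x)} := by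
      ext ω
      simp only [mem_ofPred_eq]
      rw [walk_succ', shift_eq σ hσ x _ (xi b A B ω i x)]
      constructor <;> intro h <;> omega
    have h2 := step_le μ₀ b hd hA hB ha hc i x
      (fun d => {ω : Om | σ * (walk b σ A B ω (i + 1) (x + σ * d) n -
          (x + σ * d)) ≤ m - d}) (fun d => FL_end b σ A B
            (fun y => σ * (y - (x + σ * d)) ≤ m - d) n (i + 1) (x + σ * d))
      (fun d => (1 - θ) ^ n * Real.exp (lam * (m - d : ℤ)))
      (fun d => ih (i + 1) (x + σ * d) (m - d))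
    rw [hset]
    refine h2.trans ?_
    have e1 : Real.exp (lam * (m - (-1) : ℤ)) = Real.exp (lam * m) * Real.exp lam := by
      rw [← Real.exp_add]; congr 1; push_cast; ring
    have e2 : Real.exp (lam * (m - 0 : ℤ)) = Real.exp (lam * m) := by
      rw [sub_zero]
    have e3 : Real.exp (lam * (m - 1 : ℤ)) = Real.exp (lam * m) * Real.exp (-lam) := by
      rw [← Real.exp_add]; congr 1; push_cast; ring
    rw [e1, e2, e3]
    have h3 := mul_le_mul_of_nonneg_left hM
      (mul_nonneg (hone n) (Real.exp_pos (lam * m)).le)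
    rw [pow_succ]
    linarith

end Bounds

end WK

open WK in
theorem walk_bounds (g : ℕ) (hg : 1 ≤ g) : ∃ C₀ : ℝ, 0 < C₀ ∧
    ∀ (μ₀ : Measure (Option Bool)) [IsProbabilityMeasure μ₀] (b : Bool) (σ : ℤ) (A B : Finset ℤ),
      σ = 1 ∨ σ = -1 → Disjoint A B → A.card = g → B.card = g →
      ∀ a c lam θ : ℝ, a = μ₀.real {some b} → c = μ₀.real {some (!b)} → c < a →
        C₀ * a ^ 2 ≤ a - c → lam = (a - c) / (8 * a) → θ = g * (a - c) ^ 2 / (32 * a) →
        θ ≤ 1 ∧ ∀ (n : ℕ) (i x m : ℤ),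
          (Pm μ₀).real {ω | ∃ j ≤ n, σ * (walk b σ A B ω i x j - x) ≤ -m} ≤
              Real.exp (-(lam * m)) ∧
          (Pm μ₀).real {ω | ∃ j ≤ n, m ≤ σ * (walk b σ A B ω i x j - x)} ≤
              (1 + 9 * θ) ^ n * Real.exp (-(lam * m)) ∧
          (Pm μ₀).real {ω | σ * (walk b σ A B ω i x n - x) ≤ m} ≤
              (1 - θ) ^ n * Real.exp (lam * m) := by
  have hg1 : (1 : ℝ) ≤ g := by exact_mod_cast hg
  refine ⟨3 * g, by positivity, ?_⟩
  intro μ₀ _ b σ A B hσ hd hA hB a c lam θ ha hc hca h hlam hθ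
  have hσσ : σ * σ = 1 := by rcases hσ with rfl | rfl <;> norm_num
  have ha1 : a ≤ 1 := by rw [ha]; exact measureReal_le_one
  have hc0 : 0 ≤ c := by rw [hc]; exact measureReal_nonneg
  obtain ⟨hθ0, hθ1, hlam0, hM, hP⟩ := one_step g hg a c ha1 hc0 hca h lam θ hlam hθ
  exact ⟨hθ1, fun n i x m =>
    ⟨bound_low μ₀ b σ hσσ hd hA hB ha hc hlam0 (hM.trans (by linarith)) n i x m,
      bound_high μ₀ b σ hσσ hd hA hB ha hc hlam0 hθ0 hP n i x m,
      bound_end μ₀ b σ hσσ hd hA hB ha hc hlam0 hθ1 hM n i x m⟩⟩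

/-! ### sparse noises -/

lemma WK.real_ne_none (μ₀ : Measure (Option Bool)) [IsProbabilityMeasure μ₀] :
    μ₀.real ({none}ᶜ : Set (Option Bool)) = μ₀.real {some true} + μ₀.real {some false} := by
  have h : ({none}ᶜ : Set (Option Bool)) = {some true} ∪ {some false} := by
    ext o
    rcases o with _ | _ | _ <;> simp
  rw [h, measureReal_union (by simp) (measurableSet_singleton _)]

open WK in
theorem prob_sparse (μ₀ : Measure (Option Bool)) [IsProbabilityMeasure μ₀] (d : ℕ) (lo hi : ℤ)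
    (h : lo ≤ hi) (T : ℕ) :
    (Pm μ₀).real (Sparse d lo hi T)ᶜ ≤
      T * (hi - lo) * d * (μ₀.real {some true} + μ₀.real {some false}) ^ 2 := by
  classical
  set p := μ₀.real {some true} + μ₀.real {some false} with hp
  let J : Finset (ℤ × ℤ × ℤ) :=
    Finset.Ico (0 : ℤ) T ×ˢ (Finset.Ico lo hi ×ˢ Finset.Icc (1 : ℤ) d)
  let ev : ℤ × ℤ × ℤ → Set Om := fun q =>
    {ω | ω (q.2.1, q.1) ∈ ({none}ᶜ : Set (Option Bool))} ∩
      {ω | ω (q.2.1 + q.2.2, q.1) ∈ ({none}ᶜ : Set (Option Bool))}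
  have hsub : (Sparse d lo hi T)ᶜ ⊆ ⋃ q ∈ J, ev q := by
    intro ω hω
    simp only [Sparse, mem_compl_iff, mem_ofPred_eq, not_forall, not_or] at hω
    obtain ⟨i, hi0, hiT, s, s', h1, h2, h3, h4, hne, hdist, n1, n2⟩ := hω
    simp only [mem_iUnion]
    rw [abs_le] at hdist
    rcases lt_or_gt_of_ne hne with hlt | hlt
    · refine ⟨(i, s, s' - s), ?_, ?_⟩
      · simp only [J, Finset.mem_product, Finset.mem_Ico, Finset.mem_Icc]
        omega
      · refine ⟨n1, ?_⟩
        simpa using n2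
    · refine ⟨(i, s', s - s'), ?_, ?_⟩
      · simp only [J, Finset.mem_product, Finset.mem_Ico, Finset.mem_Icc]
        omega
      · refine ⟨n2, ?_⟩
        simpa using n1
  have hev : ∀ q ∈ J, (Pm μ₀).real (ev q) = p ^ 2 := by
    rintro ⟨i, s, k⟩ hq
    simp only [J, Finset.mem_product, Finset.mem_Ico, Finset.mem_Icc] at hq
    have h1 := FL.indep μ₀ (FL.single (R := {(s, i)}) (s, i) rfl ({none}ᶜ : Set (Option Bool)))
      (FL.single (R := {(s + k, i)}) (s + k, i) rfl ({none}ᶜ : Set (Option Bool))) (by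
        rw [Set.disjoint_singleton]
        intro h5
        have := congrArg Prod.fst h5
        simp only at this
        omega)
    simp only [ev]
    rw [h1, prob_single, prob_single, real_ne_none, ← hp, pow_two]
  calc (Pm μ₀).real (Sparse d lo hi T)ᶜ ≤ (Pm μ₀).real (⋃ q ∈ J, ev q) :=
        measureReal_mono hsub (measure_ne_top _ _)
    _ ≤ ∑ q ∈ J, (Pm μ₀).real (ev q) := measureReal_biUnion_finset_le _ _
    _ = ∑ q ∈ J, p ^ 2 := Finset.sum_congr rfl hev
    _ = T * (hi - lo) * d * p ^ 2 := by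
      rw [Finset.sum_const, nsmul_eq_mul]
      congr 1
      simp only [J, Finset.card_product, Int.card_Ico, Int.card_Icc]
      push_cast
      have e1 : ((((T : ℤ) - 0).toNat : ℕ) : ℝ) = T := by
        rw [sub_zero, Int.toNat_natCast]
      have e2 : (((hi - lo).toNat : ℕ) : ℝ) = hi - lo := by
        have : (((hi - lo).toNat : ℕ) : ℤ) = hi - lo := Int.toNat_of_nonneg (by omega)
        exact_mod_cast this
      have e3 : ((((d : ℤ) + 1 - 1).toNat : ℕ) : ℝ) = d := by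
        rw [add_sub_cancel_right, Int.toNat_natCast]
      rw [e1, e2, e3]
      ring

end Pool.Agent.Helper55.Vote
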