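import Pool.Agent.Helper55.Vote.Blocks
import Pool.Agent.Helper55.Vote.MicroBDet
import Pool.Agent.Helper55.Vote.Walk

/-! The weakly biased regime: a local event of high probability carrying a wall. -/

namespace Pool.Agent.Helper55.Vote.MB

open MeasureTheory Set ProbabilityTheory

variable {N : Finset ℤ} {n D₁ : ℕ} {b : Bool}

lemma disj_r (N : Finset ℤ) : Disjoint (Ar N) (Br N) := by
  rw [Finset.disjoint_left]
  intro v h1 h2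
  obtain ⟨w, hw, rfl⟩ := Finset.mem_image.1 h2
  have h3 := (Finset.mem_filter.1 h1).2
  have h4 := (Finset.mem_filter.1 hw).2
  omega

lemma disj_l (N : Finset ℤ) : Disjoint (Al N) (Bl N) := by
  rw [Finset.disjoint_left]
  intro v h1 h2
  obtain ⟨w, hw, rfl⟩ := Finset.mem_image.1 h2
  have h3 := (Finset.mem_filter.1 h1).2
  have h4 := (Finset.mem_filter.1 hw).2
  omega

lemma card_Br (h : Mid N n D₁) : (Br N).card = n + 1 := by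
  rw [Br, Finset.card_image_of_injective _ (add_right_injective _), h.right]

lemma card_Bl (h : Mid N n D₁) : (Bl N).card = n + 1 := by
  rw [Bl, Finset.card_image_of_injective _ (add_right_injective _), h.left]

lemma xi_congr {A B : Finset ℤ} {ω ω' : Om} {i x : ℤ}
    (h1 : ∀ v ∈ A, ω (x + v, i) = ω' (x + v, i)) (h2 : ∀ v ∈ B, ω (x + v, i) = ω' (x + v, i)) :
    xi b A B ω i x = xi b A B ω' i x := by
  unfold xi
  have e1 : (∃ v ∈ A, ω (x + v, i) = some (!b)) ↔ (∃ v ∈ A, ω' (x + v, i) = some (!b)) :=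
    ⟨fun ⟨v, hv, hv'⟩ => ⟨v, hv, by rw [← h1 v hv]; exact hv'⟩,
      fun ⟨v, hv, hv'⟩ => ⟨v, hv, by rw [h1 v hv]; exact hv'⟩⟩
  have e2 : (∃ v ∈ B, ω (x + v, i) = some b) ↔ (∃ v ∈ B, ω' (x + v, i) = some b) :=
    ⟨fun ⟨v, hv, hv'⟩ => ⟨v, hv, by rw [← h2 v hv]; exact hv'⟩,
      fun ⟨v, hv, hv'⟩ => ⟨v, hv, by rw [h2 v hv]; exact hv'⟩⟩
  simp only [e1, e2]

/-- a walk confined to an interval depends only on the noise near this interval -/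
lemma walk_congr {A B : Finset ℤ} {σ x : ℤ} {ω ω' : Om} {m : ℕ} {lo hi d : ℤ}
    (hA : ∀ v ∈ A, |v| ≤ d) (hB : ∀ v ∈ B, |v| ≤ d)
    (hω : ∀ s i, lo ≤ s → s < hi → 0 ≤ i → i < (m : ℤ) + 1 → ω (s, i) = ω' (s, i))
    (hw : ∀ j ≤ m, lo + d ≤ walk b σ A B ω 0 x j ∧ walk b σ A B ω 0 x j + d < hi) :
    ∀ j ≤ m, walk b σ A B ω' 0 x j = walk b σ A B ω 0 x j := by
  intro j
  induction j with
  | zero => intro _; rfl
  | succ j ih =>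
    intro hj
    have h1 := ih (by omega)
    have h2 := hw j (by omega)
    change walk b σ A B ω' 0 x j + σ * xi b A B ω' (0 + j) (walk b σ A B ω' 0 x j) =
      walk b σ A B ω 0 x j + σ * xi b A B ω (0 + j) (walk b σ A B ω 0 x j)
    rw [h1]
    congr 2
    symm
    refine xi_congr ?_ ?_
    · intro v hv
      have := abs_le.1 (hA v hv)
      exact hω _ _ (by omega) (by omega) (by omega) (by omega)
    · intro v hv
      have := abs_le.1 (hB v hv)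
      exact hω _ _ (by omega) (by omega) (by omega) (by omega)

/-- the good event -/
def gB (N : Finset ℤ) (b : Bool) (D₁ L m : ℕ) : Set Om :=
  {ω | ω ∈ Sparse (2 * D₁ + 1) (-62 * (L : ℤ)) (63 * L) (m + 1) ∧
    (∀ j ≤ m, ¬ (1 * (WR N b L ω j - (L - 1)) ≤ -((L : ℤ) / 4 + 1)) ∧
      ¬ (60 * (L : ℤ) ≤ 1 * (WR N b L ω j - (L - 1)))) ∧
    (∀ j ≤ m, ¬ (-1 * (WL N b ω j - 0) ≤ -((L : ℤ) / 4 + 1)) ∧
      ¬ (60 * (L : ℤ) ≤ -1 * (WL N b ω j - 0))) ∧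
    ¬ (1 * (WR N b L ω m - (L - 1)) ≤ 3 * (L : ℤ) - 1) ∧
    ¬ (-1 * (WL N b ω m - 0) ≤ 3 * (L : ℤ) - 1) ∧
    ∀ s, -3 * (L : ℤ) ≤ s → s < 4 * L → ω (s, (m : ℤ)) ≠ some (!b)}

lemma gB_FL (h : Mid N n D₁) {L m : ℕ} (hL : 16 * (D₁ + 2) ≤ L) :
    FL (box 62 L (m + 1)) (gB N b D₁ L m) := by
  have hL' : 16 * ((D₁ : ℤ) + 2) ≤ L := by exact_mod_cast hL
  have hA1 : ∀ v ∈ Ar N, |v| ≤ (D₁ : ℤ) + 1 := fun v hv =>
    (h.bd v (Finset.mem_filter.1 hv).1).trans (by omega)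
  have hA2 : ∀ v ∈ Al N, |v| ≤ (D₁ : ℤ) + 1 := fun v hv =>
    (h.bd v (Finset.mem_filter.1 hv).1).trans (by omega)
  have hB1 : ∀ v ∈ Br N, |v| ≤ (D₁ : ℤ) + 1 := by
    intro v hv
    obtain ⟨w, hw, rfl⟩ := Finset.mem_image.1 hv
    have := abs_le.1 (h.bd w (Finset.mem_filter.1 hw).1)
    rw [abs_le]
    omega
  have hB2 : ∀ v ∈ Bl N, |v| ≤ (D₁ : ℤ) + 1 := by
    intro v hv
    obtain ⟨w, hw, rfl⟩ := Finset.mem_image.1 hv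
    have := abs_le.1 (h.bd w (Finset.mem_filter.1 hw).1)
    rw [abs_le]
    omega
  refine ⟨Finset.Ico (-62 * (L : ℤ)) (63 * L) ×ˢ Finset.Ico (0 : ℤ) (m + 1), ?_, ?_⟩
  · intro c hc
    rw [Finset.mem_coe, Finset.mem_product, Finset.mem_Ico, Finset.mem_Ico] at hc
    simp only [box, mem_ofPred_eq]
    push_cast
    omega
  · intro ω ω' hωω' hω
    have hag : ∀ s i, -62 * (L : ℤ) ≤ s → s < 63 * (L : ℤ) → 0 ≤ i → i < (m : ℤ) + 1 →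
        ω (s, i) = ω' (s, i) := fun s i h1 h2 h3 h4 => hωω' (s, i) (by
      rw [Finset.mem_product, Finset.mem_Ico, Finset.mem_Ico]
      exact ⟨⟨h1, h2⟩, h3, h4⟩)
    obtain ⟨g1, g2, g3, g4, g5, g6⟩ := hω
    have eR := walk_congr (b := b) (σ := 1) (x := (L : ℤ) - 1) (ω := ω) (ω' := ω') (m := m)
      (lo := -62 * (L : ℤ)) (hi := 63 * (L : ℤ)) (d := (D₁ : ℤ) + 1) hA1 hB1 hag (fun j hj => by
        have h1 := g2 j hj
        change _ ≤ WR N b L ω j ∧ WR N b L ω j + _ < _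
        omega)
    have eL := walk_congr (b := b) (σ := -1) (x := 0) (ω := ω) (ω' := ω') (m := m)
      (lo := -62 * (L : ℤ)) (hi := 63 * (L : ℤ)) (d := (D₁ : ℤ) + 1) hA2 hB2 hag (fun j hj => by
        have h1 := g3 j hj
        change _ ≤ WL N b ω j ∧ WL N b ω j + _ < _
        omega)
    have eR' : ∀ j ≤ m, WR N b L ω' j = WR N b L ω j := eR
    have eL' : ∀ j ≤ m, WL N b ω' j = WL N b ω j := eL
    refine ⟨?_, ?_, ?_, ?_, ?_, ?_⟩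
    · intro i h1 h2 s s' h3 h4 h5 h6 h7 h8
      rw [← hag s i h3 h4 h1 (by push_cast at h2; exact h2),
        ← hag s' i h5 h6 h1 (by push_cast at h2; exact h2)]
      exact g1 i h1 h2 s s' h3 h4 h5 h6 h7 h8
    · intro j hj
      rw [eR' j hj]
      exact g2 j hj
    · intro j hj
      rw [eL' j hj]
      exact g3 j hj
    · rw [eR' m le_rfl]
      exact g4
    · rw [eL' m le_rfl]
      exact g5
    · intro s h1 h2
      rw [← hag s m (by omega) (by omega) (by omega) (by omega)]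
      exact g6 s h1 h2

lemma gB_wall (h : Mid N n D₁) {L m : ℕ} (hL : 16 * (D₁ + 2) ≤ L) (ω : Om)
    (hω : ω ∈ gB N b D₁ L m) : Wall N b D₁ L (m + 1) ω 0 0 := by
  have hL' : 16 * ((D₁ : ℤ) + 2) ≤ L := by exact_mod_cast hL
  obtain ⟨g1, g2, g3, g4, g5, g6⟩ := hω
  refine wall_of_walks h hL g1 ?_ ?_ ?_ ?_ g6
  · intro j hj
    have := g2 j hj
    omega
  · intro j hj
    have := g3 j hj
    omega
  · omega
  · omega

variable (μ₀ : Measure (Option Bool)) [IsProbabilityMeasure μ₀]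

lemma prob_last (b : Bool) (L m : ℕ) :
    (Pm μ₀).real {ω | ¬ ∀ s, -3 * (L : ℤ) ≤ s → s < 4 * L → ω (s, (m : ℤ)) ≠ some (!b)} ≤
      7 * L * μ₀.real {some (!b)} := by
  have e : {ω : Om | ¬ ∀ s, -3 * (L : ℤ) ≤ s → s < 4 * L → ω (s, (m : ℤ)) ≠ some (!b)} ⊆
      ⋃ s ∈ Finset.Ico (-3 * (L : ℤ)) (4 * L),
        {ω | ω (s, (m : ℤ)) ∈ ({some (!b)} : Set (Option Bool))} := by
    intro ω hω
    simp only [mem_ofPred_eq] at hω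
    push Not at hω
    obtain ⟨s, h1, h2, h3⟩ := hω
    exact mem_biUnion (Finset.mem_coe.2 (Finset.mem_Ico.2 ⟨h1, h2⟩)) h3
  refine (measureReal_mono e (measure_ne_top _ _)).trans ?_
  refine (measureReal_biUnion_finset_le _ _).trans ?_
  simp only [prob_single]
  rw [Finset.sum_const, Int.card_Ico, nsmul_eq_mul]
  have : (4 * (L : ℤ) - -3 * L) = ((7 * L : ℕ) : ℤ) := by push_cast; ring
  rw [this, Int.toNat_natCast]
  push_cast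
  exact le_rfl

lemma gB_compl (b : Bool) (L m : ℕ) (x₁ x₂ x₃ x₄ x₅ : ℝ)
    (hs : (Pm μ₀).real (Sparse (2 * D₁ + 1) (-62 * (L : ℤ)) (63 * L) (m + 1))ᶜ ≤ x₁)
    (hR1 : (Pm μ₀).real {ω | ∃ j ≤ m, 1 * (WR N b L ω j - (L - 1)) ≤ -((L : ℤ) / 4 + 1)} ≤ x₂)
    (hR2 : (Pm μ₀).real {ω | ∃ j ≤ m, 60 * (L : ℤ) ≤ 1 * (WR N b L ω j - (L - 1))} ≤ x₃)
    (hR3 : (Pm μ₀).real {ω | 1 * (WR N b L ω m - (L - 1)) ≤ 3 * (L : ℤ) - 1} ≤ x₄)
    (hL1 : (Pm μ₀).real {ω | ∃ j ≤ m, -1 * (WL N b ω j - 0) ≤ -((L : ℤ) / 4 + 1)} ≤ x₂)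
    (hL2 : (Pm μ₀).real {ω | ∃ j ≤ m, 60 * (L : ℤ) ≤ -1 * (WL N b ω j - 0)} ≤ x₃)
    (hL3 : (Pm μ₀).real {ω | -1 * (WL N b ω m - 0) ≤ 3 * (L : ℤ) - 1} ≤ x₄)
    (hl : (Pm μ₀).real {ω | ¬ ∀ s, -3 * (L : ℤ) ≤ s → s < 4 * L → ω (s, (m : ℤ)) ≠ some (!b)} ≤
      x₅) :
    (Pm μ₀).real (gB N b D₁ L m)ᶜ ≤ x₁ + 2 * (x₂ + x₃ + x₄) + x₅ := by
  have e : (gB N b D₁ L m)ᶜ ⊆ (Sparse (2 * D₁ + 1) (-62 * (L : ℤ)) (63 * L) (m + 1))ᶜ ∪
      ({ω | ∃ j ≤ m, 1 * (WR N b L ω j - (L - 1)) ≤ -((L : ℤ) / 4 + 1)} ∪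
      ({ω | ∃ j ≤ m, 60 * (L : ℤ) ≤ 1 * (WR N b L ω j - (L - 1))} ∪
      ({ω | 1 * (WR N b L ω m - (L - 1)) ≤ 3 * (L : ℤ) - 1} ∪
      ({ω | ∃ j ≤ m, -1 * (WL N b ω j - 0) ≤ -((L : ℤ) / 4 + 1)} ∪
      ({ω | ∃ j ≤ m, 60 * (L : ℤ) ≤ -1 * (WL N b ω j - 0)} ∪
      ({ω | -1 * (WL N b ω m - 0) ≤ 3 * (L : ℤ) - 1} ∪
      {ω | ¬ ∀ s, -3 * (L : ℤ) ≤ s → s < 4 * L → ω (s, (m : ℤ)) ≠ some (!b)})))))) := by
    intro ω hω
    by_contra hcon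
    simp only [mem_union, not_or, mem_compl_iff, not_not, mem_ofPred_eq, not_exists, not_and] at hcon
    obtain ⟨h1, h2, h3, h4, h5, h6, h7, h8⟩ := hcon
    exact hω ⟨h1, fun j hj => ⟨h2 j hj, h3 j hj⟩, fun j hj => ⟨h5 j hj, h6 j hj⟩, h4, h7, h8⟩
  refine (measureReal_mono e (measure_ne_top _ _)).trans ?_
  refine (measureReal_union_le _ _).trans ?_
  have h2 := measureReal_union_le (μ := Pm μ₀)
    {ω | ∃ j ≤ m, 1 * (WR N b L ω j - (L - 1)) ≤ -((L : ℤ) / 4 + 1)}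
      ({ω | ∃ j ≤ m, 60 * (L : ℤ) ≤ 1 * (WR N b L ω j - (L - 1))} ∪
      ({ω | 1 * (WR N b L ω m - (L - 1)) ≤ 3 * (L : ℤ) - 1} ∪
      ({ω | ∃ j ≤ m, -1 * (WL N b ω j - 0) ≤ -((L : ℤ) / 4 + 1)} ∪
      ({ω | ∃ j ≤ m, 60 * (L : ℤ) ≤ -1 * (WL N b ω j - 0)} ∪
      ({ω | -1 * (WL N b ω m - 0) ≤ 3 * (L : ℤ) - 1} ∪
      {ω | ¬ ∀ s, -3 * (L : ℤ) ≤ s → s < 4 * L → ω (s, (m : ℤ)) ≠ some (!b)})))))
  have h3 := measureReal_union_le (μ := Pm μ₀)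
      {ω | ∃ j ≤ m, 60 * (L : ℤ) ≤ 1 * (WR N b L ω j - (L - 1))}
      ({ω | 1 * (WR N b L ω m - (L - 1)) ≤ 3 * (L : ℤ) - 1} ∪
      ({ω | ∃ j ≤ m, -1 * (WL N b ω j - 0) ≤ -((L : ℤ) / 4 + 1)} ∪
      ({ω | ∃ j ≤ m, 60 * (L : ℤ) ≤ -1 * (WL N b ω j - 0)} ∪
      ({ω | -1 * (WL N b ω m - 0) ≤ 3 * (L : ℤ) - 1} ∪
      {ω | ¬ ∀ s, -3 * (L : ℤ) ≤ s → s < 4 * L → ω (s, (m : ℤ)) ≠ some (!b)}))))
  have h4 := measureReal_union_le (μ := Pm μ₀)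
      {ω | 1 * (WR N b L ω m - (L - 1)) ≤ 3 * (L : ℤ) - 1}
      ({ω | ∃ j ≤ m, -1 * (WL N b ω j - 0) ≤ -((L : ℤ) / 4 + 1)} ∪
      ({ω | ∃ j ≤ m, 60 * (L : ℤ) ≤ -1 * (WL N b ω j - 0)} ∪
      ({ω | -1 * (WL N b ω m - 0) ≤ 3 * (L : ℤ) - 1} ∪
      {ω | ¬ ∀ s, -3 * (L : ℤ) ≤ s → s < 4 * L → ω (s, (m : ℤ)) ≠ some (!b)})))
  have h5 := measureReal_union_le (μ := Pm μ₀)
      {ω | ∃ j ≤ m, -1 * (WL N b ω j - 0) ≤ -((L : ℤ) / 4 + 1)}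
      ({ω | ∃ j ≤ m, 60 * (L : ℤ) ≤ -1 * (WL N b ω j - 0)} ∪
      ({ω | -1 * (WL N b ω m - 0) ≤ 3 * (L : ℤ) - 1} ∪
      {ω | ¬ ∀ s, -3 * (L : ℤ) ≤ s → s < 4 * L → ω (s, (m : ℤ)) ≠ some (!b)}))
  have h6 := measureReal_union_le (μ := Pm μ₀)
      {ω | ∃ j ≤ m, 60 * (L : ℤ) ≤ -1 * (WL N b ω j - 0)}
      ({ω | -1 * (WL N b ω m - 0) ≤ 3 * (L : ℤ) - 1} ∪
      {ω | ¬ ∀ s, -3 * (L : ℤ) ≤ s → s < 4 * L → ω (s, (m : ℤ)) ≠ some (!b)})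
  have h7 := measureReal_union_le (μ := Pm μ₀)
      {ω | -1 * (WL N b ω m - 0) ≤ 3 * (L : ℤ) - 1}
      {ω | ¬ ∀ s, -3 * (L : ℤ) ≤ s → s < 4 * L → ω (s, (m : ℤ)) ≠ some (!b)}
  linarith

/-- The weakly biased regime. -/
theorem micro_B (h : Mid N n D₁) : ∃ C : ℝ, 0 < C ∧
    ∀ (μ₀ : Measure (Option Bool)) [IsProbabilityMeasure μ₀] (b : Bool),
      μ₀.real {some (!b)} < μ₀.real {some b} →
      C * (μ₀.real {some b}) ^ 4 ≤ (μ₀.real {some b} - μ₀.real {some (!b)}) ^ 3 →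
      ∃ (L T : ℕ) (g : Set Om), 1 ≤ L ∧ FL (box 62 L T) g ∧ (∀ ω ∈ g, Wall N b D₁ L T ω 0 0) ∧
        (Pm μ₀).real gᶜ ≤ (3 / 64) ^ (2 * 62 + 1) := by
  obtain ⟨C₀, hC₀, hW⟩ := walk_bounds (n + 1) (by omega)
  set K : ℝ := 1600 * (D₁ + 2) with hK
  have hDn : (0 : ℝ) ≤ D₁ := Nat.cast_nonneg _
  have hK1 : 3200 ≤ K := by rw [hK]; nlinarith
  set C₁ : ℝ := 864000 * K ^ 2 * (2 * D₁ + 1) + 63 * K with hC₁
  have hC₁0 : 0 < C₁ := by positivity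
  refine ⟨C₁ * (2 * (64 / 3) ^ 125) + C₀ ^ 3, by positivity, ?_⟩
  intro μ₀ _ b hca hC
  set a : ℝ := μ₀.real {some b} with ha
  set c : ℝ := μ₀.real {some (!b)} with hc
  have hc0 : 0 ≤ c := ENNReal.toReal_nonneg
  have ha0 : 0 < a := hc0.trans_lt hca
  have ha1 : a ≤ 1 := measureReal_le_one
  set ρ : ℝ := a - c with hρ
  have hρ0 : 0 < ρ := sub_pos.2 hca
  have hρa : ρ ≤ a := by rw [hρ]; linarith
  have hA3 : C₀ * a ^ 2 ≤ ρ := by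
    by_contra hcon
    push Not at hcon
    have h1 : ρ ^ 3 < (C₀ * a ^ 2) ^ 3 := pow_lt_pow_left₀ hcon hρ0.le (by norm_num)
    have h2 : a ^ 6 ≤ a ^ 4 := pow_le_pow_of_le_one ha0.le ha1 (by norm_num)
    have h3 : (C₀ * a ^ 2) ^ 3 = C₀ ^ 3 * a ^ 6 := by ring
    have h4 : C₀ ^ 3 * a ^ 6 ≤ C₀ ^ 3 * a ^ 4 := mul_le_mul_of_nonneg_left h2 (by positivity)
    have h5 : 0 ≤ C₁ * (2 * (64 / 3) ^ 125) * a ^ 4 := by positivity
    have h6 : (C₁ * (2 * (64 / 3) ^ 125) + C₀ ^ 3) * a ^ 4 =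
      C₁ * (2 * (64 / 3) ^ 125) * a ^ 4 + C₀ ^ 3 * a ^ 4 := by ring
    linarith
  have hA4 : C₁ * (2 * (64 / 3) ^ 125) * a ^ 4 ≤ ρ ^ 3 := by
    have h5 : 0 ≤ C₀ ^ 3 * a ^ 4 := by positivity
    have h6 : (C₁ * (2 * (64 / 3) ^ 125) + C₀ ^ 3) * a ^ 4 =
      C₁ * (2 * (64 / 3) ^ 125) * a ^ 4 + C₀ ^ 3 * a ^ 4 := by ring
    linarith
  set lam : ℝ := ρ / (8 * a) with hlam
  set θ : ℝ := ((n + 1 : ℕ) : ℝ) * ρ ^ 2 / (32 * a) with hθ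
  obtain ⟨hθ1, hR⟩ := hW μ₀ b 1 (Ar N) (Br N) (Or.inl rfl) (disj_r N) h.left (card_Br h) a c lam θ
    ha hc hca hA3 hlam hθ
  obtain ⟨-, hLf⟩ := hW μ₀ b (-1) (Al N) (Bl N) (Or.inr rfl) (disj_l N) h.right (card_Bl h) a c lam
    θ ha hc hca hA3 hlam hθ
  have hlam0 : 0 < lam := by positivity
  have hlam1 : lam ≤ 1 / 8 := by
    rw [hlam, div_le_div_iff₀ (by positivity) (by norm_num)]
    linarith
  have hθ0 : 0 < θ := by positivity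
  obtain ⟨L, hLdef⟩ : ∃ L : ℕ, L = ⌈K / lam⌉₊ := ⟨_, rfl⟩
  obtain ⟨m, hmdef⟩ : ∃ m : ℕ, m = ⌈5 * K / θ⌉₊ := ⟨_, rfl⟩
  have hL1 : K / lam ≤ L := by rw [hLdef]; exact Nat.le_ceil _
  have hL2 : (L : ℝ) ≤ K / lam + 1 := by
    rw [hLdef]; exact (Nat.ceil_lt_add_one (by positivity)).le
  have hm1 : 5 * K / θ ≤ m := by rw [hmdef]; exact Nat.le_ceil _
  have hm2 : (m : ℝ) ≤ 5 * K / θ + 1 := by
    rw [hmdef]; exact (Nat.ceil_lt_add_one (by positivity)).le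
  have hlL1 : K ≤ lam * L := by
    have := (div_le_iff₀ hlam0).1 hL1
    linarith
  have hlL2 : lam * L ≤ K + 1 := by
    have h1 : lam * L ≤ lam * (K / lam + 1) := mul_le_mul_of_nonneg_left hL2 hlam0.le
    have h2 : lam * (K / lam + 1) = K + lam := by field_simp
    linarith
  have hθm1 : 5 * K ≤ θ * m := by
    have := (div_le_iff₀ hθ0).1 hm1
    linarith
  have hθm2 : θ * m ≤ 5 * K + 1 := by
    have h1 : θ * m ≤ θ * (5 * K / θ + 1) := mul_le_mul_of_nonneg_left hm2 hθ0.le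
    have h2 : θ * (5 * K / θ + 1) = 5 * K + θ := by field_simp
    linarith
  have hLbig : 16 * (D₁ + 2) ≤ L := by
    have h1 : (8 : ℝ) * K ≤ K / lam := by
      rw [le_div_iff₀ hlam0]
      nlinarith
    have h2 : (16 * (D₁ + 2) : ℝ) ≤ L := by
      rw [hK] at h1 hL1
      nlinarith
    exact_mod_cast h2
  refine ⟨L, m + 1, gB N b D₁ L m, by omega, gB_FL h hLbig, gB_wall h hLbig, ?_⟩
  have hLn : (0 : ℝ) ≤ L := Nat.cast_nonneg _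
  have hq : ((((L : ℤ) / 4 + 1 : ℤ)) : ℝ) ≥ L / 4 := by
    have h1 : (L : ℤ) ≤ 4 * ((L : ℤ) / 4 + 1) := by omega
    have h2 : (L : ℝ) ≤ 4 * ((((L : ℤ) / 4 + 1 : ℤ)) : ℝ) := by exact_mod_cast h1
    linarith
  -- the three walk estimates
  have y2 : Real.exp (-(lam * (((L : ℤ) / 4 + 1 : ℤ) : ℝ))) ≤ Real.exp (-400) := by
    refine Real.exp_le_exp.2 ?_
    have : lam * (L / 4) ≤ lam * (((L : ℤ) / 4 + 1 : ℤ) : ℝ) :=
      mul_le_mul_of_nonneg_left hq hlam0.le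
    nlinarith
  have y3 : (1 + 9 * θ) ^ m * Real.exp (-(lam * ((60 * (L : ℤ) : ℤ) : ℝ))) ≤ Real.exp (-400) := by
    have h1 : (1 + 9 * θ) ^ m ≤ Real.exp (9 * (θ * m)) := by
      have h2 : 1 + 9 * θ ≤ Real.exp (9 * θ) := by
        have := Real.add_one_le_exp (9 * θ)
        linarith
      calc (1 + 9 * θ) ^ m ≤ (Real.exp (9 * θ)) ^ m := pow_le_pow_left₀ (by positivity) h2 m
        _ = Real.exp (9 * (θ * m)) := by rw [← Real.exp_nat_mul]; congr 1; ring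
    calc _ ≤ Real.exp (9 * (θ * m)) * Real.exp (-(lam * ((60 * (L : ℤ) : ℤ) : ℝ))) :=
          mul_le_mul_of_nonneg_right h1 (Real.exp_pos _).le
      _ = Real.exp (9 * (θ * m) - 60 * (lam * L)) := by
          rw [← Real.exp_add]
          congr 1
          push_cast
          ring
      _ ≤ _ := Real.exp_le_exp.2 (by linarith)
  have y4 : (1 - θ) ^ m * Real.exp (lam * ((3 * (L : ℤ) - 1 : ℤ) : ℝ)) ≤ Real.exp (-400) := by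
    have h1 : (1 - θ) ^ m ≤ Real.exp (-(θ * m)) := by
      have h2 : 1 - θ ≤ Real.exp (-θ) := by
        have := Real.add_one_le_exp (-θ)
        linarith
      calc (1 - θ) ^ m ≤ (Real.exp (-θ)) ^ m := pow_le_pow_left₀ (by linarith) h2 m
        _ = Real.exp (-(θ * m)) := by rw [← Real.exp_nat_mul]; congr 1; ring
    calc _ ≤ Real.exp (-(θ * m)) * Real.exp (lam * ((3 * (L : ℤ) - 1 : ℤ) : ℝ)) :=
          mul_le_mul_of_nonneg_right h1 (Real.exp_pos _).le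
      _ = Real.exp (-(θ * m) + 3 * (lam * L) - lam) := by
          rw [← Real.exp_add]
          congr 1
          push_cast
          ring
      _ ≤ _ := Real.exp_le_exp.2 (by linarith)
  -- the sparseness
  have hinv1 : 1 ≤ 1 / θ := by rw [le_div_iff₀ hθ0]; linarith
  have hra : 1 ≤ a / ρ := by rw [le_div_iff₀ hρ0]; linarith
  have hLub : (L : ℝ) ≤ 9 * K * (a / ρ) := by
    have h1 : K / lam = 8 * K * (a / ρ) := by
      rw [hlam]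
      field_simp
    rw [h1] at hL2
    nlinarith
  have hn1 : (1 : ℝ) ≤ ((n + 1 : ℕ) : ℝ) := by exact_mod_cast Nat.succ_le_succ (Nat.zero_le n)
  have hθub : 1 / θ ≤ 32 * a / ρ ^ 2 := by
    rw [hθ, one_div_div, div_le_div_iff₀ (by positivity) (by positivity)]
    have h1 : 0 ≤ 32 * a * ρ ^ 2 := by positivity
    nlinarith
  have hmub : ((m + 1 : ℕ) : ℝ) ≤ 192 * K * (a / ρ ^ 2) := by
    have h1 : ((m + 1 : ℕ) : ℝ) ≤ 6 * K * (1 / θ) := by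
      push_cast
      have h2 : 5 * K / θ = 5 * K * (1 / θ) := by ring
      rw [h2] at hm2
      nlinarith
    calc ((m + 1 : ℕ) : ℝ) ≤ 6 * K * (1 / θ) := h1
      _ ≤ 6 * K * (32 * a / ρ ^ 2) := mul_le_mul_of_nonneg_left hθub (by positivity)
      _ = _ := by ring
  have hsum : μ₀.real {some true} + μ₀.real {some false} = a + c := by
    rw [ha, hc]
    cases b
    · rw [add_comm]; rfl
    · rfl
  have hac : (a + c) ^ 2 ≤ 4 * a ^ 2 := by nlinarith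
  have y1 : (Pm μ₀).real (Sparse (2 * D₁ + 1) (-62 * (L : ℤ)) (63 * L) (m + 1))ᶜ ≤
      864000 * K ^ 2 * (2 * D₁ + 1) * (a ^ 4 / ρ ^ 3) := by
    refine (prob_sparse μ₀ (2 * D₁ + 1) (-62 * (L : ℤ)) (63 * L) (by omega) (m + 1)).trans ?_
    rw [hsum]
    have h1 : ((63 * (L : ℤ) : ℤ) : ℝ) - ((-62 * (L : ℤ) : ℤ) : ℝ) = 125 * L := by
      push_cast
      ring
    rw [h1]
    calc ((m + 1 : ℕ) : ℝ) * (125 * L) * ((2 * D₁ + 1 : ℕ) : ℝ) * (a + c) ^ 2 ≤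
        (192 * K * (a / ρ ^ 2)) * (125 * (9 * K * (a / ρ))) * ((2 * D₁ + 1 : ℕ) : ℝ) *
          (4 * a ^ 2) := by
          gcongr
      _ = _ := by
          push_cast
          field_simp
          ring
  have y5 : 7 * L * c ≤ 63 * K * (a ^ 4 / ρ ^ 3) := by
    have h1 : a ^ 2 / ρ ≤ a ^ 4 / ρ ^ 3 := by
      rw [div_le_div_iff₀ hρ0 (by positivity)]
      have h2 : ρ ^ 2 ≤ a ^ 2 := pow_le_pow_left₀ hρ0.le hρa 2
      have h3 : a ^ 2 * ρ ^ 3 = (a ^ 2 * ρ) * ρ ^ 2 := by ring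
      have h4 : a ^ 4 * ρ = (a ^ 2 * ρ) * a ^ 2 := by ring
      rw [h3, h4]
      exact mul_le_mul_of_nonneg_left h2 (by positivity)
    calc 7 * L * c ≤ 7 * (9 * K * (a / ρ)) * a := by
          gcongr
      _ = 63 * K * (a ^ 2 / ρ) := by ring
      _ ≤ _ := mul_le_mul_of_nonneg_left h1 (by positivity)
  have hfin : C₁ * (a ^ 4 / ρ ^ 3) ≤ (3 / 64) ^ 125 / 2 := by
    have h1 : (3 / 64 : ℝ) ^ 125 * (64 / 3) ^ 125 = 1 := by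
      rw [← mul_pow]
      norm_num
    rw [← mul_div_assoc, div_le_iff₀ (by positivity)]
    have h2 : 0 < (3 / 64 : ℝ) ^ 125 := by positivity
    have h3 := mul_le_mul_of_nonneg_left hA4 (show 0 ≤ (3 / 64 : ℝ) ^ 125 / 2 by positivity)
    calc C₁ * a ^ 4 = ((3 / 64 : ℝ) ^ 125 * (64 / 3) ^ 125) * (C₁ * a ^ 4) := by rw [h1, one_mul]
      _ = (3 / 64 : ℝ) ^ 125 / 2 * (C₁ * (2 * (64 / 3) ^ 125) * a ^ 4) := by ring
      _ ≤ _ := h3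
  have hexp : 6 * Real.exp (-400) ≤ (3 / 64) ^ 125 / 2 := by
    have h1 : Real.exp (-400) = ((Real.exp (-1)) ^ 4) ^ 100 := by
      rw [← pow_mul, ← Real.exp_nat_mul]
      norm_num
    have h2 : Real.exp (-1) ≤ 3679 / 10000 := by
      have := Real.exp_neg_one_lt_d9
      linarith
    have h3 : (Real.exp (-1)) ^ 4 ≤ 1 / 54 := by
      calc (Real.exp (-1)) ^ 4 ≤ (3679 / 10000 : ℝ) ^ 4 := by gcongr
        _ ≤ _ := by norm_num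
    rw [h1]
    calc 6 * ((Real.exp (-1)) ^ 4) ^ 100 ≤ 6 * (1 / 54 : ℝ) ^ 100 := by
          gcongr
      _ ≤ _ := by norm_num
  have hmain := gB_compl (N := N) (D₁ := D₁) μ₀ b L m _ _ _ _ _ y1
    (((hR m 0 (L - 1) ((L : ℤ) / 4 + 1)).1).trans y2)
    (((hR m 0 (L - 1) (60 * L)).2.1).trans y3)
    (((hR m 0 (L - 1) (3 * L - 1)).2.2).trans y4)
    (((hLf m 0 0 ((L : ℤ) / 4 + 1)).1).trans y2)
    (((hLf m 0 0 (60 * L)).2.1).trans y3)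
    (((hLf m 0 0 (3 * L - 1)).2.2).trans y4)
    ((prob_last μ₀ b L m).trans y5)
  have hC₁' : C₁ * (a ^ 4 / ρ ^ 3) = 864000 * K ^ 2 * (2 * D₁ + 1) * (a ^ 4 / ρ ^ 3) +
      63 * K * (a ^ 4 / ρ ^ 3) := by rw [hC₁]; ring
  calc (Pm μ₀).real (gB N b D₁ L m)ᶜ ≤ _ := hmain
    _ = C₁ * (a ^ 4 / ρ ^ 3) + 6 * Real.exp (-400) := by rw [hC₁']; ring
    _ ≤ (3 / 64) ^ 125 / 2 + (3 / 64) ^ 125 / 2 := add_le_add hfin hexp
    _ = (3 / 64) ^ (2 * 62 + 1) := by ring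

end Pool.Agent.Helper55.Vote.MB
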