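import Pool.Agent.Helper55.Vote.MicroA
import Pool.Agent.Helper55.Vote.MicroB
import Pool.Agent.Helper55.Vote.Crit

/-! Ergodicity of the noisy majority voting for biased noise. -/

namespace Pool.Agent.Helper55.Vote

open MeasureTheory Set ProbabilityTheory

/-- the median of a set with `2 n + 1` elements -/
lemma exists_median {N : Finset ℤ} {n : ℕ} (hn : N.card = 2 * n + 1) :
    ∃ c ∈ N, n + 1 ≤ (N.filter fun v => c ≤ v).card ∧ n + 1 ≤ (N.filter fun v => v ≤ c).card := by
  classical
  have hlt : n < 2 * n + 1 := by omega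
  set e := N.orderEmbOfFin hn with he
  refine ⟨e ⟨n, hlt⟩, Finset.orderEmbOfFin_mem N hn _, ?_, ?_⟩
  · have h1 : (Finset.Ici (⟨n, hlt⟩ : Fin (2 * n + 1))).map e.toEmbedding ⊆
        N.filter fun v => e ⟨n, hlt⟩ ≤ v := by
      intro v hv
      obtain ⟨i, hi, rfl⟩ := Finset.mem_map.1 hv
      refine Finset.mem_filter.2 ⟨Finset.orderEmbOfFin_mem N hn _, ?_⟩
      exact e.monotone (Finset.mem_Ici.1 hi)
    have h2 := Finset.card_le_card h1
    rw [Finset.card_map, Fin.card_Ici] at h2
    simp only at h2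
    omega
  · have h1 : (Finset.Iic (⟨n, hlt⟩ : Fin (2 * n + 1))).map e.toEmbedding ⊆
        N.filter fun v => v ≤ e ⟨n, hlt⟩ := by
      intro v hv
      obtain ⟨i, hi, rfl⟩ := Finset.mem_map.1 hv
      refine Finset.mem_filter.2 ⟨Finset.orderEmbOfFin_mem N hn _, ?_⟩
      exact e.monotone (Finset.mem_Iic.1 hi)
    have h2 := Finset.card_le_card h1
    rw [Finset.card_map, Fin.card_Iic] at h2
    simp only at h2
    omega

lemma card_shift (N : Finset ℤ) (c : ℤ) : (N.image fun v => v - c).card = N.card :=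
  Finset.card_image_of_injective _ (sub_left_injective)

lemma filter_shift (N : Finset ℤ) (c : ℤ) (p q : ℤ → Prop) [DecidablePred p] [DecidablePred q]
    (h : ∀ v, p (v - c) ↔ q v) :
    ((N.image fun v => v - c).filter p).card = (N.filter q).card := by
  have e : (N.image fun v => v - c).filter p = (N.filter q).image fun v => v - c := by
    ext v
    simp only [Finset.mem_filter, Finset.mem_image]
    constructor
    · rintro ⟨⟨w, hw, rfl⟩, hp⟩
      exact ⟨w, ⟨hw, (h w).1 hp⟩, rfl⟩
    · rintro ⟨w, ⟨hw, hq⟩, rfl⟩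
      exact ⟨⟨w, hw, rfl⟩, (h w).2 hq⟩
  rw [e, Finset.card_image_of_injective _ (sub_left_injective)]

lemma exists_bound (N : Finset ℤ) : ∃ D₁ : ℕ, ∀ v ∈ N, |v| ≤ D₁ := by
  refine ⟨N.sup Int.natAbs, fun v hv => ?_⟩
  rw [Int.abs_eq_natAbs]
  exact_mod_cast Finset.le_sup (f := Int.natAbs) hv

/-- ergodicity from a local wall event for the centred neighbourhood -/
lemma ergodic_of_wall {N : Finset ℤ} {c : ℤ} {D₁ L T w : ℕ} {ε δ : ℝ} (hε : 0 < ε) (hδ : 0 < δ)
    (hεδ : ε + δ ≤ 1) {b : Bool} (hD : ∀ v ∈ N.image (fun v => v - c), |v| ≤ D₁) (hL : 1 ≤ L)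
    {g : Set Om} (hg : FL (box w L T) g)
    (hgW : ∀ ω ∈ g, Wall (N.image fun v => v - c) b D₁ L T ω 0 0)
    (hgP : (Pm (law ε δ)).real gᶜ ≤ (3 / 64) ^ (2 * w + 1)) : Ergodic N ε δ := by
  have : IsProbabilityMeasure (law ε δ) := law_prob hε.le hδ.le hεδ
  refine ergodic_of_decay N ε δ hε hδ hεδ ?_
  have h1 := decay_of_blocks (law ε δ) (D_antitone (law ε δ) (N.image fun v => v - c)) hD hL
    (b := b) ?_ hg hgW hgP
  · refine h1.congr fun t => ?_
    exact D_shear (law ε δ) N c t
  · cases b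
    · rw [law_false hε.le]; exact hε
    · rw [law_true hδ.le]; exact hδ

/-- Strongly biased noise. -/
theorem strong_bias (N : Finset ℤ) (hN : Odd N.card) :
    ∃ κ : ℝ, 0 < κ ∧ ∀ ε δ : ℝ, 0 < ε → 0 < δ → ε + δ ≤ 1 → (ε ≤ κ * δ ∨ δ ≤ κ * ε) →
      Ergodic N ε δ := by
  obtain ⟨n, hn⟩ := hN
  obtain ⟨c, -, hc1, hc2⟩ := exists_median hn
  obtain ⟨D₁, hD⟩ := exists_bound (N.image fun v => v - c)
  have h1 : (N.image fun v => v - c).card = 2 * n + 1 := by rw [card_shift, hn]
  have h2 : n + 1 ≤ ((N.image fun v => v - c).filter fun v => 0 ≤ v).card := by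
    rw [filter_shift N c (fun v => 0 ≤ v) (fun v => c ≤ v) fun v => by omega]
    exact hc1
  have h3 : n + 1 ≤ ((N.image fun v => v - c).filter fun v => v ≤ 0).card := by
    rw [filter_shift N c (fun v => v ≤ 0) (fun v => v ≤ c) fun v => by omega]
    exact hc2
  obtain ⟨κ, hκ, hmain⟩ := micro_A h1 hD h2 h3
  refine ⟨κ, hκ, fun ε δ hε hδ hεδ h => ?_⟩
  have : IsProbabilityMeasure (law ε δ) := law_prob hε.le hδ.le hεδ
  rcases h with h | h
  · obtain ⟨L, T, g, hL, hg, hgW, hgP⟩ := hmain (law ε δ) true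
      (by rw [law_true hδ.le]; exact hδ)
      (by
        simp only [Bool.not_true]
        rw [law_true hδ.le, law_false hε.le]; exact h)
    exact ergodic_of_wall hε hδ hεδ hD hL hg hgW hgP
  · obtain ⟨L, T, g, hL, hg, hgW, hgP⟩ := hmain (law ε δ) false
      (by rw [law_false hε.le]; exact hε)
      (by
        simp only [Bool.not_false]
        rw [law_true hδ.le, law_false hε.le]; exact h)
    exact ergodic_of_wall hε hδ hεδ hD hL hg hgW hgP

/-- Small biased noise. -/
theorem small_biased (N : Finset ℤ) (c : ℤ) (hc : c ∈ N) (hc1 : c - 1 ∈ N) (hc2 : c + 1 ∈ N)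
    (hm : (N.filter fun v => v < c).card = (N.filter fun v => c < v).card) :
    ∃ C : ℝ, 0 < C ∧ ∀ ε δ : ℝ, 0 < ε → 0 < δ → ε + δ ≤ 1 →
      C * (max ε δ) ^ 4 ≤ |ε - δ| ^ 3 → Ergodic N ε δ := by
  classical
  obtain ⟨D₁, hD⟩ := exists_bound (N.image fun v => v - c)
  set n : ℕ := (N.filter fun v => v < c).card with hn
  have e1 : (N.filter fun v => c ≤ v) = insert c (N.filter fun v => c < v) := by
    ext v
    simp only [Finset.mem_filter, Finset.mem_insert]
    constructor
    · rintro ⟨h1, h2⟩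
      rcases h2.lt_or_eq with h3 | h3
      · exact Or.inr ⟨h1, h3⟩
      · exact Or.inl h3.symm
    · rintro (h1 | ⟨h1, h2⟩)
      · rw [h1]; exact ⟨hc, le_rfl⟩
      · exact ⟨h1, h2.le⟩
  have e2 : (N.filter fun v => v ≤ c) = insert c (N.filter fun v => v < c) := by
    ext v
    simp only [Finset.mem_filter, Finset.mem_insert]
    constructor
    · rintro ⟨h1, h2⟩
      rcases h2.lt_or_eq with h3 | h3
      · exact Or.inr ⟨h1, h3⟩
      · exact Or.inl h3
    · rintro (h1 | ⟨h1, h2⟩)
      · rw [h1]; exact ⟨hc, le_rfl⟩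
      · exact ⟨h1, h2.le⟩
  have c1 : (N.filter fun v => c ≤ v).card = n + 1 := by
    rw [e1, Finset.card_insert_of_notMem (by simp), ← hm]
  have c2 : (N.filter fun v => v ≤ c).card = n + 1 := by
    rw [e2, Finset.card_insert_of_notMem (by simp)]
  have c3 : N.card = 2 * n + 1 := by
    have h1 := Finset.card_filter_add_card_filter_not (s := N) (fun v => v < c)
    have h2 : (N.filter fun v => ¬ v < c) = N.filter fun v => c ≤ v := by
      ext v
      simp only [Finset.mem_filter, not_lt]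
    rw [h2, c1] at h1
    omega
  have hMid : MB.Mid (N.image fun v => v - c) n D₁ := by
    refine ⟨by rw [card_shift, c3], hD, ?_, ?_, ?_, ?_, ?_⟩
    · exact Finset.mem_image.2 ⟨c, hc, by ring⟩
    · exact Finset.mem_image.2 ⟨c + 1, hc2, by ring⟩
    · exact Finset.mem_image.2 ⟨c - 1, hc1, by ring⟩
    · rw [filter_shift N c (fun v => 0 ≤ v) (fun v => c ≤ v) fun v => by omega]
      exact c1
    · rw [filter_shift N c (fun v => v ≤ 0) (fun v => v ≤ c) fun v => by omega]
      exact c2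
  obtain ⟨C, hC, hmain⟩ := MB.micro_B hMid
  refine ⟨C, hC, fun ε δ hε hδ hεδ h => ?_⟩
  have : IsProbabilityMeasure (law ε δ) := law_prob hε.le hδ.le hεδ
  have hne : ε ≠ δ := by
    rintro rfl
    rw [max_self, sub_self, abs_zero] at h
    have : 0 < C * ε ^ 4 := by positivity
    norm_num at h
    linarith
  rcases lt_or_gt_of_ne hne with hlt | hlt
  · rw [max_eq_right hlt.le, abs_of_neg (by linarith), neg_sub] at h
    obtain ⟨L, T, g, hL, hg, hgW, hgP⟩ := hmain (law ε δ) true
      (by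
        simp only [Bool.not_true]
        rw [law_true hδ.le, law_false hε.le]; exact hlt)
      (by
        simp only [Bool.not_true]
        rw [law_true hδ.le, law_false hε.le]; exact h)
    exact ergodic_of_wall hε hδ hεδ hD hL hg hgW hgP
  · rw [max_eq_left hlt.le, abs_of_pos (by linarith)] at h
    obtain ⟨L, T, g, hL, hg, hgW, hgP⟩ := hmain (law ε δ) false
      (by
        simp only [Bool.not_false]
        rw [law_true hδ.le, law_false hε.le]; exact hlt)
      (by
        simp only [Bool.not_false]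
        rw [law_true hδ.le, law_false hε.le]; exact h)
    exact ergodic_of_wall hε hδ hεδ hD hL hg hgW hgP

end Pool.Agent.Helper55.Vote
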