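import Pool.Agent.Helper55.Vote.Blocks

/-! Strongly biased noise: a local event of high probability on which a block carries a (static)
wall. -/

namespace Pool.Agent.Helper55.Vote

open MeasureTheory Set ProbabilityTheory

/-- a majority of equal values -/
lemma maj_eq_of {N M : Finset ℤ} {n : ℕ} (hn : N.card = 2 * n + 1) (hM : M ⊆ N)
    (hc : n + 1 ≤ M.card) {x : ℤ → Bool} {s : ℤ} {b : Bool} (hx : ∀ v ∈ M, x (s + v) = b) :
    maj N x s = b := by
  classical
  unfold maj
  cases b with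
  | true =>
    rw [decide_eq_true_eq]
    have h1 : M ⊆ N.filter fun j => x (s + j) = true := fun v hv =>
      Finset.mem_filter.2 ⟨hM hv, hx v hv⟩
    have h2 := Finset.card_le_card h1
    omega
  | false =>
    rw [decide_eq_false_iff_not, not_lt]
    have h1 : (N.filter fun j => x (s + j) = true) ⊆ N \ M := by
      intro v hv
      rw [Finset.mem_filter] at hv
      rw [Finset.mem_sdiff]
      refine ⟨hv.1, fun h => ?_⟩
      rw [hx v h] at hv
      exact absurd hv.2 (by simp)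
    have h2 := Finset.card_le_card h1
    rw [Finset.card_sdiff_of_subset hM] at h2
    omega

/-- inside a long interval of equal values the majority rule keeps the value -/
lemma maj_interval {N : Finset ℤ} {n D₁ : ℕ} (hn : N.card = 2 * n + 1) (hD : ∀ v ∈ N, |v| ≤ D₁)
    (h1 : n + 1 ≤ (N.filter fun v => 0 ≤ v).card) (h2 : n + 1 ≤ (N.filter fun v => v ≤ 0).card)
    {x : ℤ → Bool} {b : Bool} {p q s : ℤ} (hpq : 2 * (D₁ : ℤ) ≤ q - p)
    (hx : ∀ s, p ≤ s → s ≤ q → x s = b) (hs1 : p ≤ s) (hs2 : s ≤ q) : maj N x s = b := by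
  classical
  by_cases hs : s ≤ q - D₁
  · refine maj_eq_of hn (Finset.filter_subset (fun v => 0 ≤ v) N) h1 fun v hv => ?_
    rw [Finset.mem_filter] at hv
    have h3 := hD v hv.1
    rw [abs_le] at h3
    exact hx _ (by omega) (by omega)
  · refine maj_eq_of hn (Finset.filter_subset (fun v => v ≤ 0) N) h2 fun v hv => ?_
    rw [Finset.mem_filter] at hv
    have h3 := hD v hv.1
    rw [abs_le] at h3
    exact hx _ (by omega) (by omega)

lemma step_eq_of {N : Finset ℤ} {w : ℤ → Option Bool} {x : ℤ → Bool} {s : ℤ} {b : Bool}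
    (h : w s ≠ some (!b)) (hm : maj N x s = b) : step N w x s = b := by
  unfold step
  cases hw : w s with
  | none => simpa using hm
  | some c =>
    rw [hw] at h
    simp only [Option.getD_some]
    cases b <;> cases c <;> simp_all

/-- an interval of equal values persists as long as there is no opposite noise -/
lemma persist {N : Finset ℤ} {n D₁ : ℕ} (hn : N.card = 2 * n + 1) (hD : ∀ v ∈ N, |v| ≤ D₁)
    (h1 : n + 1 ≤ (N.filter fun v => 0 ≤ v).card) (h2 : n + 1 ≤ (N.filter fun v => v ≤ 0).card)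
    {b : Bool} {ω : Om} {lo hi : ℤ} {T : ℕ}
    (hno : ∀ s k, lo ≤ s → s < hi → 0 ≤ k → k < (T : ℤ) → ω (s, k) ≠ some (!b))
    {x : ℤ → Bool} {p q : ℤ} (hlo : lo ≤ p) (hhi : q < hi) (hpq : 2 * (D₁ : ℤ) ≤ q - p)
    {j₀ : ℕ} (hj₀ : ∀ s, p ≤ s → s ≤ q → run N ω 0 x j₀ s = b) {j : ℕ} (hj : j₀ ≤ j)
    (hjT : j ≤ T) : ∀ s, p ≤ s → s ≤ q → run N ω 0 x j s = b := by
  induction j, hj using Nat.le_induction with
  | base => exact hj₀
  | succ j hj ih =>
    intro s hs1 hs2
    rw [run_succ]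
    refine step_eq_of ?_ (maj_interval hn hD h1 h2 hpq (ih (by omega)) hs1 hs2)
    exact hno _ _ (by omega) (by omega) (by omega) (by omega)

/-- the growth of an interval -/
lemma growth {N : Finset ℤ} {n D₁ : ℕ} (hn : N.card = 2 * n + 1) (hD : ∀ v ∈ N, |v| ≤ D₁)
    (h1 : n + 1 ≤ (N.filter fun v => 0 ≤ v).card) (h2 : n + 1 ≤ (N.filter fun v => v ≤ 0).card)
    {b : Bool} {ω : Om} {L T' : ℕ} (hL : L = 2 * D₁ + 1)
    (hno : ∀ s k, -(3 * (L : ℤ)) ≤ s → s < 4 * L → 0 ≤ k → k < ((3 * L * T' : ℕ) : ℤ) →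
      ω (s, k) ≠ some (!b))
    (hR : ∀ r < 3 * L, ∃ k ∈ Finset.Ico (r * T') ((r + 1) * T'), ω ((L : ℤ) + r, (k : ℤ)) = some b)
    (hLf : ∀ r < 3 * L, ∃ k ∈ Finset.Ico (r * T') ((r + 1) * T'), ω (-1 - (r : ℤ), (k : ℤ)) = some b)
    {x : ℤ → Bool} (hx : ∀ s, 0 ≤ s → s < (L : ℤ) → x s = b) (r : ℕ) (hr : r ≤ 3 * L) :
    ∀ j, r * T' ≤ j → j ≤ 3 * L * T' → ∀ s, -(r : ℤ) ≤ s → s ≤ (L : ℤ) - 1 + r →
      run N ω 0 x j s = b := by
  induction r with
  | zero =>
    intro j _ hjT s hs1 hs2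
    refine persist hn hD h1 h2 hno (p := 0) (q := (L : ℤ) - 1) (by omega) (by omega) (by omega)
      (j₀ := 0) ?_ (Nat.zero_le j) hjT s (by omega) (by omega)
    intro s hs1 hs2
    rw [run_zero]
    exact hx s hs1 (by omega)
  | succ r ih =>
    intro j hj1 hjT s hs1 hs2
    have ih' := ih (by omega)
    have hrT : (r + 1) * T' ≤ 3 * L * T' := Nat.mul_le_mul_right _ hr
    obtain ⟨k, hk, hkb⟩ := hR r (by omega)
    obtain ⟨k', hk', hkb'⟩ := hLf r (by omega)
    rw [Finset.mem_Ico] at hk hk'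
    push_cast at hs1 hs2
    by_cases hc : -(r : ℤ) ≤ s
    · -- the interval [-r, L + r]
      refine persist hn hD h1 h2 hno (p := -(r : ℤ)) (q := (L : ℤ) + r) (by omega) (by omega)
        (by omega) (j₀ := k + 1) ?_ (by omega) hjT s (by omega) (by omega)
      intro s hs1 hs2
      by_cases hc' : s ≤ (L : ℤ) - 1 + r
      · exact ih' (k + 1) (by omega) (by omega) s hs1 hc'
      · have hs : s = (L : ℤ) + r := by omega
        rw [run_succ]
        unfold step
        simp only [zero_add, hs, hkb, Option.getD_some]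
    · have hs : s = -1 - (r : ℤ) := by omega
      refine persist hn hD h1 h2 hno (p := -1 - (r : ℤ)) (q := (L : ℤ) - 1 + r) (by omega)
        (by omega) (by omega) (j₀ := k' + 1) ?_ (by omega) hjT s (by omega) (by omega)
      intro s hs1 hs2
      by_cases hc' : -(r : ℤ) ≤ s
      · exact ih' (k' + 1) (by omega) (by omega) s hc' hs2
      · have hs : s = -1 - (r : ℤ) := by omega
        rw [run_succ]
        unfold step
        simp only [zero_add, hs, hkb', Option.getD_some]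

/-- finitely many coordinates -/
lemma prob_forall (μ₀ : Measure (Option Bool)) [IsProbabilityMeasure μ₀] (J : Finset (ℤ × ℤ))
    (A : Set (Option Bool)) : (Pm μ₀).real {ω | ∀ c ∈ J, ω c ∈ A} = (μ₀.real A) ^ J.card := by
  classical
  induction J using Finset.induction_on with
  | empty => simp
  | insert a S ha ih =>
    have h1 : FL {a} {ω | ω a ∈ A} := FL.single _ (by simp) _
    have h2 : FL ({a} : Set (ℤ × ℤ))ᶜ {ω | ∀ s ∈ S, ω s ∈ A} := by
      have h3 := FL.biInter (R := ({a} : Set (ℤ × ℤ))ᶜ) S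
        (fun s => {ω | ω s ∈ A}) fun s hs =>
          FL.single _ (by
            simp only [mem_compl_iff, mem_singleton_iff]
            rintro rfl
            exact ha hs) _
      convert h3 using 1
      ext ω
      simp
    have e : {ω : Om | ∀ s ∈ insert a S, ω s ∈ A} = {ω | ω a ∈ A} ∩ {ω | ∀ s ∈ S, ω s ∈ A} := by
      ext ω
      simp
    rw [e, h1.indep μ₀ h2 disjoint_compl_right, ih, prob_single, Finset.card_insert_of_notMem ha,
      pow_succ]
    ring

/-- the event that the noise `some b` occurs in `J` -/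
def hits (b : Bool) (J : Finset (ℤ × ℤ)) : Set Om := {ω | ∃ c ∈ J, ω c = some b}

lemma hits_FL (b : Bool) (J : Finset (ℤ × ℤ)) {R : Set (ℤ × ℤ)} (h : (J : Set (ℤ × ℤ)) ⊆ R) :
    FL R (hits b J) := by
  have h3 := FL.biUnion (R := R) J (fun s => {ω | ω s ∈ ({some b} : Set (Option Bool))})
    fun s hs => FL.single _ (h hs) _
  convert h3 using 1
  ext ω
  simp [hits]

lemma prob_not_hits (μ₀ : Measure (Option Bool)) [IsProbabilityMeasure μ₀] (b : Bool)
    (J : Finset (ℤ × ℤ)) : (Pm μ₀).real (hits b J)ᶜ = (1 - μ₀.real {some b}) ^ J.card := by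
  have h1 : (hits b J)ᶜ = {ω | ∀ c ∈ J, ω c ∈ ({some b} : Set (Option Bool))ᶜ} := by
    ext ω
    simp [hits]
  rw [h1, prob_forall, probReal_compl_eq_one_sub (Set.toFinite _).measurableSet]

lemma prob_hits_le (μ₀ : Measure (Option Bool)) [IsProbabilityMeasure μ₀] (b : Bool)
    (J : Finset (ℤ × ℤ)) : (Pm μ₀).real (hits b J) ≤ J.card * μ₀.real {some b} := by
  have h1 : hits b J = ⋃ c ∈ J, {ω | ω c ∈ ({some b} : Set (Option Bool))} := by
    ext ω
    simp [hits]
  rw [h1]
  refine (measureReal_biUnion_finset_le _ _).trans ?_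
  rw [Finset.sum_congr rfl fun c _ => prob_single μ₀ c {some b}, Finset.sum_const, nsmul_eq_mul]

theorem micro_A {N : Finset ℤ} {n D₁ : ℕ} (hn : N.card = 2 * n + 1) (hD : ∀ v ∈ N, |v| ≤ D₁)
    (h1 : n + 1 ≤ (N.filter fun v => 0 ≤ v).card) (h2 : n + 1 ≤ (N.filter fun v => v ≤ 0).card) :
    ∃ κ : ℝ, 0 < κ ∧ ∀ (μ₀ : Measure (Option Bool)) [IsProbabilityMeasure μ₀] (b : Bool),
      0 < μ₀.real {some b} → μ₀.real {some (!b)} ≤ κ * μ₀.real {some b} →
      ∃ (L T : ℕ) (g : Set Om), 1 ≤ L ∧ FL (box 3 L T) g ∧ (∀ ω ∈ g, Wall N b D₁ L T ω 0 0) ∧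
        (Pm μ₀).real gᶜ ≤ (3 / 64) ^ (2 * 3 + 1) := by
  classical
  set L : ℕ := 2 * D₁ + 1 with hL
  have hL1 : 1 ≤ L := by omega
  have hLr : (1 : ℝ) ≤ L := by exact_mod_cast hL1
  set η : ℝ := (3 / 64) ^ (2 * 3 + 1) with hη
  have hη0 : 0 < η := by positivity
  obtain ⟨c₀, hc₀⟩ : ∃ c₀ : ℕ, 6 * L * Real.exp (-(c₀ : ℝ)) ≤ η / 2 := by
    have h3 : Filter.Tendsto (fun m : ℕ => 6 * (L : ℝ) * Real.exp (-(m : ℝ))) Filter.atTop
        (nhds (6 * L * 0)) :=
      (Real.tendsto_exp_neg_atTop_nhds_zero.comp tendsto_natCast_atTop_atTop).const_mul _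
    rw [mul_zero] at h3
    exact (h3.eventually_le_const (by positivity)).exists
  set κ : ℝ := η / (42 * (L : ℝ) ^ 2 * (c₀ + 1)) with hκ
  have hκ0 : 0 < κ := by positivity
  refine ⟨κ, hκ0, ?_⟩
  intro μ₀ _ b ha hc
  set a : ℝ := μ₀.real {some b} with hadef
  set c : ℝ := μ₀.real {some (!b)} with hcdef
  have ha1 : a ≤ 1 := measureReal_le_one
  set T' : ℕ := ⌈(c₀ : ℝ) / a⌉₊ with hT'
  have hT1 : (c₀ : ℝ) ≤ a * T' := by
    have := Nat.le_ceil ((c₀ : ℝ) / a)
    rw [div_le_iff₀ ha] at this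
    linarith
  have hT2 : a * T' ≤ c₀ + 1 := by
    have := (Nat.ceil_lt_add_one (show 0 ≤ (c₀ : ℝ) / a by positivity)).le
    calc a * (⌈(c₀ : ℝ) / a⌉₊ : ℝ) ≤ a * ((c₀ : ℝ) / a + 1) :=
          mul_le_mul_of_nonneg_left this ha.le
      _ = c₀ + a := by field_simp
      _ ≤ _ := by linarith
  set Bx : Finset (ℤ × ℤ) := Finset.Ico (-(3 * (L : ℤ))) (4 * L) ×ˢ
    Finset.Ico (0 : ℤ) ((3 * L * T' : ℕ) : ℤ) with hBx
  set JR : ℕ → Finset (ℤ × ℤ) := fun r => (Finset.Ico (r * T') ((r + 1) * T')).image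
    fun k : ℕ => ((L : ℤ) + r, (k : ℤ)) with hJR
  set JL : ℕ → Finset (ℤ × ℤ) := fun r => (Finset.Ico (r * T') ((r + 1) * T')).image
    fun k : ℕ => (-1 - (r : ℤ), (k : ℤ)) with hJL
  have hrT : ∀ r < 3 * L, (r + 1) * T' ≤ 3 * L * T' := fun r hr => Nat.mul_le_mul_right _ hr
  refine ⟨L, 3 * L * T', (hits (!b) Bx)ᶜ ∩ ((⋂ r ∈ Finset.range (3 * L), hits b (JR r)) ∩
    ⋂ r ∈ Finset.range (3 * L), hits b (JL r)), hL1, ?_, ?_, ?_⟩
  · -- locality
    refine (FL.compl (hits_FL _ _ ?_)).inter ((FL.biInter _ _ fun r hr => hits_FL _ _ ?_).inter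
      (FL.biInter _ _ fun r hr => hits_FL _ _ ?_))
    · rintro ⟨s, k⟩ hsk
      rw [Finset.mem_coe, hBx, Finset.mem_product, Finset.mem_Ico, Finset.mem_Ico] at hsk
      simp only [box, mem_ofPred_eq]
      push_cast at hsk ⊢
      exact ⟨hsk.1.1, by linarith [hsk.1.2], hsk.2.1, hsk.2.2⟩
    · rintro ⟨s, k⟩ hsk
      rw [Finset.mem_range] at hr
      rw [Finset.mem_coe, hJR, Finset.mem_image] at hsk
      obtain ⟨k', hk', he⟩ := hsk
      rw [Prod.mk.injEq] at he
      rw [Finset.mem_Ico] at hk'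
      have h3 := hrT r hr
      simp only [box, mem_ofPred_eq]
      have h4 : (k' : ℤ) < ((3 * L * T' : ℕ) : ℤ) := by exact_mod_cast (by omega)
      refine ⟨?_, ?_, ?_, ?_⟩
      · push_cast; omega
      · push_cast; omega
      · omega
      · omega
    · rintro ⟨s, k⟩ hsk
      rw [Finset.mem_range] at hr
      rw [Finset.mem_coe, hJL, Finset.mem_image] at hsk
      obtain ⟨k', hk', he⟩ := hsk
      rw [Prod.mk.injEq] at he
      rw [Finset.mem_Ico] at hk'
      have h3 := hrT r hr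
      simp only [box, mem_ofPred_eq]
      have h4 : (k' : ℤ) < ((3 * L * T' : ℕ) : ℤ) := by exact_mod_cast (by omega)
      refine ⟨?_, ?_, ?_, ?_⟩
      · push_cast; omega
      · push_cast; omega
      · omega
      · omega
  · -- the wall
    rintro ω ⟨hω1, hω2, hω3⟩
    rw [mem_iInter₂] at hω2 hω3
    have hno : ∀ s k, -(3 * (L : ℤ)) ≤ s → s < 4 * L → 0 ≤ k → k < ((3 * L * T' : ℕ) : ℤ) →
        ω (s, k) ≠ some (!b) := by
      intro s k hs1 hs2 hk1 hk2 heq
      apply hω1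
      refine ⟨(s, k), ?_, heq⟩
      rw [hBx, Finset.mem_product, Finset.mem_Ico, Finset.mem_Ico]
      exact ⟨⟨hs1, hs2⟩, hk1, hk2⟩
    have hR : ∀ r < 3 * L, ∃ k ∈ Finset.Ico (r * T') ((r + 1) * T'),
        ω ((L : ℤ) + r, (k : ℤ)) = some b := by
      intro r hr
      obtain ⟨cc, hcc, he⟩ := hω2 r (Finset.mem_range.2 hr)
      rw [hJR, Finset.mem_image] at hcc
      obtain ⟨k, hk, rfl⟩ := hcc
      exact ⟨k, hk, he⟩
    have hLf : ∀ r < 3 * L, ∃ k ∈ Finset.Ico (r * T') ((r + 1) * T'),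
        ω (-1 - (r : ℤ), (k : ℤ)) = some b := by
      intro r hr
      obtain ⟨cc, hcc, he⟩ := hω3 r (Finset.mem_range.2 hr)
      rw [hJL, Finset.mem_image] at hcc
      obtain ⟨k, hk, rfl⟩ := hcc
      exact ⟨k, hk, he⟩
    refine ⟨fun _ => 0, fun _ => (L : ℤ) - 1, by simp, by simp, ?_, by positivity, ?_, ?_⟩
    · intro j _
      simp only
      omega
    · simp only
      nlinarith
    · intro x hx
      have hx' : ∀ s, 0 ≤ s → s < (L : ℤ) → x s = b := fun s hs1 hs2 =>
        hx s (by simpa using hs1) (by simpa using hs2)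
      have hg := growth hn hD h1 h2 hL hno hR hLf hx'
      refine ⟨?_, ?_⟩
      · intro j hj s hs1 hs2
        left
        exact hg 0 (Nat.zero_le _) j (by omega) hj s (by simpa using hs1) (by simpa using hs2)
      · intro s hs1 hs2
        exact hg (3 * L) le_rfl _ le_rfl le_rfl s (by push_cast; linarith) (by push_cast; linarith)
  · -- the probability
    rw [compl_inter, compl_inter, compl_compl]
    refine (measureReal_union_le _ _).trans ?_
    have e1 : (Pm μ₀).real (hits (!b) Bx) ≤ η / 2 := by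
      refine (prob_hits_le μ₀ _ _).trans ?_
      rw [hBx, Finset.card_product, Int.card_Ico, Int.card_Ico]
      have e2 : (4 * (L : ℤ) - -(3 * L)).toNat = 7 * L := by omega
      rw [e2, sub_zero, Int.toNat_natCast]
      push_cast
      rw [← hcdef]
      have e3 : (T' : ℝ) * c ≤ κ * (c₀ + 1) := by
        calc (T' : ℝ) * c ≤ T' * (κ * a) := mul_le_mul_of_nonneg_left hc (by positivity)
          _ = κ * (a * T') := by ring
          _ ≤ _ := mul_le_mul_of_nonneg_left hT2 hκ0.le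
      calc 7 * (L : ℝ) * (3 * L * T') * c = 21 * (L : ℝ) ^ 2 * (T' * c) := by ring
        _ ≤ 21 * (L : ℝ) ^ 2 * (κ * (c₀ + 1)) := mul_le_mul_of_nonneg_left e3 (by positivity)
        _ = η / 2 := by
          rw [hκ]
          field_simp
          norm_num
    have e4 : ∀ J : ℕ → Finset (ℤ × ℤ), (∀ r, (J r).card = T') →
        (Pm μ₀).real (⋂ r ∈ Finset.range (3 * L), hits b (J r))ᶜ ≤ η / 4 := by
      intro J hJ
      rw [compl_iInter₂]
      refine (measureReal_biUnion_finset_le _ _).trans ?_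
      have e5 : (1 - a) ^ T' ≤ Real.exp (-(c₀ : ℝ)) := by
        have h3 : 1 - a ≤ Real.exp (-a) := by
          have := Real.add_one_le_exp (-a)
          linarith
        calc (1 - a) ^ T' ≤ (Real.exp (-a)) ^ T' := pow_le_pow_left₀ (by linarith) h3 T'
          _ = Real.exp (-(a * T')) := by rw [← Real.exp_nat_mul]; congr 1; ring
          _ ≤ _ := Real.exp_le_exp.2 (by linarith)
      calc ∑ r ∈ Finset.range (3 * L), (Pm μ₀).real (hits b (J r))ᶜ
          = ∑ r ∈ Finset.range (3 * L), (1 - a) ^ T' :=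
            Finset.sum_congr rfl fun r _ => by rw [prob_not_hits, hJ]
        _ = 3 * L * (1 - a) ^ T' := by
            rw [Finset.sum_const, Finset.card_range, nsmul_eq_mul]; push_cast; ring
        _ ≤ 3 * L * Real.exp (-(c₀ : ℝ)) := mul_le_mul_of_nonneg_left e5 (by positivity)
        _ ≤ η / 4 := by linarith
    have e6 := e4 JR (fun r => by
      rw [hJR, Finset.card_image_of_injective _ (fun k k' h => by simpa using h), Nat.card_Ico]
      rw [add_mul, one_mul]
      omega)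
    have e7 := e4 JL (fun r => by
      rw [hJL, Finset.card_image_of_injective _ (fun k k' h => by simpa using h), Nat.card_Ico]
      rw [add_mul, one_mul]
      omega)
    refine (add_le_add e1 ((measureReal_union_le _ _).trans (add_le_add e6 e7))).trans
      (le_of_eq (by ring))

end Pool.Agent.Helper55.Vote
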