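import Mathlib

/-! Backward oriented percolation with sparse bad blocks: intervals of dead blocks are
exponentially unlikely. -/

namespace Pool.Agent.Helper55.Vote

open MeasureTheory Set

variable {Ω : Type*} [MeasurableSpace Ω]

/-- A layered random field of good blocks `G k i`; `Fut k` are the events determined by the layers
`k, k + 1, …`; the bad blocks of a layer are sparse and independent of the later layers. -/
structure Field (P : Measure Ω) (G : ℕ → ℤ → Set Ω) (Fut : ℕ → Set (Set Ω)) : Prop where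
  meas : ∀ k, ∀ F ∈ Fut k, MeasurableSet F
  mono : ∀ k, Fut (k + 1) ⊆ Fut k
  univ : ∀ k, Set.univ ∈ Fut k
  compl : ∀ k, ∀ F ∈ Fut k, Fᶜ ∈ Fut k
  inter : ∀ k, ∀ F ∈ Fut k, ∀ F' ∈ Fut k, F ∩ F' ∈ Fut k
  good : ∀ k i, G k i ∈ Fut k
  bound : ∀ k (S : Finset ℤ), ∀ F ∈ Fut (k + 1),
    P.real ({ω | ∀ i ∈ S, ω ∉ G k i} ∩ F) ≤ (3 / 64) ^ S.card * P.real F

/-- the event that there is no open path from the block `j` in layer `k` to the layer `k + n`;
the steps are `c - 1`, `c`, `c + 1` -/
def dead (G : ℕ → ℤ → Set Ω) (c : ℤ) : ℕ → ℕ → ℤ → Set Ω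
  | 0, _, _ => ∅
  | n + 1, k, j => {ω | ω ∉ G k j ∨ (ω ∈ dead G c n (k + 1) (j + c - 1) ∧
      ω ∈ dead G c n (k + 1) (j + c) ∧ ω ∈ dead G c n (k + 1) (j + c + 1))}

/-- all three successors are dead -/
def er (G : ℕ → ℤ → Set Ω) (c : ℤ) (n k : ℕ) (j : ℤ) : Set Ω :=
  {ω | ω ∈ dead G c n (k + 1) (j + c - 1) ∧ ω ∈ dead G c n (k + 1) (j + c) ∧
    ω ∈ dead G c n (k + 1) (j + c + 1)}

/-- `r = (a, ℓ)` is a maximal run of dead blocks -/
def MR (G : ℕ → ℤ → Set Ω) (c : ℤ) (n k : ℕ) (r : ℤ × ℕ) : Set Ω :=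
  {ω | (∀ i, r.1 ≤ i → i < r.1 + r.2 → ω ∈ dead G c n k i) ∧ ω ∉ dead G c n k (r.1 - 1) ∧
    ω ∉ dead G c n k (r.1 + r.2)}

/-- auxiliary event: a run of dead blocks whose neighbours have a living successor -/
def EE (G : ℕ → ℤ → Set Ω) (c : ℤ) (n k : ℕ) (r : ℤ × ℕ) : Set Ω :=
  {ω | (∀ i, r.1 ≤ i → i < r.1 + r.2 → ω ∈ dead G c (n + 1) k i) ∧ ω ∉ er G c n k (r.1 - 1) ∧
    ω ∉ er G c n k (r.1 + r.2)}

lemma mem_dead_succ {G : ℕ → ℤ → Set Ω} {c : ℤ} {n k : ℕ} {j : ℤ} {ω : Ω} :
    ω ∈ dead G c (n + 1) k j ↔ ω ∉ G k j ∨ ω ∈ er G c n k j := Iff.rfl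

/-- the weight of a run -/
noncomputable def wt (ℓ : ℕ) : ℝ := (1 / 2) ^ ℓ / ((ℓ : ℝ) + 1) ^ 2

lemma wt_zero : wt 0 = 1 := by simp [wt]

lemma wt_nonneg (ℓ : ℕ) : 0 ≤ wt ℓ := by unfold wt; positivity

lemma wt_add_two (ℓ : ℕ) : wt (ℓ + 2) ≤ 1 / 4 * wt ℓ := by
  unfold wt
  rw [pow_add]
  push_cast
  have h1 : (0 : ℝ) < (ℓ + 1) ^ 2 := by positivity
  have h2 : ((ℓ : ℝ) + 1) ^ 2 ≤ (ℓ + 2 + 1) ^ 2 := by
    have : (0 : ℝ) ≤ ℓ := Nat.cast_nonneg _
    nlinarith
  rw [← mul_div_assoc]
  calc (1 / 2 : ℝ) ^ ℓ * (1 / 2) ^ 2 / (ℓ + 2 + 1) ^ 2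
      ≤ (1 / 2 : ℝ) ^ ℓ * (1 / 2) ^ 2 / (ℓ + 1) ^ 2 :=
        div_le_div_of_nonneg_left (by positivity) h1 h2
    _ = _ := by ring

lemma wt_le (ℓ : ℕ) : wt ℓ ≤ (1 / 2) ^ ℓ := by
  unfold wt
  refine div_le_self (by positivity) ?_
  have : (0 : ℝ) ≤ ℓ := Nat.cast_nonneg _
  nlinarith

lemma sum_inv_sq (ℓ : ℕ) : ∑ j ∈ Finset.range ℓ, (1 : ℝ) / ((j : ℝ) + 1) ^ 2 ≤ 2 := by
  rcases Nat.eq_zero_or_pos ℓ with rfl | h
  · simp
  have key : ∀ ℓ : ℕ, ∑ j ∈ Finset.range (ℓ + 1), (1 : ℝ) / ((j : ℝ) + 1) ^ 2 ≤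
      2 - 1 / ((ℓ : ℝ) + 1) := by
    intro ℓ
    induction ℓ with
    | zero => simp; norm_num
    | succ ℓ ih =>
      rw [Finset.sum_range_succ]
      have h1 : (0 : ℝ) < (ℓ : ℝ) + 1 := by positivity
      have h2 : (1 : ℝ) / (((ℓ + 1 : ℕ) : ℝ) + 1) ^ 2 ≤ 1 / ((ℓ : ℝ) + 1) -
          1 / (((ℓ + 1 : ℕ) : ℝ) + 1) := by
        push_cast
        rw [div_sub_div _ _ h1.ne' (by positivity), div_le_div_iff₀ (by positivity)
          (by positivity)]
        nlinarith
      linarith
  obtain ⟨k, rfl⟩ := Nat.exists_eq_succ_of_ne_zero (Nat.pos_iff_ne_zero.1 h)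
  refine (key k).trans ?_
  have : (0 : ℝ) < 1 / ((k : ℝ) + 1) := by positivity
  linarith

lemma sum_conv (ℓ : ℕ) : ∑ j ∈ Finset.range ℓ, wt j * wt (ℓ - 1 - j) ≤ 16 * wt ℓ := by
  have h1 : ∀ j ∈ Finset.range ℓ, wt j * wt (ℓ - 1 - j) ≤
      (1 / 2 : ℝ) ^ ℓ / ((ℓ : ℝ) + 1) ^ 2 * (4 / ((j : ℝ) + 1) ^ 2 +
        4 / (((ℓ - 1 - j : ℕ) : ℝ) + 1) ^ 2) := by
    intro j hj
    rw [Finset.mem_range] at hj
    obtain ⟨i, rfl⟩ : ∃ i, ℓ = j + i + 1 := ⟨ℓ - 1 - j, by omega⟩
    have e1 : j + i + 1 - 1 - j = i := by omega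
    rw [e1]
    unfold wt
    push_cast
    have hj0 : (0 : ℝ) < (j : ℝ) + 1 := by positivity
    have hi0 : (0 : ℝ) < (i : ℝ) + 1 := by positivity
    have hs : (0 : ℝ) < (j : ℝ) + i + 1 + 1 := by positivity
    have e2 : (1 / 2 : ℝ) ^ j / ((j : ℝ) + 1) ^ 2 * ((1 / 2) ^ i / ((i : ℝ) + 1) ^ 2) =
        (1 / 2 : ℝ) ^ (j + i + 1) / ((j : ℝ) + i + 1 + 1) ^ 2 *
          (2 * (((j : ℝ) + i + 1 + 1) / (((j : ℝ) + 1) * ((i : ℝ) + 1))) ^ 2) := by
      rw [pow_succ, pow_add]
      field_simp
      rw [pow_add]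
    rw [e2]
    refine mul_le_mul_of_nonneg_left ?_ (by positivity)
    have e3 : ((j : ℝ) + i + 1 + 1) / (((j : ℝ) + 1) * ((i : ℝ) + 1)) =
        1 / ((j : ℝ) + 1) + 1 / ((i : ℝ) + 1) := by
      field_simp
      ring
    rw [e3]
    have e4 : (4 : ℝ) / ((j : ℝ) + 1) ^ 2 = 4 * (1 / ((j : ℝ) + 1)) ^ 2 := by
      rw [div_pow, one_pow]; ring
    have e5 : (4 : ℝ) / ((i : ℝ) + 1) ^ 2 = 4 * (1 / ((i : ℝ) + 1)) ^ 2 := by
      rw [div_pow, one_pow]; ring
    rw [e4, e5]
    nlinarith [sq_nonneg (1 / ((j : ℝ) + 1) - 1 / ((i : ℝ) + 1))]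
  refine (Finset.sum_le_sum h1).trans ?_
  rw [← Finset.mul_sum, Finset.sum_add_distrib]
  have h2 : ∑ j ∈ Finset.range ℓ, (4 : ℝ) / ((j : ℝ) + 1) ^ 2 ≤ 8 := by
    have : ∑ j ∈ Finset.range ℓ, (4 : ℝ) / ((j : ℝ) + 1) ^ 2 =
        4 * ∑ j ∈ Finset.range ℓ, (1 : ℝ) / ((j : ℝ) + 1) ^ 2 := by
      rw [Finset.mul_sum]
      exact Finset.sum_congr rfl fun j _ => by ring
    rw [this]
    linarith [sum_inv_sq ℓ]
  have h3 : ∑ j ∈ Finset.range ℓ, (4 : ℝ) / (((ℓ - 1 - j : ℕ) : ℝ) + 1) ^ 2 =
      ∑ j ∈ Finset.range ℓ, (4 : ℝ) / ((j : ℝ) + 1) ^ 2 :=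
    Finset.sum_range_reflect (fun j => (4 : ℝ) / ((j : ℝ) + 1) ^ 2) ℓ
  rw [h3]
  have h4 : (0 : ℝ) ≤ (1 / 2 : ℝ) ^ ℓ / ((ℓ : ℝ) + 1) ^ 2 := by positivity
  calc (1 / 2 : ℝ) ^ ℓ / ((ℓ : ℝ) + 1) ^ 2 * (∑ j ∈ Finset.range ℓ, (4 : ℝ) / ((j : ℝ) + 1) ^ 2 +
        ∑ j ∈ Finset.range ℓ, (4 : ℝ) / ((j : ℝ) + 1) ^ 2)
      ≤ (1 / 2 : ℝ) ^ ℓ / ((ℓ : ℝ) + 1) ^ 2 * 16 :=
        mul_le_mul_of_nonneg_left (by linarith) h4
    _ = 16 * wt ℓ := by unfold wt; ring

lemma wt_ineq (ℓ : ℕ) : wt (ℓ + 2) + 3 / 64 * ∑ j ∈ Finset.range ℓ, wt j * wt (ℓ - 1 - j) ≤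
    wt ℓ := by
  have h1 := wt_add_two ℓ
  have h2 := sum_conv ℓ
  linarith

section

variable {P : Measure Ω} [IsProbabilityMeasure P] {G : ℕ → ℤ → Set Ω} {Fut : ℕ → Set (Set Ω)}

lemma Field.forall_mem (hF : Field P G Fut) (k : ℕ) {ι : Type*} (s : Finset ι) (f : ι → Set Ω)
    (h : ∀ i ∈ s, f i ∈ Fut k) : {ω | ∀ i ∈ s, ω ∈ f i} ∈ Fut k := by
  classical
  induction s using Finset.induction_on with
  | empty => simpa using hF.univ k
  | insert a s ha ih =>
    have e : {ω | ∀ i ∈ insert a s, ω ∈ f i} = f a ∩ {ω | ∀ i ∈ s, ω ∈ f i} := by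
      ext ω
      simp [Finset.forall_mem_insert]
    rw [e]
    exact hF.inter k _ (h a (Finset.mem_insert_self _ _)) _
      (ih fun i hi => h i (Finset.mem_insert_of_mem hi))

lemma Field.er_mem' (hF : Field P G Fut) (c : ℤ) (n k : ℕ)
    (h : ∀ j, dead G c n (k + 1) j ∈ Fut (k + 1)) (j : ℤ) : er G c n k j ∈ Fut (k + 1) :=
  hF.inter _ _ (h _) _ (hF.inter _ _ (h _) _ (h _))

lemma Field.dead_mem (hF : Field P G Fut) (c : ℤ) (n k : ℕ) (j : ℤ) :
    dead G c n k j ∈ Fut k := by
  induction n generalizing k j with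
  | zero =>
    have := hF.compl k _ (hF.univ k)
    rw [compl_univ] at this
    exact this
  | succ n ih =>
    have h1 := hF.mono k (hF.er_mem' c n k (fun j => ih (k + 1) j) j)
    have h2 := hF.compl k _ (hF.inter k _ (hF.good k j) _ (hF.compl k _ h1))
    convert h2 using 1
    ext ω
    simp only [mem_dead_succ, mem_compl_iff, mem_inter_iff]
    tauto

lemma Field.er_mem (hF : Field P G Fut) (c : ℤ) (n k : ℕ) (j : ℤ) :
    er G c n k j ∈ Fut (k + 1) := hF.er_mem' c n k (fun _ => hF.dead_mem c n _ _) j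

lemma Field.MR_mem (hF : Field P G Fut) (c : ℤ) (n k : ℕ) (r : ℤ × ℕ) :
    MR G c n k r ∈ Fut k := by
  have h1 : {ω | ∀ i ∈ Finset.Ico r.1 (r.1 + r.2), ω ∈ dead G c n k i} ∈ Fut k :=
    hF.forall_mem k _ _ fun i _ => hF.dead_mem c n k i
  have h2 := hF.inter k _ h1 _ (hF.inter k _ (hF.compl k _ (hF.dead_mem c n k (r.1 - 1))) _
    (hF.compl k _ (hF.dead_mem c n k (r.1 + r.2))))
  convert h2 using 1
  ext ω
  simp only [MR, mem_ofPred_eq, mem_inter_iff, mem_compl_iff, Finset.mem_Ico, and_imp]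

lemma real_nonneg' (A : Set Ω) : 0 ≤ P.real A := ENNReal.toReal_nonneg

/-- the processing lemma -/
lemma process (hF : Field P G Fut) (c : ℤ) (n : ℕ)
    (ih : ∀ k (R : Finset (ℤ × ℕ)), (∀ r ∈ R, 1 ≤ r.2) →
      P.real {ω | ∀ r ∈ R, ω ∈ MR G c n k r} ≤ ∏ r ∈ R, wt r.2) (k : ℕ) :
    ∀ (M : ℕ) (L : List (ℤ × ℕ)) (R : Finset (ℤ × ℕ)) (S : Finset ℤ),
      (L.map fun r => r.2 + 1).sum ≤ M →
      L.Pairwise (fun r r' : ℤ × ℕ => r.1 + (r.2 : ℤ) < r'.1 ∨ r'.1 + (r'.2 : ℤ) < r.1) →
      (∀ s ∈ S, ∀ r ∈ L, ¬ (r.1 ≤ s ∧ s < r.1 + r.2)) →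
      (∀ r' ∈ R, ∀ r ∈ L, ¬ (r.1 + c - 1 ≤ r'.1 ∧ r'.1 < r.1 + r.2 + c)) →
      (∀ r ∈ R, 1 ≤ r.2) →
      P.real {ω | (∀ r ∈ L, ω ∈ EE G c n k r) ∧ (∀ r ∈ R, ω ∈ MR G c n (k + 1) r) ∧
        ∀ s ∈ S, ω ∉ G k s} ≤ (3 / 64) ^ S.card * (L.map fun r => wt r.2).prod *
          ∏ r ∈ R, wt r.2 := by
  classical
  intro M
  induction M with
  | zero =>
    intro L R S hM hL hS hR hR1
    cases L with
    | cons r L => simp at hM
    | nil =>
      have h1 := hF.bound k S {ω | ∀ r ∈ R, ω ∈ MR G c n (k + 1) r}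
        (hF.forall_mem _ _ _ fun r _ => hF.MR_mem c n (k + 1) r)
      have h2 := ih (k + 1) R hR1
      have e : {ω | (∀ r ∈ ([] : List (ℤ × ℕ)), ω ∈ EE G c n k r) ∧
          (∀ r ∈ R, ω ∈ MR G c n (k + 1) r) ∧ ∀ s ∈ S, ω ∉ G k s} =
          {ω | ∀ i ∈ S, ω ∉ G k i} ∩ {ω | ∀ r ∈ R, ω ∈ MR G c n (k + 1) r} := by
        ext ω
        simp only [List.not_mem_nil, false_imp_iff, implies_true, true_and, mem_ofPred_eq,
          mem_inter_iff]
        tauto
      rw [e]
      refine h1.trans ?_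
      simp only [List.map_nil, List.prod_nil, mul_one]
      exact mul_le_mul_of_nonneg_left h2 (by positivity)
  | succ M ihM =>
    intro L R S hM hL hS hR hR1
    cases L with
    | nil => exact ihM [] R S (by simp) hL hS hR hR1
    | cons r L =>
      obtain ⟨a, ℓ⟩ := r
      rw [List.pairwise_cons] at hL
      obtain ⟨hL1, hL2⟩ := hL
      simp only [List.map_cons, List.sum_cons] at hM
      have hpL : 0 ≤ (L.map fun r => wt r.2).prod :=
        List.prod_nonneg fun x hx => by
          obtain ⟨r, -, rfl⟩ := List.mem_map.1 hx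
          exact wt_nonneg _
      have hpR : 0 ≤ ∏ r ∈ R, wt r.2 := Finset.prod_nonneg fun r _ => wt_nonneg _
      rcases Nat.eq_zero_or_pos ℓ with rfl | hℓ
      · -- drop an exhausted run
        have h1 := ihM L R S (by omega) hL2 (fun s hs r hr => hS s hs r (List.mem_cons_of_mem _ hr))
          (fun r' hr' r hr => hR r' hr' r (List.mem_cons_of_mem _ hr)) hR1
        refine (measureReal_mono ?_ (measure_ne_top _ _)).trans (h1.trans ?_)
        · rintro ω ⟨h1, h2, h3⟩
          exact ⟨fun r hr => h1 r (List.mem_cons_of_mem _ hr), h2, h3⟩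
        · simp only [List.map_cons, List.prod_cons, wt_zero, one_mul]
          exact le_rfl
      -- the runs produced
      set Rj : ℕ → Finset (ℤ × ℕ) := fun j => if j = 0 then R else insert (a + c - 1, j + 2) R
        with hRj
      set A : ℕ → Set Ω := fun j => {ω | (∀ r ∈ (a + j + 1, ℓ - 1 - j) :: L, ω ∈ EE G c n k r) ∧
        (∀ r ∈ Rj j, ω ∈ MR G c n (k + 1) r) ∧ ∀ s ∈ insert (a + j) S, ω ∉ G k s} with hA
      set A0 : Set Ω := {ω | (∀ r ∈ L, ω ∈ EE G c n k r) ∧
        (∀ r ∈ insert (a + c - 1, ℓ + 2) R, ω ∈ MR G c n (k + 1) r) ∧ ∀ s ∈ S, ω ∉ G k s} with hA0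
      -- the new run is a maximal run
      have hnew : ∀ ω, ∀ j : ℕ, 1 ≤ j → (∀ i, a ≤ i → i < a + j → ω ∈ er G c n k i) →
          ω ∉ er G c n k (a - 1) → ω ∉ er G c n k (a + j) →
          ω ∈ MR G c n (k + 1) (a + c - 1, j + 2) := by
        intro ω j hj h1 h2 h3
        have hin : ∀ i, a + c - 1 ≤ i → i < a + c - 1 + (j + 2 : ℕ) →
            ω ∈ dead G c n (k + 1) i := by
          intro i hi1 hi2
          push_cast at hi2
          by_cases hc1 : i ≤ a + j + c - 2
          · have := (h1 (i + 1 - c) (by omega) (by omega)).1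
            convert this using 2
            ring
          · by_cases hc2 : i = a + j + c - 1
            · have := (h1 (i - c) (by omega) (by omega)).2.1
              convert this using 2
              ring
            · have := (h1 (i - 1 - c) (by omega) (by omega)).2.2
              convert this using 2
              ring
        refine ⟨hin, ?_, ?_⟩
        · intro h4
          apply h2
          refine ⟨?_, ?_, ?_⟩
          · convert h4 using 2
            ring
          · have := hin (a + c - 1) (by omega) (by push_cast; omega)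
            convert this using 2
            ring
          · have := hin (a + c) (by omega) (by push_cast; omega)
            convert this using 2
            ring
        · intro h4
          apply h3
          refine ⟨?_, ?_, ?_⟩
          · have := hin (a + j + c - 1) (by omega) (by push_cast; omega)
            convert this using 2
          · have := hin (a + j + c) (by omega) (by push_cast; omega)
            convert this using 2
          · convert h4 using 2
            push_cast
            ring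
      have hsub : {ω | (∀ r ∈ (a, ℓ) :: L, ω ∈ EE G c n k r) ∧
          (∀ r ∈ R, ω ∈ MR G c n (k + 1) r) ∧ ∀ s ∈ S, ω ∉ G k s} ⊆
          A0 ∪ ⋃ j ∈ Finset.range ℓ, A j := by
        rintro ω ⟨h1, h2, h3⟩
        have hEE := h1 (a, ℓ) (List.mem_cons_self)
        obtain ⟨hE1, hE2, hE3⟩ := hEE
        simp only at hE1 hE2 hE3
        have h1' : ∀ r ∈ L, ω ∈ EE G c n k r := fun r hr => h1 r (List.mem_cons_of_mem _ hr)
        by_cases hall : ∀ i, a ≤ i → i < a + ℓ → ω ∈ er G c n k i
        · left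
          refine ⟨h1', ?_, h3⟩
          intro r hr
          rw [Finset.mem_insert] at hr
          rcases hr with rfl | hr
          · exact hnew ω ℓ hℓ hall hE2 hE3
          · exact h2 r hr
        · right
          have hex : ∃ j : ℕ, j < ℓ ∧ ω ∉ er G c n k (a + j) := by
            push Not at hall
            obtain ⟨i, hi1, hi2, hi3⟩ := hall
            refine ⟨(i - a).toNat, by omega, ?_⟩
            rwa [show a + ((i - a).toNat : ℤ) = i by omega]
          obtain ⟨j, hj⟩ : ∃ j, Nat.find hex = j := ⟨_, rfl⟩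
          have hspec := Nat.find_spec hex
          rw [hj] at hspec
          have hmin : ∀ i, a ≤ i → i < a + j → ω ∈ er G c n k i := by
            intro i hi1 hi2
            by_contra hcon
            refine Nat.find_min hex (m := (i - a).toNat) (by omega) ⟨by omega, ?_⟩
            rwa [show a + ((i - a).toNat : ℤ) = i by omega]
          rw [mem_iUnion₂]
          refine ⟨j, Finset.mem_range.2 hspec.1, ?_, ?_, ?_⟩
          · intro r hr
            rw [List.mem_cons] at hr
            rcases hr with rfl | hr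
            · refine ⟨fun i hi1 hi2 => hE1 i (by simp only at hi1; omega)
                (by simp only at hi1 hi2; omega), ?_, ?_⟩
              · simp only [add_sub_cancel_right]
                exact hspec.2
              · simp only
                rwa [show a + (j : ℤ) + 1 + ((ℓ - 1 - j : ℕ) : ℤ) = a + ℓ by omega]
            · exact h1' r hr
          · intro r hr
            by_cases hj0 : j = 0
            · simp only [hRj, if_pos hj0] at hr
              exact h2 r hr
            · simp only [hRj, if_neg hj0, Finset.mem_insert] at hr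
              rcases hr with rfl | hr
              · exact hnew ω j (by omega) hmin hE2 hspec.2
              · exact h2 r hr
          · intro s hs
            rw [Finset.mem_insert] at hs
            rcases hs with rfl | hs
            · have := hE1 (a + j) (by omega) (by omega)
              rw [mem_dead_succ] at this
              exact this.resolve_right hspec.2
            · exact h3 s hs
      -- the new run is not in `R`
      have hnot : ∀ j : ℕ, (a + c - 1, j + 2) ∉ R := by
        intro j hj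
        exact hR _ hj (a, ℓ) List.mem_cons_self ⟨by simp, by simp only; omega⟩
      have hnotS : ∀ j : ℕ, j < ℓ → a + (j : ℤ) ∉ S := by
        intro j hj hs
        exact hS _ hs (a, ℓ) List.mem_cons_self ⟨by simp, by simp only; omega⟩
      have hRL : ∀ j : ℕ, ∀ r' ∈ insert (a + c - 1, j + 2) R, ∀ r ∈ L,
          ¬ (r.1 + c - 1 ≤ r'.1 ∧ r'.1 < r.1 + r.2 + c) := by
        intro j r' hr' r hr
        rw [Finset.mem_insert] at hr'
        rcases hr' with rfl | hr'
        · have := hL1 r hr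
          simp only at this ⊢
          omega
        · exact hR r' hr' r (List.mem_cons_of_mem _ hr)
      -- bounds
      have hb0 : P.real A0 ≤ (3 / 64) ^ S.card * (L.map fun r => wt r.2).prod *
          (wt (ℓ + 2) * ∏ r ∈ R, wt r.2) := by
        have h1 := ihM L (insert (a + c - 1, ℓ + 2) R) S (by omega) hL2
          (fun s hs r hr => hS s hs r (List.mem_cons_of_mem _ hr)) (hRL ℓ)
          (fun r hr => by
            rw [Finset.mem_insert] at hr
            rcases hr with rfl | hr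
            · simp
            · exact hR1 r hr)
        rw [Finset.prod_insert (hnot ℓ)] at h1
        exact h1
      have hbj : ∀ j ∈ Finset.range ℓ, P.real (A j) ≤ (3 / 64) ^ S.card *
          (L.map fun r => wt r.2).prod * (∏ r ∈ R, wt r.2) *
            (3 / 64 * (wt j * wt (ℓ - 1 - j))) := by
        intro j hj
        rw [Finset.mem_range] at hj
        have hprodRj : ∏ r ∈ Rj j, wt r.2 ≤ wt j * ∏ r ∈ R, wt r.2 := by
          by_cases hj0 : j = 0
          · subst hj0
            simp [hRj, wt_zero]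
          · simp only [hRj, if_neg hj0]
            rw [Finset.prod_insert (hnot j)]
            refine mul_le_mul_of_nonneg_right ?_ hpR
            have := wt_add_two j
            have := wt_nonneg j
            simp only
            linarith
        have h1 := ihM ((a + j + 1, ℓ - 1 - j) :: L) (Rj j) (insert (a + j) S) ?_ ?_ ?_ ?_ ?_
        · refine h1.trans ?_
          rw [Finset.card_insert_of_notMem (hnotS j hj), List.map_cons, List.prod_cons]
          simp only
          calc (3 / 64 : ℝ) ^ (S.card + 1) * (wt (ℓ - 1 - j) * (L.map fun r => wt r.2).prod) *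
                ∏ r ∈ Rj j, wt r.2
              ≤ (3 / 64 : ℝ) ^ (S.card + 1) * (wt (ℓ - 1 - j) * (L.map fun r => wt r.2).prod) *
                (wt j * ∏ r ∈ R, wt r.2) := by
                refine mul_le_mul_of_nonneg_left hprodRj ?_
                have := wt_nonneg (ℓ - 1 - j)
                positivity
            _ = _ := by rw [pow_succ]; ring
        · simp only [List.map_cons, List.sum_cons]
          omega
        · rw [List.pairwise_cons]
          refine ⟨fun r hr => ?_, hL2⟩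
          have := hL1 r hr
          simp only at this ⊢
          omega
        · intro s hs r hr
          rw [Finset.mem_insert] at hs
          rw [List.mem_cons] at hr
          rcases hs with rfl | hs <;> rcases hr with rfl | hr
          · simp only; omega
          · have := hL1 r hr
            simp only at this
            omega
          · have := hS s hs (a, ℓ) List.mem_cons_self
            simp only at this ⊢
            omega
          · exact hS s hs r (List.mem_cons_of_mem _ hr)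
        · intro r' hr' r hr
          rw [List.mem_cons] at hr
          have hr'' : r' = (a + c - 1, j + 2) ∨ r' ∈ R := by
            by_cases hj0 : j = 0
            · simp only [hRj, if_pos hj0] at hr'
              exact Or.inr hr'
            · simp only [hRj, if_neg hj0, Finset.mem_insert] at hr'
              exact hr'
          rcases hr with rfl | hr
          · rcases hr'' with rfl | hr''
            · simp only; omega
            · have := hR r' hr'' (a, ℓ) List.mem_cons_self
              simp only at this ⊢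
              omega
          · rcases hr'' with rfl | hr''
            · have := hL1 r hr
              simp only at this ⊢
              omega
            · exact hR r' hr'' r (List.mem_cons_of_mem _ hr)
        · intro r hr
          by_cases hj0 : j = 0
          · simp only [hRj, if_pos hj0] at hr
            exact hR1 r hr
          · simp only [hRj, if_neg hj0, Finset.mem_insert] at hr
            rcases hr with rfl | hr
            · simp
            · exact hR1 r hr
      have h1 : P.real {ω | (∀ r ∈ (a, ℓ) :: L, ω ∈ EE G c n k r) ∧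
          (∀ r ∈ R, ω ∈ MR G c n (k + 1) r) ∧ ∀ s ∈ S, ω ∉ G k s} ≤
          P.real A0 + ∑ j ∈ Finset.range ℓ, P.real (A j) :=
        (measureReal_mono hsub (measure_ne_top _ _)).trans
          ((measureReal_union_le _ _).trans
            (add_le_add_right (measureReal_biUnion_finset_le _ _) _))
      refine h1.trans ((add_le_add hb0 (Finset.sum_le_sum hbj)).trans ?_)
      rw [← Finset.mul_sum, ← Finset.mul_sum, List.map_cons, List.prod_cons]
      simp only
      have h2 := wt_ineq ℓ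
      have h3 : 0 ≤ (3 / 64 : ℝ) ^ S.card * (L.map fun r => wt r.2).prod * ∏ r ∈ R, wt r.2 := by
        positivity
      calc (3 / 64 : ℝ) ^ S.card * (L.map fun r => wt r.2).prod * (wt (ℓ + 2) * ∏ r ∈ R, wt r.2) +
            (3 / 64) ^ S.card * (L.map fun r => wt r.2).prod * (∏ r ∈ R, wt r.2) *
              (3 / 64 * ∑ j ∈ Finset.range ℓ, wt j * wt (ℓ - 1 - j))
          = (3 / 64 : ℝ) ^ S.card * (L.map fun r => wt r.2).prod * (∏ r ∈ R, wt r.2) *
            (wt (ℓ + 2) + 3 / 64 * ∑ j ∈ Finset.range ℓ, wt j * wt (ℓ - 1 - j)) := by ring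
        _ ≤ (3 / 64 : ℝ) ^ S.card * (L.map fun r => wt r.2).prod * (∏ r ∈ R, wt r.2) * wt ℓ :=
            mul_le_mul_of_nonneg_left h2 h3
        _ = _ := by ring

/-- several maximal runs of dead blocks -/
theorem runs_bound (hF : Field P G Fut) (c : ℤ) (n : ℕ) : ∀ k (R : Finset (ℤ × ℕ)),
    (∀ r ∈ R, 1 ≤ r.2) → P.real {ω | ∀ r ∈ R, ω ∈ MR G c n k r} ≤ ∏ r ∈ R, wt r.2 := by
  classical
  induction n with
  | zero =>
    intro k R hR
    rcases R.eq_empty_or_nonempty with rfl | ⟨r, hr⟩
    · simp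
    · have : {ω | ∀ r ∈ R, ω ∈ MR G c 0 k r} = ∅ := by
        rw [eq_empty_iff_forall_notMem]
        intro ω hω
        have h1 := (hω r hr).1 r.1 le_rfl (by have := hR r hr; omega)
        exact h1
      rw [this, measureReal_empty]
      exact Finset.prod_nonneg fun r _ => wt_nonneg _
  | succ n ih =>
    intro k R hR
    by_cases hsep : ∀ r ∈ R, ∀ r' ∈ R, r ≠ r' → r.1 + r.2 < r'.1 ∨ r'.1 + r'.2 < r.1
    · have h1 := process hF c n ih k _ R.toList ∅ ∅ le_rfl ?_ (by simp) (by simp) (by simp)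
      · simp only [Finset.card_empty, pow_zero, one_mul, Finset.prod_empty, mul_one] at h1
        rw [Finset.prod_map_toList] at h1
        refine (measureReal_mono ?_ (measure_ne_top _ _)).trans h1
        intro ω hω
        refine ⟨?_, by simp, by simp⟩
        intro r hr
        rw [Finset.mem_toList] at hr
        obtain ⟨h2, h3, h4⟩ := hω r hr
        exact ⟨h2, fun h => h3 (mem_dead_succ.2 (Or.inr h)), fun h => h4 (mem_dead_succ.2 (Or.inr h))⟩
      · have hnd := R.nodup_toList
        refine List.Pairwise.imp_of_mem ?_ hnd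
        intro r r' hr hr' hne
        exact hsep r (Finset.mem_toList.1 hr) r' (Finset.mem_toList.1 hr') hne
    · push Not at hsep
      obtain ⟨r, hr, r', hr', hne, h1, h2⟩ := hsep
      have : {ω | ∀ r ∈ R, ω ∈ MR G c (n + 1) k r} = ∅ := by
        rw [eq_empty_iff_forall_notMem]
        intro ω hω
        obtain ⟨h3, h4, h5⟩ := hω r hr
        obtain ⟨h3', h4', h5'⟩ := hω r' hr'
        have hr1 := hR r hr
        have hr1' := hR r' hr'
        have e1 : r.1 = r'.1 := by
          rcases lt_trichotomy r.1 r'.1 with h | h | h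
          · exact absurd (h3 (r'.1 - 1) (by omega) (by omega)) h4'
          · exact h
          · exact absurd (h3' (r.1 - 1) (by omega) (by omega)) h4
        have e2 : r.2 = r'.2 := by
          rcases lt_trichotomy r.2 r'.2 with h | h | h
          · exact absurd (h3' (r.1 + r.2) (by omega) (by omega)) h5
          · exact h
          · exact absurd (h3 (r'.1 + r'.2) (by omega) (by omega)) h5'
        exact hne (Prod.ext e1 e2)
      rw [this, measureReal_empty]
      exact Finset.prod_nonneg fun r _ => wt_nonneg _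

/-- the bound for fields without bad blocks outside a window -/
lemma dead_bound_window (hF : Field P G Fut) (c : ℤ) (n k : ℕ) (i₀ : ℤ) (m : ℕ) (A : ℕ)
    (hA : ∀ j, (A : ℤ) ≤ |j - i₀| → dead G c n k j = ∅) :
    P.real {ω | ∀ i, i₀ ≤ i → i < i₀ + m → ω ∈ dead G c n k i} ≤ 4 * (1 / 2) ^ m := by
  classical
  rcases Nat.eq_zero_or_pos m with rfl | hm
  · have := measureReal_le_one (μ := P)
      (s := {ω | ∀ i, i₀ ≤ i → i < i₀ + ((0 : ℕ) : ℤ) → ω ∈ dead G c n k i})
    rw [pow_zero]
    linarith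
  have hsub : {ω | ∀ i, i₀ ≤ i → i < i₀ + m → ω ∈ dead G c n k i} ⊆
      ⋃ α ∈ Finset.range (A + 1), ⋃ β ∈ Finset.range (A + 1),
        {ω | ∀ r ∈ ({(i₀ - α, m + α + β)} : Finset (ℤ × ℕ)), ω ∈ MR G c n k r} := by
    intro ω hω
    have hex1 : ∃ α : ℕ, ω ∉ dead G c n k (i₀ - α - 1) := ⟨A, by
      rw [hA _ (by rw [le_abs]; right; omega)]; exact id⟩
    have hex2 : ∃ β : ℕ, ω ∉ dead G c n k (i₀ + m + β) := ⟨A, by
      rw [hA _ (by rw [le_abs]; left; omega)]; exact id⟩
    obtain ⟨α, hα⟩ : ∃ j, Nat.find hex1 = j := ⟨_, rfl⟩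
    obtain ⟨β, hβ⟩ : ∃ j, Nat.find hex2 = j := ⟨_, rfl⟩
    have hs1 := Nat.find_spec hex1
    have hs2 := Nat.find_spec hex2
    have hm1 : ∀ i : ℕ, i < α → ω ∈ dead G c n k (i₀ - i - 1) := fun i hi => by
      by_contra hcon
      exact Nat.find_min hex1 (m := i) (by omega) hcon
    have hm2 : ∀ i : ℕ, i < β → ω ∈ dead G c n k (i₀ + m + i) := fun i hi => by
      by_contra hcon
      exact Nat.find_min hex2 (m := i) (by omega) hcon
    rw [hα] at hs1
    rw [hβ] at hs2
    have hαA : α ≤ A := by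
      rw [← hα]
      exact Nat.find_min' hex1 (by rw [hA _ (by rw [le_abs]; right; omega)]; exact id)
    have hβA : β ≤ A := by
      rw [← hβ]
      exact Nat.find_min' hex2 (by rw [hA _ (by rw [le_abs]; left; omega)]; exact id)
    rw [mem_iUnion₂]
    refine ⟨α, Finset.mem_range.2 (by omega), ?_⟩
    rw [mem_iUnion₂]
    refine ⟨β, Finset.mem_range.2 (by omega), ?_⟩
    intro r hr
    rw [Finset.mem_singleton] at hr
    subst hr
    refine ⟨?_, ?_, ?_⟩
    · intro i hi1 hi2
      simp only at hi1 hi2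
      push_cast at hi2
      by_cases hc1 : i < i₀
      · have := hm1 (i₀ - i - 1).toNat (by omega)
        rwa [show i₀ - ((i₀ - i - 1).toNat : ℤ) - 1 = i by omega] at this
      · by_cases hc2 : i < i₀ + m
        · exact hω i (by omega) hc2
        · have := hm2 (i - i₀ - m).toNat (by omega)
          rwa [show i₀ + m + ((i - i₀ - m).toNat : ℤ) = i by omega] at this
    · exact hs1
    · simp only
      push_cast
      rwa [show i₀ - (α : ℤ) + (m + α + β) = i₀ + m + β by ring]
  have h1 := measureReal_mono (μ := P) hsub (measure_ne_top _ _)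
  refine h1.trans ((measureReal_biUnion_finset_le _ _).trans ?_)
  have h2 : ∀ α ∈ Finset.range (A + 1), P.real (⋃ β ∈ Finset.range (A + 1),
      {ω | ∀ r ∈ ({(i₀ - α, m + α + β)} : Finset (ℤ × ℕ)), ω ∈ MR G c n k r}) ≤
      ∑ β ∈ Finset.range (A + 1), (1 / 2 : ℝ) ^ (m + α + β) := by
    intro α _
    refine (measureReal_biUnion_finset_le _ _).trans (Finset.sum_le_sum fun β _ => ?_)
    refine (runs_bound hF c n k {((i₀ - α : ℤ), m + α + β)} ?_).trans ?_
    · intro r hr
      rw [Finset.mem_singleton] at hr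
      subst hr
      simp only
      omega
    · rw [Finset.prod_singleton]
      exact wt_le _
  refine (Finset.sum_le_sum h2).trans ?_
  have hgeo : ∀ M : ℕ, ∑ β ∈ Finset.range M, (1 / 2 : ℝ) ^ β ≤ 2 := by
    intro M
    rw [geom_sum_eq (by norm_num)]
    have : (0 : ℝ) < (1 / 2) ^ M := by positivity
    have e : ((1 / 2 : ℝ) ^ M - 1) / (1 / 2 - 1) = 2 - 2 * (1 / 2) ^ M := by ring
    rw [e]
    linarith
  have h3 : ∑ α ∈ Finset.range (A + 1), ∑ β ∈ Finset.range (A + 1), (1 / 2 : ℝ) ^ (m + α + β) =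
      (1 / 2) ^ m * ((∑ α ∈ Finset.range (A + 1), (1 / 2 : ℝ) ^ α) *
        ∑ β ∈ Finset.range (A + 1), (1 / 2 : ℝ) ^ β) := by
    rw [Finset.sum_mul_sum, Finset.mul_sum]
    refine Finset.sum_congr rfl fun α _ => ?_
    rw [Finset.mul_sum]
    refine Finset.sum_congr rfl fun β _ => ?_
    rw [pow_add, pow_add]
    ring
  rw [h3]
  have h4 := hgeo (A + 1)
  have h5 : 0 ≤ ∑ β ∈ Finset.range (A + 1), (1 / 2 : ℝ) ^ β := by positivity
  have h6 : (∑ α ∈ Finset.range (A + 1), (1 / 2 : ℝ) ^ α) *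
      (∑ β ∈ Finset.range (A + 1), (1 / 2 : ℝ) ^ β) ≤ 4 := by nlinarith
  have h7 : (0 : ℝ) < (1 / 2) ^ m := by positivity
  nlinarith

/-- all blocks outside a window are declared good -/
def win (G : ℕ → ℤ → Set Ω) (A : ℤ) (k : ℕ) (i : ℤ) : Set Ω :=
  {ω | |i| ≤ A → ω ∈ G k i}

lemma Field.win (hF : Field P G Fut) (A : ℤ) : Field P (win G A) Fut where
  meas := hF.meas
  mono := hF.mono
  univ := hF.univ
  compl := hF.compl
  inter := hF.inter
  good := by
    intro k i
    by_cases h : |i| ≤ A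
    · have : Vote.win G A k i = G k i := by ext ω; simp [Vote.win, h]
      rw [this]; exact hF.good k i
    · have : Vote.win G A k i = Set.univ := by ext ω; simp [Vote.win, h]
      rw [this]; exact hF.univ k
  bound := by
    intro k S F hFF
    by_cases h : ∀ i ∈ S, |i| ≤ A
    · have : {ω | ∀ i ∈ S, ω ∉ Vote.win G A k i} = {ω | ∀ i ∈ S, ω ∉ G k i} := by
        ext ω
        simp only [mem_ofPred_eq, Vote.win]
        exact ⟨fun h' i hi hG => h' i hi fun _ => hG, fun h' i hi hG => h' i hi (hG (h i hi))⟩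
      rw [this]
      exact hF.bound k S F hFF
    · push Not at h
      obtain ⟨i, hi, hiA⟩ := h
      have : {ω | ∀ i ∈ S, ω ∉ Vote.win G A k i} = ∅ := by
        rw [eq_empty_iff_forall_notMem]
        intro ω hω
        exact hω i hi fun h' => absurd h' (not_le.2 hiA)
      rw [this, empty_inter, measureReal_empty]
      have := real_nonneg' (P := P) F
      positivity

lemma dead_win_empty (G : ℕ → ℤ → Set Ω) (c A : ℤ) (n k : ℕ) (j : ℤ)
    (hj : A + (|c| + 1) * n < |j|) (hc : 0 ≤ A) : dead (win G A) c n k j = ∅ := by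
  induction n generalizing k j with
  | zero => rfl
  | succ n ih =>
    rw [eq_empty_iff_forall_notMem]
    intro ω hω
    have hc0 : 0 ≤ |c| := abs_nonneg c
    push_cast at hj
    have h1 : A < |j| := by nlinarith
    rcases hω with h | ⟨h, -, -⟩
    · exact h fun h' => absurd h' (not_le.2 h1)
    · rw [ih (k + 1) (j + c - 1) ?_] at h
      · exact h
      · have h2 : |j| ≤ |j + c - 1| + (|c| + 1) := by
          have e : j = (j + c - 1) + (1 - c) := by ring
          calc |j| = |(j + c - 1) + (1 - c)| := by rw [← e]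
            _ ≤ |j + c - 1| + |1 - c| := abs_add_le _ _
            _ ≤ _ := by
              have := abs_sub (1 : ℤ) c
              rw [abs_one] at this
              omega
        have h3 : (|c| + 1) * ((n : ℤ) + 1) = (|c| + 1) * n + (|c| + 1) := by ring
        omega

lemma dead_win_eq (G : ℕ → ℤ → Set Ω) (c A : ℤ) (n k : ℕ) (j : ℤ)
    (hj : |j| + (|c| + 1) * n ≤ A) : dead (win G A) c n k j = dead G c n k j := by
  induction n generalizing k j with
  | zero => rfl
  | succ n ih =>
    have hc0 : 0 ≤ |c| := abs_nonneg c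
    push_cast at hj
    have h3 : (|c| + 1) * ((n : ℤ) + 1) = (|c| + 1) * n + (|c| + 1) := by ring
    have h4 : (0 : ℤ) ≤ (|c| + 1) * n := by positivity
    have hG : win G A k j = G k j := by
      ext ω
      have : |j| ≤ A := by omega
      simp [win, this]
    have hstep : ∀ e : ℤ, |e| ≤ |c| + 1 → dead (win G A) c n (k + 1) (j + e) =
        dead G c n (k + 1) (j + e) := by
      intro e he
      refine ih (k + 1) (j + e) ?_
      have := abs_add_le j e
      omega
    have e1 : |c - 1| ≤ |c| + 1 := by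
      have := abs_sub c 1
      rw [abs_one] at this
      exact this
    have e2 : |c + 1| ≤ |c| + 1 := by
      have := abs_add_le c 1
      rw [abs_one] at this
      exact this
    have d1 := hstep (c - 1) e1
    have d2 := hstep c (by omega)
    have d3 := hstep (c + 1) e2
    rw [show j + (c - 1) = j + c - 1 by ring] at d1
    rw [show j + (c + 1) = j + c + 1 by ring] at d3
    simp only [dead, hG, d1, d2, d3]

/-- Intervals of dead blocks are exponentially unlikely. -/
theorem dead_bound (hF : Field P G Fut) (c : ℤ) (n k : ℕ) (i₀ : ℤ) (m : ℕ) :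
    P.real {ω | ∀ i, i₀ ≤ i → i < i₀ + m → ω ∈ dead G c n k i} ≤ 4 * (1 / 2) ^ m := by
  set A : ℤ := |i₀| + m + (|c| + 1) * n with hA
  have hc0 : 0 ≤ |c| := abs_nonneg c
  have hi0 : 0 ≤ |i₀| := abs_nonneg i₀
  have h4 : (0 : ℤ) ≤ (|c| + 1) * n := by positivity
  have hA0 : 0 ≤ A := by omega
  have h1 := dead_bound_window (hF.win A) c n k i₀ m (A + (|c| + 1) * n + |i₀| + 1).toNat ?_
  · refine le_trans (le_of_eq ?_) h1
    congr 1
    ext ω
    simp only [mem_ofPred_eq]
    have : ∀ i, i₀ ≤ i → i < i₀ + m → dead (win G A) c n k i = dead G c n k i := by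
      intro i hi1 hi2
      apply dead_win_eq
      have h5 : |i| ≤ |i₀| + m := by
        rw [abs_le]
        have := neg_abs_le i₀
        have := le_abs_self i₀
        constructor <;> omega
      omega
    constructor
    · intro h i hi1 hi2
      rw [this i hi1 hi2]
      exact h i hi1 hi2
    · intro h i hi1 hi2
      rw [← this i hi1 hi2]
      exact h i hi1 hi2
  · intro j hj
    rw [Int.toNat_of_nonneg (by omega)] at hj
    apply dead_win_empty _ _ _ _ _ _ _ hA0
    have := abs_sub j i₀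
    omega

end

end Pool.Agent.Helper55.Vote
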