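import Pool.Agent.Helper55.Vote.Basic
import Pool.Agent.Helper55.Vote.Perc

/-! Walls: space-time regions without discrepancies, and their propagation through layers. -/

namespace Pool.Agent.Helper55.Vote

open MeasureTheory Set

/-- During the layer `[t, t + T]` the block `i` of length `L` carries a wall of type `b`: whenever
the configuration at time `t` is equal to `b` on the block, there is an interval `[p j, q j]` at
each time `t + j` on which the state is `b` or was just set by the noise, these intervals cannot be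
jumped over, and at time `t + T` the state is `b` on the blocks `i - 3, …, i + 3`. -/
def Wall (N : Finset ℤ) (b : Bool) (D₁ L T : ℕ) (ω : Om) (i t : ℤ) : Prop :=
  ∃ p q : ℕ → ℤ, p 0 = i * L ∧ q 0 = i * L + L - 1 ∧
    (∀ j < T, p (j + 1) + D₁ ≤ q j ∧ p j + D₁ ≤ q (j + 1)) ∧
    p T ≤ (i + 4) * L ∧ (i - 3) * L - 1 ≤ q T ∧
    ∀ x : ℤ → Bool, (∀ s, i * L ≤ s → s < i * L + L → x s = b) →
      (∀ j ≤ T, ∀ s, p j ≤ s → s ≤ q j →
        run N ω t x j s = b ∨ ∃ j', j = j' + 1 ∧ ω (s, t + j') ≠ none) ∧
      ∀ s, (i - 3) * L ≤ s → s < (i + 4) * L → run N ω t x T s = b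

lemma agree_of_noise (N : Finset ℤ) (ω : Om) (t : ℤ) (x x' : ℤ → Bool) (j : ℕ) (s : ℤ)
    (h : ω (s, t + j) ≠ none) : run N ω t x (j + 1) s = run N ω t x' (j + 1) s := by
  rw [run_succ, run_succ]
  unfold step
  cases hw : ω (s, t + j) with
  | none => exact absurd hw h
  | some c => simp [hw]

/-- the walls of the blocks `iL` and `iR` protect the zone between them -/
lemma zone_layer {N : Finset ℤ} {b : Bool} {D₁ L T : ℕ} (hD : ∀ v ∈ N, |v| ≤ D₁) {ω : Om}
    {iL iR t : ℤ} (hL : Wall N b D₁ L T ω iL t) (hR : Wall N b D₁ L T ω iR t)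
    {x x' : ℤ → Bool}
    (h1 : ∀ s, iL * L ≤ s → s < iL * L + L → x s = b)
    (h1' : ∀ s, iL * L ≤ s → s < iL * L + L → x' s = b)
    (h2 : ∀ s, iR * L ≤ s → s < iR * L + L → x s = b)
    (h2' : ∀ s, iR * L ≤ s → s < iR * L + L → x' s = b)
    (h3 : ∀ s, iL * L ≤ s → s < iR * L + L → x s = x' s) :
    ∀ s, (iL - 3) * L ≤ s → s < (iR + 4) * L → run N ω t x T s = run N ω t x' T s := by
  obtain ⟨pL, qL, hL0, hL1, hL2, hL3, hL4, hL5⟩ := hL
  obtain ⟨pR, qR, hR0, hR1, hR2, hR3, hR4, hR5⟩ := hR
  have key : ∀ j ≤ T, ∀ s, pL j ≤ s → s ≤ qR j → run N ω t x j s = run N ω t x' j s := by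
    intro j
    induction j with
    | zero =>
      intro _ s hs1 hs2
      rw [hL0] at hs1
      rw [hR1] at hs2
      exact h3 s hs1 (by omega)
    | succ j ih =>
      intro hj s hs1 hs2
      by_cases hc1 : s ≤ qL (j + 1)
      · rcases (hL5 x h1).1 (j + 1) hj s hs1 hc1 with h | ⟨j', hj', h⟩
        · rcases (hL5 x' h1').1 (j + 1) hj s hs1 hc1 with h' | ⟨j', hj', h'⟩
          · rw [h, h']
          · rw [show j = j' by omega]
            exact agree_of_noise N ω t x x' j' s h'
        · rw [show j = j' by omega]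
          exact agree_of_noise N ω t x x' j' s h
      · by_cases hc2 : pR (j + 1) ≤ s
        · rcases (hR5 x h2).1 (j + 1) hj s hc2 hs2 with h | ⟨j', hj', h⟩
          · rcases (hR5 x' h2').1 (j + 1) hj s hc2 hs2 with h' | ⟨j', hj', h'⟩
            · rw [h, h']
            · rw [show j = j' by omega]
              exact agree_of_noise N ω t x x' j' s h'
          · rw [show j = j' by omega]
            exact agree_of_noise N ω t x x' j' s h
        · rw [run_succ, run_succ]
          unfold step
          have hmaj : maj N (run N ω t x j) s = maj N (run N ω t x' j) s := by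
            unfold maj
            congr 4
            refine Finset.filter_congr fun v hv => ?_
            have hv' := hD v hv
            rw [abs_le] at hv'
            have e1 := hL2 j (by omega)
            have e2 := hR2 j (by omega)
            rw [ih (by omega) (s + v) (by omega) (by omega)]
          rw [hmaj]
  intro s hs1 hs2
  by_cases hc1 : s < pL T
  · have e1 := (hL5 x h1).2 s hs1 (by omega)
    have e2 := (hL5 x' h1').2 s hs1 (by omega)
    rw [e1, e2]
  · by_cases hc2 : qR T < s
    · have e1 := (hR5 x h2).2 s (by omega) hs2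
      have e2 := (hR5 x' h2').2 s (by omega) hs2
      rw [e1, e2]
    · exact key T le_rfl s (by omega) (by omega)

/-- several layers -/
lemma zone_layers {N : Finset ℤ} {b : Bool} {D₁ L T : ℕ} (hD : ∀ v ∈ N, |v| ≤ D₁) {ω : Om}
    {G : ℕ → ℤ → Set Om} {t₀ : ℤ} (hG : ∀ k i, ω ∈ G k i → Wall N b D₁ L T ω i (t₀ + k * T))
    (n : ℕ) : ∀ (k : ℕ) (iL iR : ℤ) (x x' : ℤ → Bool),
      ω ∉ dead G (-2) n k iL → ω ∉ dead G 2 n k iR →
      (∀ s, iL * L ≤ s → s < iL * L + L → x s = b) →
      (∀ s, iL * L ≤ s → s < iL * L + L → x' s = b) →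
      (∀ s, iR * L ≤ s → s < iR * L + L → x s = b) →
      (∀ s, iR * L ≤ s → s < iR * L + L → x' s = b) →
      (∀ s, iL * L ≤ s → s < iR * L + L → x s = x' s) →
      ∀ s, (iL - n) * L ≤ s → s < (iR + n + 1) * L →
        run N ω (t₀ + k * T) x (n * T) s = run N ω (t₀ + k * T) x' (n * T) s := by
  induction n with
  | zero =>
    intro k iL iR x x' _ _ _ _ _ _ h3 s hs1 hs2
    rw [Nat.zero_mul, run_zero, run_zero]
    refine h3 s ?_ ?_
    · simpa using hs1
    · push_cast at hs2
      linarith
  | succ n ih =>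
    intro k iL iR x x' hdL hdR h1 h1' h2 h2' h3 s hs1 hs2
    rw [mem_dead_succ] at hdL hdR
    push Not at hdL hdR
    obtain ⟨hgL, heL⟩ := hdL
    obtain ⟨hgR, heR⟩ := hdR
    have hWL := hG k iL hgL
    have hWR := hG k iR hgR
    have hz := zone_layer hD hWL hWR h1 h1' h2 h2' h3
    have hLb := hWL
    have hRb := hWR
    obtain ⟨pL, qL, -, -, -, -, -, hL5⟩ := hLb
    obtain ⟨pR, qR, -, -, -, -, -, hR5⟩ := hRb
    -- living successors
    have hexL : ∃ e : ℤ, -3 ≤ e ∧ e ≤ -1 ∧ ω ∉ dead G (-2) n (k + 1) (iL + e) := by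
      by_contra hcon
      push Not at hcon
      apply heL
      refine ⟨?_, ?_, ?_⟩
      · have := hcon (-3) (by norm_num) (by norm_num)
        convert this using 2
        ring
      · exact hcon (-2) (by norm_num) (by norm_num)
      · have := hcon (-1) (by norm_num) (by norm_num)
        convert this using 2
        ring
    have hexR : ∃ e : ℤ, 1 ≤ e ∧ e ≤ 3 ∧ ω ∉ dead G 2 n (k + 1) (iR + e) := by
      by_contra hcon
      push Not at hcon
      apply heR
      refine ⟨?_, ?_, ?_⟩
      · have := hcon 1 (by norm_num) (by norm_num)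
        convert this using 2
        ring
      · exact hcon 2 (by norm_num) (by norm_num)
      · have := hcon 3 (by norm_num) (by norm_num)
        convert this using 2
        ring
    obtain ⟨e, he1, he2, he3⟩ := hexL
    obtain ⟨f, hf1, hf2, hf3⟩ := hexR
    have hLn : (0 : ℤ) ≤ L := Int.natCast_nonneg L
    set y := run N ω (t₀ + k * T) x T with hy
    set y' := run N ω (t₀ + k * T) x' T with hy'
    have hih := ih (k + 1) (iL + e) (iR + f) y y' he3 hf3
      (fun s hs1 hs2 => (hL5 x h1).2 s (by nlinarith) (by nlinarith))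
      (fun s hs1 hs2 => (hL5 x' h1').2 s (by nlinarith) (by nlinarith))
      (fun s hs1 hs2 => (hR5 x h2).2 s (by nlinarith) (by nlinarith))
      (fun s hs1 hs2 => (hR5 x' h2').2 s (by nlinarith) (by nlinarith))
      (fun s hs1 hs2 => hz s (by nlinarith) (by nlinarith)) s
      (by push_cast at hs1; nlinarith) (by push_cast at hs2; nlinarith)
    rw [show (n + 1) * T = T + n * T by ring, run_add, run_add]
    rw [show t₀ + (k : ℤ) * T + T = t₀ + ((k + 1 : ℕ) : ℤ) * T by push_cast; ring]
    exact hih

/-- walls of shifted noise fields -/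
lemma Wall.of_shift {N : Finset ℤ} {b : Bool} {D₁ L T : ℕ} {ω : Om} {i t : ℤ}
    (h : Wall N b D₁ L T (shift (i * L, t) ω) 0 0) : Wall N b D₁ L T ω i t := by
  obtain ⟨p, q, h0, h1, h2, h3, h4, h5⟩ := h
  refine ⟨fun j => p j + i * L, fun j => q j + i * L, ?_, ?_, ?_, ?_, ?_, ?_⟩
  · simp only [h0]; ring
  · simp only [h1]; ring
  · intro j hj
    have := h2 j hj
    constructor <;> simp only <;> omega
  · simp only
    nlinarith
  · simp only
    nlinarith
  · intro x hx
    have hx' := h5 (fun s => x (s + i * L)) (fun s hs1 hs2 => hx _ (by omega) (by omega))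
    have hrun : ∀ j s, run N ω t x j s =
        run N (shift (i * L, t) ω) 0 (fun s => x (s + i * L)) j (s - i * L) := by
      intro j s
      rw [run_shift]
      congr 1
      · rw [zero_add]
      · funext r
        congr 1
        ring
      · ring
    refine ⟨?_, ?_⟩
    · intro j hj s hs1 hs2
      simp only at hs1 hs2
      rw [hrun]
      rcases hx'.1 j hj (s - i * L) (by omega) (by omega) with h | ⟨j', hj', h⟩
      · exact Or.inl h
      · refine Or.inr ⟨j', hj', ?_⟩
        unfold shift at h
        convert h using 2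
        simp only [Prod.mk_add_mk, Prod.mk.injEq]
        constructor <;> ring
    · intro s hs1 hs2
      rw [hrun]
      exact hx'.2 _ (by nlinarith) (by nlinarith)

end Pool.Agent.Helper55.Vote
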